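import Pool.Agent.P.MP_a3b544_ag.F2.Ifc

/-! Facts about the standard complex Gaussian measure on triples. -/

namespace Pool.Agent.P.MP_a3b544_ag.F2

open scoped ENNReal NNReal Topology ComplexConjugate
open Set MeasureTheory Filter

/-- Real Gaussian density. -/
noncomputable def gs_e1 (x : ℝ) : ℝ≥0∞ := ENNReal.ofReal (Real.exp (-x ^ 2) / √Real.pi)

/-- Complex Gaussian density. -/
noncomputable def gs_e (b : ℂ) : ℝ≥0∞ := ENNReal.ofReal (Real.exp (-‖b‖ ^ 2) / Real.pi)

@[fun_prop] theorem gs_e1_meas : Measurable gs_e1 := by unfold gs_e1; fun_prop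

@[fun_prop] theorem gs_e_meas : Measurable gs_e := by unfold gs_e; fun_prop

theorem gs_sqrt_pos : 0 < √Real.pi := Real.sqrt_pos.2 Real.pi_pos

theorem gs_e1_neg (x : ℝ) : gs_e1 (-x) = gs_e1 x := by simp [gs_e1]

theorem gs_e1_int : ∫⁻ x, gs_e1 x = 1 := by
  have h1 : Integrable (fun x : ℝ => Real.exp (-x ^ 2) / √Real.pi) := by
    have := (integrable_exp_neg_mul_sq (b := 1) one_pos).div_const (√Real.pi)
    simpa using this
  unfold gs_e1
  rw [← ofReal_integral_eq_lintegral_ofReal h1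
    (Eventually.of_forall fun x => by have := gs_sqrt_pos; positivity), integral_div]
  have h2 := integral_gaussian 1
  simp only [neg_mul, one_mul, div_one] at h2
  rw [h2, div_self gs_sqrt_pos.ne', ENNReal.ofReal_one]

theorem gs_e1_abs : ∫⁻ x, gs_e1 x * ENNReal.ofReal |x| = ENNReal.ofReal (1 / √Real.pi) := by
  have h0 : Integrable (fun x : ℝ => |x| * Real.exp (-|x| ^ 2)) := by
    have := (integrable_mul_exp_neg_mul_sq (b := 1) one_pos).abs
    refine this.congr (Eventually.of_forall fun x => ?_)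
    simp [abs_mul, abs_of_pos (Real.exp_pos _)]
  have h1 : Integrable (fun x : ℝ => |x| * Real.exp (-|x| ^ 2) / √Real.pi) := h0.div_const _
  have h2 : ∫ x : ℝ, |x| * Real.exp (-|x| ^ 2) = 1 := by
    rw [integral_comp_abs (f := fun x => x * Real.exp (-x ^ 2))]
    have := integral_rpow_mul_exp_neg_rpow (p := 2) (q := 1) two_pos (by norm_num)
    simp only [Real.rpow_one, Real.rpow_two] at this
    rw [this]; norm_num
  have h3 : ∀ x : ℝ, gs_e1 x * ENNReal.ofReal |x| =
      ENNReal.ofReal (|x| * Real.exp (-|x| ^ 2) / √Real.pi) := by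
    intro x
    unfold gs_e1
    rw [← ENNReal.ofReal_mul (by have := gs_sqrt_pos; positivity), sq_abs]
    congr 1; ring
  simp_rw [h3]
  rw [← ofReal_integral_eq_lintegral_ofReal h1
    (Eventually.of_forall fun x => by have := gs_sqrt_pos; positivity), integral_div, h2]

theorem gs_e_split (x y : ℝ) : gs_e ⟨x, y⟩ = gs_e1 x * gs_e1 y := by
  unfold gs_e gs_e1
  rw [← ENNReal.ofReal_mul (by have := gs_sqrt_pos; positivity)]
  congr 1
  rw [Complex.sq_norm, Complex.normSq_mk, div_mul_div_comm, ← Real.exp_add,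
    Real.mul_self_sqrt Real.pi_pos.le]
  congr 2; ring

theorem gs_split (F : ℂ → ℝ≥0∞) (hF : Measurable F) :
    ∫⁻ b, gs_e b * F b = ∫⁻ x, ∫⁻ y, gs_e1 x * gs_e1 y * F ⟨x, y⟩ := by
  rw [← (Complex.volume_preserving_equiv_real_prod.symm).lintegral_comp_emb
    Complex.measurableEquivRealProd.symm.measurableEmbedding, Measure.volume_eq_prod,
    lintegral_prod]
  · simp_rw [Complex.measurableEquivRealProd_symm_apply, gs_e_split]
  · exact ((gs_e_meas.mul hF).comp Complex.measurableEquivRealProd.symm.measurable).aemeasurable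

theorem gs_rot (c : ℂ) (F : ℝ → ℝ≥0∞) (hF : Measurable F) :
    ∫⁻ b, gs_e b * F (c * b).re = ∫⁻ x, gs_e1 x * F (‖c‖ * x) := by
  have h1 : ∫⁻ b, gs_e b * F (c * b).re = ∫⁻ b, gs_e b * F (‖c‖ * b.re) := by
    rw [← (rotation (Circle.exp c.arg)).measurePreserving.lintegral_comp
      (f := fun b => gs_e b * F (‖c‖ * b.re)) (by fun_prop)]
    refine lintegral_congr fun b => ?_
    rw [rotation_apply]
    have e1 : gs_e (Circle.exp c.arg * b) = gs_e b := by
      unfold gs_e; rw [norm_mul, Circle.norm_coe, one_mul]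
    have e2 : c * b = (‖c‖ : ℂ) * (Circle.exp c.arg * b) := by
      rw [← mul_assoc, Circle.coe_exp, Complex.norm_mul_exp_arg_mul_I]
    rw [e1, e2, Complex.re_ofReal_mul]
  rw [h1, gs_split _ (by fun_prop)]
  refine lintegral_congr fun x => ?_
  have : ∀ y, gs_e1 x * gs_e1 y * F (‖c‖ * (⟨x, y⟩ : ℂ).re) = gs_e1 x * F (‖c‖ * x) * gs_e1 y := by
    intro y; ring
  simp_rw [this]
  rw [lintegral_const_mul _ gs_e1_meas, gs_e1_int, mul_one]

theorem gs_e_int : ∫⁻ b, gs_e b = 1 := by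
  have := gs_rot 0 (fun _ => 1) measurable_const
  simpa [gs_e1_int] using this

theorem gs_polar (G : ℝ → ℝ≥0∞) (hG : Measurable G) :
    ∫⁻ b : ℂ, G ‖b‖ = ∫⁻ r in Ioi (0 : ℝ), ENNReal.ofReal (2 * Real.pi * r) * G r := by
  rw [← Complex.lintegral_comp_polarCoord_symm]
  simp_rw [Complex.norm_polarCoord_symm]
  have ht : polarCoord.target = Ioi (0 : ℝ) ×ˢ Ioo (-Real.pi) Real.pi := rfl
  rw [ht, Measure.volume_eq_prod, ← Measure.prod_restrict, lintegral_prod _ (by fun_prop)]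
  refine setLIntegral_congr_fun measurableSet_Ioi fun r hr => ?_
  have hr' : 0 < r := hr
  simp only [lintegral_const, smul_eq_mul, MeasurableSet.univ, Measure.restrict_apply, univ_inter,
    Real.volume_Ioo, abs_of_pos hr']
  rw [mul_right_comm, ← ENNReal.ofReal_mul hr'.le]
  congr 2; ring

theorem gs_even (K : ℝ → ℝ≥0∞) (hK : ∀ r, K (-r) = K r) :
    2 * ∫⁻ r in Ioi (0 : ℝ), K r ≤ ∫⁻ r, K r := by
  have h1 : ∫⁻ r in Iio (0 : ℝ), K r = ∫⁻ r in Ioi (0 : ℝ), K r := by
    rw [← (Measure.measurePreserving_neg (volume : Measure ℝ)).setLIntegral_comp_preimage_emb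
      (MeasurableEquiv.neg ℝ).measurableEmbedding K (Ioi 0)]
    simp_rw [hK]
    congr 2
    ext x; simp
  rw [two_mul]
  nth_rewrite 1 [← h1]
  rw [← lintegral_union measurableSet_Ioi
    (Set.disjoint_left.2 fun x h1 h2 => lt_asymm (mem_Iio.1 h1) (mem_Ioi.1 h2))]
  exact setLIntegral_le_lintegral _ _

theorem gs_core (τ l : ℝ) :
    ∫⁻ b0, gs_e b0 * ∫⁻ b1, gs_e b1 * ENNReal.ofReal |τ + l * (b0⁻¹ * b1).re| ≤
      ENNReal.ofReal √(τ ^ 2 + l ^ 2) := by
  have hA : ∀ b0 : ℂ, ∫⁻ b1, gs_e b1 * ENNReal.ofReal |τ + l * (b0⁻¹ * b1).re| =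
      ∫⁻ x, gs_e1 x * ENNReal.ofReal |τ + l * (‖b0‖⁻¹ * x)| := by
    intro b0
    rw [gs_rot b0⁻¹ (fun t => ENNReal.ofReal |τ + l * t|) (by fun_prop), norm_inv]
  simp_rw [hA]
  have hG : Measurable fun r : ℝ => ENNReal.ofReal (Real.exp (-r ^ 2) / Real.pi) *
      ∫⁻ x, gs_e1 x * ENNReal.ofReal |τ + l * (r⁻¹ * x)| := by
    refine Measurable.mul (by fun_prop) ?_
    exact Measurable.lintegral_prod_right' (f := fun p : ℝ × ℝ =>
      gs_e1 p.2 * ENNReal.ofReal |τ + l * (p.1⁻¹ * p.2)|) (by fun_prop)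
  have hB := gs_polar _ hG
  unfold gs_e
  rw [hB]
  set K : ℝ → ℝ≥0∞ := fun r => ∫⁻ x, gs_e1 r * gs_e1 x * ENNReal.ofReal |τ * r + l * x| with hK
  have hKe : ∀ r, K (-r) = K r := by
    intro r
    simp only [hK]
    rw [← lintegral_neg_eq_self]
    refine lintegral_congr fun x => ?_
    rw [gs_e1_neg, gs_e1_neg, ← abs_neg]
    congr 3; ring
  have hC : ∫⁻ r in Ioi (0 : ℝ), ENNReal.ofReal (2 * Real.pi * r) *
      (ENNReal.ofReal (Real.exp (-r ^ 2) / Real.pi) *
      ∫⁻ x, gs_e1 x * ENNReal.ofReal |τ + l * (r⁻¹ * x)|) =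
      ENNReal.ofReal √Real.pi * (2 * ∫⁻ r in Ioi (0 : ℝ), K r) := by
    rw [← mul_assoc, ← lintegral_const_mul' _ _ (by finiteness)]
    refine setLIntegral_congr_fun measurableSet_Ioi fun r hr => ?_
    have hr' : 0 < r := hr
    simp only [hK]
    rw [← mul_assoc, ← lintegral_const_mul' _ _ (by finiteness),
      ← lintegral_const_mul' _ _ (by finiteness)]
    refine lintegral_congr fun x => ?_
    have hs := gs_sqrt_pos
    have hp := Real.pi_pos
    have key : ENNReal.ofReal (2 * Real.pi * r) * ENNReal.ofReal (Real.exp (-r ^ 2) / Real.pi) *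
        ENNReal.ofReal |τ + l * (r⁻¹ * x)| =
        ENNReal.ofReal √Real.pi * 2 * (gs_e1 r * ENNReal.ofReal |τ * r + l * x|) := by
      unfold gs_e1
      rw [← ENNReal.ofReal_mul (by positivity), ← ENNReal.ofReal_mul (by positivity),
        ← ENNReal.ofReal_mul (by positivity), ← ENNReal.ofReal_ofNat 2,
        ← ENNReal.ofReal_mul (by positivity), ← ENNReal.ofReal_mul (by positivity)]
      congr 1
      have : τ * r + l * x = r * (τ + l * (r⁻¹ * x)) := by field_simp
      rw [this, abs_mul, abs_of_pos hr']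
      field_simp
    calc _ = gs_e1 x * (ENNReal.ofReal (2 * Real.pi * r) *
          ENNReal.ofReal (Real.exp (-r ^ 2) / Real.pi) * ENNReal.ofReal |τ + l * (r⁻¹ * x)|) := by
          ring
      _ = _ := by rw [key]; ring
  have hD : ∫⁻ r, K r = ENNReal.ofReal √(τ ^ 2 + l ^ 2) * ENNReal.ofReal (1 / √Real.pi) := by
    have h1 := gs_split (fun b => ENNReal.ofReal |((⟨τ, -l⟩ : ℂ) * b).re|) (by fun_prop)
    have h2 := gs_rot ⟨τ, -l⟩ (fun t => ENNReal.ofReal |t|) (by fun_prop)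
    have h3 : ‖(⟨τ, -l⟩ : ℂ)‖ = √(τ ^ 2 + l ^ 2) := by
      rw [Complex.norm_def, Complex.normSq_mk]; congr 1; ring
    have h4 : ∫⁻ r, K r = ∫⁻ x, ∫⁻ y, gs_e1 x * gs_e1 y *
        ENNReal.ofReal |((⟨τ, -l⟩ : ℂ) * ⟨x, y⟩).re| := by
      refine lintegral_congr fun r => lintegral_congr fun x => ?_
      congr 3
      simp
    rw [h4, ← h1, h2, h3, ← gs_e1_abs, ← lintegral_const_mul' _ _ (by finiteness)]
    refine lintegral_congr fun x => ?_
    rw [abs_mul, abs_of_nonneg (Real.sqrt_nonneg _), ENNReal.ofReal_mul (Real.sqrt_nonneg _)]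
    ring
  rw [hC]
  calc _ ≤ ENNReal.ofReal √Real.pi * ∫⁻ r, K r := by gcongr; exact gs_even K hKe
    _ = _ := by
      rw [hD, mul_left_comm, ← ENNReal.ofReal_mul gs_sqrt_pos.le,
        mul_one_div_cancel gs_sqrt_pos.ne', ENNReal.ofReal_one, mul_one]

/-- Density of the Gaussian measure on triples. -/
noncomputable def gs_rho (a : A3) : ℝ≥0∞ := ENNReal.ofReal (Real.exp (-nsq a) / Real.pi ^ 3)

@[fun_prop] theorem gs_rho_meas : Measurable gs_rho := by unfold gs_rho nsq; fun_prop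

theorem gs_rho_eq (a : A3) : gs_rho a = gs_e a.1 * (gs_e a.2.1 * gs_e a.2.2) := by
  unfold gs_rho gs_e nsq
  have hp := Real.pi_pos
  rw [← ENNReal.ofReal_mul (by positivity), ← ENNReal.ofReal_mul (by positivity)]
  congr 1
  rw [div_mul_div_comm, div_mul_div_comm, ← Real.exp_add, ← Real.exp_add]
  congr 1
  · congr 1; ring
  · ring

theorem gs_lint (F : A3 → ℝ≥0∞) (hF : Measurable F) :
    ∫⁻ a, F a ∂gauss = ∫⁻ a, gs_rho a * F a :=
  lintegral_withDensity_eq_lintegral_mul volume gs_rho_meas hF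

theorem gs_lint2 (F : ℂ × ℂ → ℝ≥0∞) (hF : Measurable F) :
    ∫⁻ a, F (a.1, a.2.1) ∂gauss = ∫⁻ b0, gs_e b0 * ∫⁻ b1, gs_e b1 * F (b0, b1) := by
  rw [gs_lint _ (by fun_prop), Measure.volume_eq_prod, lintegral_prod _ (by fun_prop)]
  refine lintegral_congr fun b0 => ?_
  rw [Measure.volume_eq_prod, lintegral_prod _ (by fun_prop),
    ← lintegral_const_mul _ (by fun_prop)]
  refine lintegral_congr fun b1 => ?_
  have : ∀ b2, gs_rho (b0, b1, b2) * F (b0, b1) = gs_e b0 * (gs_e b1 * F (b0, b1)) * gs_e b2 := by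
    intro b2; rw [gs_rho_eq]; ring
  simp_rw [this]
  rw [lintegral_const_mul _ gs_e_meas, gs_e_int, mul_one]

theorem gs_one : ∫⁻ a, gs_rho a = 1 := by
  have h1 := gs_lint2 (fun _ => 1) measurable_const
  have h2 := gs_lint (fun _ => 1) measurable_const
  simp only [mul_one, gs_e_int] at h1 h2
  rw [← h2, h1]

theorem gs_prob : IsProbabilityMeasure gauss := by
  constructor
  have h2 := gs_lint (fun _ => 1) measurable_const
  simp only [mul_one, gs_one, lintegral_const, one_mul] at h2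
  exact h2

theorem gs_haar : (volume : Measure A3).IsAddHaarMeasure := by
  have : (volume : Measure (ℂ × ℂ)).IsAddHaarMeasure := Measure.prod.instIsAddHaarMeasure _ _
  exact Measure.prod.instIsAddHaarMeasure _ _

theorem gs_nsq_eq_zero {a : A3} (h : nsq a = 0) : a = 0 := by
  unfold nsq at h
  have h1 : ‖a.1‖ ^ 2 = 0 := by nlinarith [sq_nonneg ‖a.1‖, sq_nonneg ‖a.2.1‖, sq_nonneg ‖a.2.2‖]
  have h2 : ‖a.2.1‖ ^ 2 = 0 := by nlinarith [sq_nonneg ‖a.1‖, sq_nonneg ‖a.2.1‖, sq_nonneg ‖a.2.2‖]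
  have h3 : ‖a.2.2‖ ^ 2 = 0 := by nlinarith [sq_nonneg ‖a.1‖, sq_nonneg ‖a.2.1‖, sq_nonneg ‖a.2.2‖]
  refine Prod.ext ?_ (Prod.ext ?_ ?_)
  · simpa using h1
  · simpa using h2
  · simpa using h3

theorem gs_nsq_nonneg (a : A3) : 0 ≤ nsq a := by unfold nsq; positivity

theorem gs_nsq_pos {a : A3} (h : a ≠ 0) : 0 < nsq a :=
  lt_of_le_of_ne (gs_nsq_nonneg a) fun h' => h (gs_nsq_eq_zero h'.symm)

theorem gs_inv (T : A3 →ₗ[ℝ] A3) (hT : ∀ a, nsq (T a) = nsq a) (F : A3 → ℝ≥0∞)
    (hF : Measurable F) : ∫⁻ a, F (T a) ∂gauss = ∫⁻ a, F a ∂gauss := by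
  have := gs_haar
  have hTm : Measurable T := T.continuous_of_finiteDimensional.measurable
  have hdet : LinearMap.det T ≠ 0 := by
    rw [Ne, LinearMap.det_eq_zero_iff_ker_ne_bot, not_not, LinearMap.ker_eq_bot']
    intro a ha
    apply gs_nsq_eq_zero
    rw [← hT, ha]; simp [nsq]
  have hmap := Measure.map_linearMap_addHaar_eq_smul_addHaar (volume : Measure A3) hdet
  have hρ : ∀ a, gs_rho (T a) = gs_rho a := fun a => by unfold gs_rho; rw [hT]
  have key : ∀ G : A3 → ℝ≥0∞, Measurable G → ∫⁻ a, gs_rho a * G (T a) =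
      ENNReal.ofReal |(LinearMap.det T)⁻¹| * ∫⁻ a, gs_rho a * G a := by
    intro G hG
    rw [← smul_eq_mul, ← lintegral_smul_measure, ← hmap, lintegral_map (by fun_prop) hTm]
    simp_rw [hρ]
  have h1 := key (fun _ => 1) measurable_const
  simp only [mul_one, gs_one] at h1
  rw [gs_lint (fun a => F (T a)) (hF.comp hTm), gs_lint _ hF, key F hF, ← h1, one_mul]

theorem gs_nsq_c (a : A3) :
    (nsq a : ℂ) = a.1 * conj a.1 + a.2.1 * conj a.2.1 + a.2.2 * conj a.2.2 := by
  simp only [nsq, Complex.mul_conj, Complex.normSq_eq_norm_sq]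
  push_cast; ring

/-- The linear map with three given rows. -/
def gs_T (z w n : A3) : A3 →ₗ[ℝ] A3 where
  toFun a := (dot a z, dot a w, dot a n)
  map_add' a b := by
    refine Prod.ext ?_ (Prod.ext ?_ ?_) <;> simp [dot] <;> ring
  map_smul' c a := by
    refine Prod.ext ?_ (Prod.ext ?_ ?_) <;> simp [dot] <;> ring

/-- Conjugate of the cross product. -/
def gs_n (z w : A3) : A3 :=
  (conj (z.2.1 * w.2.2 - z.2.2 * w.2.1), conj (z.2.2 * w.1 - z.1 * w.2.2),
    conj (z.1 * w.2.1 - z.2.1 * w.1))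

theorem gs_T_nsq (z w : A3) (hz : nsq z = 1) (hw : nsq w = 1) (h : herm w z = 0) (a : A3) :
    nsq (gs_T z w (gs_n z w) a) = nsq a := by
  have hz' := gs_nsq_c z
  have hw' := gs_nsq_c w
  rw [hz] at hz'
  rw [hw] at hw'
  have h' := congrArg conj h
  unfold herm at h h'
  simp only [map_add, map_mul, Complex.conj_conj, map_zero] at h'
  apply Complex.ofReal_injective
  rw [gs_nsq_c, gs_nsq_c]
  simp only [gs_T, gs_n, dot, LinearMap.coe_mk, AddHom.coe_mk, map_add, map_mul, map_sub,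
    Complex.conj_conj]
  push_cast at hz' hw'
  set A := a.1 * conj a.1 + a.2.1 * conj a.2.1 + a.2.2 * conj a.2.2
  set p := a.1 * z.1 + a.2.1 * z.2.1 + a.2.2 * z.2.2 with hp
  set q := a.1 * w.1 + a.2.1 * w.2.1 + a.2.2 * w.2.2 with hq
  set p' := conj a.1 * conj z.1 + conj a.2.1 * conj z.2.1 + conj a.2.2 * conj z.2.2 with hp'
  set q' := conj a.1 * conj w.1 + conj a.2.1 * conj w.2.1 + conj a.2.2 * conj w.2.2 with hq'
  have id : (a.1 * (conj z.2.1 * conj w.2.2 - conj z.2.2 * conj w.2.1) +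
        a.2.1 * (conj z.2.2 * conj w.1 - conj z.1 * conj w.2.2) +
        a.2.2 * (conj z.1 * conj w.2.1 - conj z.2.1 * conj w.1)) *
      (conj a.1 * (z.2.1 * w.2.2 - z.2.2 * w.2.1) + conj a.2.1 * (z.2.2 * w.1 - z.1 * w.2.2) +
        conj a.2.2 * (z.1 * w.2.1 - z.2.1 * w.1)) =
      A * ((z.1 * conj z.1 + z.2.1 * conj z.2.1 + z.2.2 * conj z.2.2) *
          (w.1 * conj w.1 + w.2.1 * conj w.2.1 + w.2.2 * conj w.2.2) -
        (w.1 * conj z.1 + w.2.1 * conj z.2.1 + w.2.2 * conj z.2.2) *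
          (conj w.1 * z.1 + conj w.2.1 * z.2.1 + conj w.2.2 * z.2.2)) -
      p * p' * (w.1 * conj w.1 + w.2.1 * conj w.2.1 + w.2.2 * conj w.2.2) -
      q * q' * (z.1 * conj z.1 + z.2.1 * conj z.2.1 + z.2.2 * conj z.2.2) +
      p * q' * (w.1 * conj z.1 + w.2.1 * conj z.2.1 + w.2.2 * conj z.2.2) +
      q * p' * (conj w.1 * z.1 + conj w.2.1 * z.2.1 + conj w.2.2 * z.2.2) := by
    simp only [A, hp, hq, hp', hq']; ring
  rw [← hz', ← hw', h, h'] at id
  linear_combination id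

theorem gs_nsq_smul (c : ℝ) (a : A3) : nsq (c • a) = c ^ 2 * nsq a := by
  simp only [nsq, Prod.smul_fst, Prod.smul_snd, norm_smul, mul_pow, Real.norm_eq_abs, sq_abs]
  ring

theorem gs_dot_smul (c : ℝ) (a v : A3) : dot a (c • v) = c * dot a v := by
  simp only [dot, Prod.smul_fst, Prod.smul_snd, Complex.real_smul]; ring

theorem gs_herm_smul (c d : ℝ) (v z : A3) : herm (c • v) (d • z) = c * d * herm v z := by
  simp only [herm, Prod.smul_fst, Prod.smul_snd, Complex.real_smul, map_mul, Complex.conj_ofReal]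
  ring

theorem gs_meas (z v : A3) : Measurable fun a => (dot a v / dot a z).re := by
  unfold dot; fun_prop

theorem gs_key (z u : A3) (hz : z ≠ 0) (h : herm u z = 0) (τ : ℝ) :
    ∫⁻ a, ENNReal.ofReal |τ + (dot a u / dot a z).re| ∂gauss ≤
      ENNReal.ofReal √(τ ^ 2 + nsq u / nsq z) := by
  have := gs_prob
  have hzp := gs_nsq_pos hz
  by_cases hu : u = 0
  · subst hu
    have : ∀ a, dot a 0 = 0 := fun a => by simp [dot]
    have h0 : nsq 0 = 0 := by simp [nsq]
    simp [this, h0, Real.sqrt_sq_eq_abs]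
  have hup := gs_nsq_pos hu
  have hs : 0 < √(nsq z) := Real.sqrt_pos.2 hzp
  have ht : 0 < √(nsq u) := Real.sqrt_pos.2 hup
  have hz1 : nsq ((√(nsq z))⁻¹ • z) = 1 := by
    rw [gs_nsq_smul, inv_pow, Real.sq_sqrt hzp.le, inv_mul_cancel₀ hzp.ne']
  have hu1 : nsq ((√(nsq u))⁻¹ • u) = 1 := by
    rw [gs_nsq_smul, inv_pow, Real.sq_sqrt hup.le, inv_mul_cancel₀ hup.ne']
  have hh : herm ((√(nsq u))⁻¹ • u) ((√(nsq z))⁻¹ • z) = 0 := by rw [gs_herm_smul, h, mul_zero]
  have h1 := gs_inv _ (gs_T_nsq _ _ hz1 hu1 hh)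
    (fun b => ENNReal.ofReal |τ + √(nsq u) / √(nsq z) * (b.1⁻¹ * b.2.1).re|) (by fun_prop)
  have h2 := gs_lint2
    (fun b => ENNReal.ofReal |τ + √(nsq u) / √(nsq z) * (b.1⁻¹ * b.2).re|) (by fun_prop)
  have h3 := gs_core τ (√(nsq u) / √(nsq z))
  rw [div_pow, Real.sq_sqrt hzp.le, Real.sq_sqrt hup.le] at h3
  refine le_trans (le_of_eq ?_) h3
  rw [← h2, ← h1]
  refine lintegral_congr fun a => ?_
  simp only [gs_T, LinearMap.coe_mk, AddHom.coe_mk, gs_dot_smul]
  congr 3
  rw [← Complex.re_ofReal_mul]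
  congr 1
  have hs' : ((√(nsq z) : ℝ) : ℂ) ≠ 0 := by exact_mod_cast hs.ne'
  have ht' : ((√(nsq u) : ℝ) : ℂ) ≠ 0 := by exact_mod_cast ht.ne'
  push_cast
  rw [mul_inv, inv_inv, div_eq_mul_inv (dot a u)]
  generalize (dot a z)⁻¹ = y
  field_simp

theorem gs_ae (z : A3) (hz : z ≠ 0) : ∀ᵐ a ∂gauss, dot a z ≠ 0 := by
  have := gs_haar
  have hac : gauss ≪ (volume : Measure A3) := withDensity_absolutelyContinuous _ _
  refine hac.ae_le ?_
  let L : A3 →ₗ[ℝ] ℂ := (LinearMap.fst ℝ ℂ (ℂ × ℂ)).comp (gs_T z z z)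
  have hL : LinearMap.ker L ≠ ⊤ := by
    intro hk
    have : L (conj z.1, conj z.2.1, conj z.2.2) = 0 := by
      rw [← LinearMap.mem_ker, hk]; trivial
    have h2 : (nsq z : ℂ) = 0 := by
      rw [gs_nsq_c, ← this]
      simp only [L, gs_T, dot, LinearMap.comp_apply, LinearMap.coe_mk, AddHom.coe_mk,
        LinearMap.fst_apply]
      ring
    exact (gs_nsq_pos hz).ne' (by exact_mod_cast h2)
  have := Measure.addHaar_submodule (volume : Measure A3) _ hL
  rw [mem_ae_iff]
  convert this using 2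
  ext a
  simp [L, gs_T]

theorem gs_lim (m l : ℝ) (h : ∀ τ : ℝ, m ≤ √(τ ^ 2 + l ^ 2) - τ) : m ≤ 0 := by
  by_contra hm
  push Not at hm
  have h1 := h (l ^ 2 / m + 1)
  have h2 : 0 ≤ l ^ 2 / m := by positivity
  have h3 : l ^ 2 / m * m = l ^ 2 := by field_simp
  have h4 : √((l ^ 2 / m + 1) ^ 2 + l ^ 2) < l ^ 2 / m + 1 + m := by
    rw [Real.sqrt_lt' (by positivity)]
    nlinarith [sq_nonneg l, sq_nonneg m]
  linarith

theorem gs_opt (m l μ : ℝ) (hl : 0 ≤ l) (h0 : 0 ≤ μ) (h1 : μ ≤ 1)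
    (h : ∀ τ : ℝ, m ≤ √(τ ^ 2 + l ^ 2) / 2 + τ * (1 - 2 * μ) / 2) :
    m ≤ √(μ * (1 - μ)) * l := by
  rcases h0.eq_or_lt with rfl | h0
  · have := gs_lim (2 * m) l fun τ => by
      have := h (-τ)
      rw [neg_sq] at this
      linarith
    simp only [zero_mul, Real.sqrt_zero]; linarith
  rcases h1.eq_or_lt with rfl | h1
  · have := gs_lim (2 * m) l fun τ => by
      have := h τ
      linarith
    simp only [sub_self, mul_zero, zero_mul, Real.sqrt_zero]; linarith
  have hp : 0 < μ * (1 - μ) := mul_pos h0 (by linarith)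
  set q := √(μ * (1 - μ)) with hq
  have hq0 : 0 < q := Real.sqrt_pos.2 hp
  have hq2 : q ^ 2 = μ * (1 - μ) := Real.sq_sqrt hp.le
  have h2 := h (-(l * (1 - 2 * μ) / (2 * q)))
  have h3 : (-(l * (1 - 2 * μ) / (2 * q))) ^ 2 + l ^ 2 = (l / (2 * q)) ^ 2 := by
    field_simp
    linear_combination (4 * l ^ 2) * hq2
  rw [h3, Real.sqrt_sq (by positivity)] at h2
  refine h2.trans (le_of_eq ?_)
  field_simp
  linear_combination (-4 * l) * hq2

theorem gs_cov {Ω : Type*} [MeasurableSpace Ω] (P : Measure Ω) [IsProbabilityMeasure P]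
    (Y : Ω → ℝ) (l : ℝ) (hl : 0 ≤ l) (hY : Integrable Y P) (hm : ∫ a, Y a ∂P = 0)
    (hab : ∀ τ : ℝ, ∫ a, |τ + Y a| ∂P ≤ √(τ ^ 2 + l ^ 2)) (U : Set Ω)
    (hU : NullMeasurableSet U P) (c : ℝ) :
    ∫ a, (U.indicator 1 a - P.real U) * (c + Y a) ∂P ≤ √(P.real U * (1 - P.real U)) * l := by
  have hI : Integrable (U.indicator (1 : Ω → ℝ)) P := (integrable_const (1 : ℝ)).indicator₀ hU
  have hI1 : Integrable (fun a => U.indicator (1 : Ω → ℝ) a - P.real U) P :=
    hI.sub (integrable_const _)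
  have hI0 : ∫ a, (U.indicator (1 : Ω → ℝ) a - P.real U) ∂P = 0 := by
    rw [integral_sub hI (integrable_const _), integral_indicator₀ hU]
    simp
  have hI2 : ∀ d : ℝ, Integrable (fun a => (U.indicator (1 : Ω → ℝ) a - P.real U) * (d + Y a)) P := by
    intro d
    have h1 : Integrable (fun a => d + Y a) P := (integrable_const d).add hY
    refine ((h1.indicator₀ hU).sub (h1.const_mul (P.real U))).congr
      (Eventually.of_forall fun a => ?_)
    by_cases ha : a ∈ U
    · simp [ha]; ring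
    · simp [ha]
  refine gs_opt _ l _ hl measureReal_nonneg measureReal_le_one fun τ => ?_
  have e1 : ∫ a, (U.indicator 1 a - P.real U) * (c + Y a) ∂P =
      ∫ a, (U.indicator 1 a - P.real U) * (τ + Y a) ∂P := by
    have : ∀ a, (U.indicator (1 : Ω → ℝ) a - P.real U) * (c + Y a) =
        (U.indicator 1 a - P.real U) * (τ + Y a) + (c - τ) * (U.indicator 1 a - P.real U) := by
      intro a; ring
    simp_rw [this]
    rw [integral_add (hI2 τ) (hI1.const_mul _), integral_const_mul, hI0, mul_zero, add_zero]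
  have h1 : Integrable (fun a => τ + Y a) P := (integrable_const τ).add hY
  have e2 : ∫ a, (τ + Y a) ∂P = τ := by
    rw [integral_add (integrable_const τ) hY, hm]; simp
  have e3 : ∫ a, (U.indicator 1 a - P.real U) * (τ + Y a) ∂P ≤
      ∫ a, (|τ + Y a| / 2 + (τ + Y a) * ((1 - 2 * P.real U) / 2)) ∂P := by
    refine integral_mono (hI2 τ) ((h1.abs.div_const 2).add (h1.mul_const _)) fun a => ?_
    have h2 := le_abs_self (τ + Y a)
    have h3 := neg_abs_le (τ + Y a)
    by_cases ha : a ∈ U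
    · simp only [indicator_of_mem ha, Pi.one_apply]; linarith
    · simp only [indicator_of_notMem ha]; linarith
  rw [integral_add (h1.abs.div_const 2) (h1.mul_const _), integral_div, integral_mul_const,
    e2] at e3
  have := hab τ
  rw [e1]; linarith

theorem gs_all (z v : A3) (hz : z ≠ 0) : ∃ Y : A3 → ℝ, Integrable Y gauss ∧
    ∫ a, Y a ∂gauss = 0 ∧ (∀ τ : ℝ, ∫ a, |τ + Y a| ∂gauss ≤ √(τ ^ 2 + spd z v ^ 2)) ∧
    ∀ᵐ a ∂gauss, (dot a v / dot a z).re = (herm v z).re / nsq z + Y a := by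
  have := gs_prob
  have hzp := gs_nsq_pos hz
  have hzc : (nsq z : ℂ) ≠ 0 := by exact_mod_cast hzp.ne'
  set α : ℂ := herm v z / nsq z with hα
  have hα' : α * nsq z = herm v z := div_mul_cancel₀ _ hzc
  set u : A3 := (v.1 - α * z.1, v.2.1 - α * z.2.1, v.2.2 - α * z.2.2) with hu
  have hh : herm u z = 0 := by
    have := gs_nsq_c z
    simp only [hu, herm] at hα' ⊢
    linear_combination α * this - hα'
  have hn : nsq z * nsq v - ‖herm v z‖ ^ 2 = nsq z * nsq u := by
    apply Complex.ofReal_injective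
    have h1 : ((‖herm v z‖ ^ 2 : ℝ) : ℂ) = herm v z * conj (herm v z) := by
      rw [Complex.mul_conj, Complex.normSq_eq_norm_sq]
    have h2 := congrArg conj hα'
    rw [map_mul, Complex.conj_ofReal] at h2
    rw [Complex.ofReal_sub, h1, Complex.ofReal_mul, Complex.ofReal_mul, gs_nsq_c v, gs_nsq_c u,
      ← h2, ← hα']
    have h3 := gs_nsq_c z
    simp only [herm, map_add, map_mul, Complex.conj_conj] at hα' h2
    simp only [hu, map_sub, map_mul]
    linear_combination (nsq z : ℂ) * (α * conj α * h3 - α * h2 - conj α * hα')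
  have hs : spd z v ^ 2 = nsq u / nsq z := by
    unfold spd
    rw [hn, div_pow, Real.sq_sqrt (mul_nonneg hzp.le (gs_nsq_nonneg u))]
    field_simp
  have hk := gs_key z u hz hh
  have hm := gs_meas z u
  have hint : Integrable (fun a => (dot a u / dot a z).re) gauss := by
    refine ⟨hm.aestronglyMeasurable, ?_⟩
    have := hk 0
    simp only [zero_add] at this
    rw [hasFiniteIntegral_iff_norm]
    exact this.trans_lt ENNReal.ofReal_lt_top
  have hab : ∀ τ : ℝ, ∫ a, |τ + (dot a u / dot a z).re| ∂gauss ≤ √(τ ^ 2 + spd z v ^ 2) := by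
    intro τ
    have hi : Integrable (fun a => |τ + (dot a u / dot a z).re|) gauss :=
      ((integrable_const τ).add hint).abs
    rw [hs, ← ENNReal.ofReal_le_ofReal_iff (Real.sqrt_nonneg _),
      ofReal_integral_eq_lintegral_ofReal hi (Eventually.of_forall fun a => abs_nonneg _)]
    exact hk τ
  have hτ : ∀ τ : ℝ, |τ + ∫ a, (dot a u / dot a z).re ∂gauss| ≤ √(τ ^ 2 + spd z v ^ 2) := by
    intro τ
    refine le_trans ?_ (hab τ)
    refine le_trans (le_of_eq ?_) abs_integral_le_integral_abs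
    rw [integral_add (integrable_const τ) hint]; simp
  refine ⟨_, hint, le_antisymm ?_ ?_, hab, ?_⟩
  · refine gs_lim _ (spd z v) fun τ => ?_
    have := (abs_le.1 (hτ τ)).2
    linarith
  · rw [← neg_nonpos]
    refine gs_lim _ (spd z v) fun τ => ?_
    have := (abs_le.1 (hτ (-τ))).1
    rw [neg_sq] at this
    linarith
  · filter_upwards [gs_ae z hz] with a ha
    rw [← Complex.div_ofReal_re, ← Complex.add_re, ← hα]
    congr 1
    field_simp
    simp only [hu, dot]; ring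

theorem gs_spd_nonneg (z v : A3) : 0 ≤ spd z v :=
  div_nonneg (Real.sqrt_nonneg _) (gs_nsq_nonneg z)

theorem gaussFacts : GaussFacts where
  prob := gs_prob
  integrable z v hz := by
    have := gs_prob
    obtain ⟨Y, h1, -, -, h4⟩ := gs_all z v hz
    exact ((integrable_const _).add h1).congr (h4.mono fun a ha => ha.symm)
  mean z v hz := by
    have := gs_prob
    obtain ⟨Y, h1, h2, -, h4⟩ := gs_all z v hz
    rw [integral_congr_ae h4, integral_add (integrable_const _) h1, h2]; simp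
  abs_le z v hz := by
    obtain ⟨Y, -, -, h3, h4⟩ := gs_all z v hz
    refine le_trans (le_of_eq ?_) (h3 _)
    exact integral_congr_ae (h4.mono fun a ha => by simp only [ha])
  cov z v hz U hU := by
    have := gs_prob
    obtain ⟨Y, h1, h2, h3, h4⟩ := gs_all z v hz
    have e : ∫ a, (U.indicator 1 a - gauss.real U) * (dot a v / dot a z).re ∂gauss =
        ∫ a, (U.indicator 1 a - gauss.real U) * ((herm v z).re / nsq z + Y a) ∂gauss :=
      integral_congr_ae (h4.mono fun a ha => by simp only [ha])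
    rw [e, abs_le]
    refine ⟨?_, gs_cov gauss Y _ (gs_spd_nonneg z v) h1 h2 h3 U hU _⟩
    have := gs_cov gauss (fun a => -Y a) _ (gs_spd_nonneg z v) h1.neg
      (by rw [integral_neg, h2, neg_zero]) (fun τ => by
        have := h3 (-τ)
        rw [neg_sq] at this
        refine le_trans (le_of_eq ?_) this
        refine integral_congr_ae (Eventually.of_forall fun a => ?_)
        simp only []
        rw [← abs_neg]; congr 1; ring) U hU (-((herm v z).re / nsq z))
    rw [neg_le, ← integral_neg]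
    refine le_trans (le_of_eq ?_) this
    refine integral_congr_ae (Eventually.of_forall fun a => ?_)
    simp only []
    ring

end Pool.Agent.P.MP_a3b544_ag.F2
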