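import Pool.Agent.P.MP_a3b544_ag.F2.Ifc

/-! The real-variable comparison. -/

namespace Pool.Agent.P.MP_a3b544_ag.F2

open scoped ENNReal NNReal Topology ComplexConjugate
open Set MeasureTheory Filter Real

theorem ode_sq {a b μ h : ℝ} (ha : 0 < a) (hab : a ≤ b) (hb : b < 1) (h0 : 0 ≤ μ) (h1 : μ ≤ 1)
    (hh : 0 < h) (H : max μ a - μ * b ≤ √(μ * (1 - μ)) * (b - a) / (2 * h)) :
    (2 * h) ^ 2 * (a * (1 - b) ^ 2) ≤ (1 - a) * (b - a) ^ 2 := by
  set X := max μ a - μ * b with hX
  have hm : 0 ≤ μ * (1 - μ) := mul_nonneg h0 (by linarith)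
  have hX0 : 0 < X := by
    have := le_max_left μ a
    have := lt_max_of_lt_right (a := 0) (b := μ) ha
    nlinarith
  have h2 : μ * (1 - μ) * (a * (1 - b) ^ 2) ≤ (1 - a) * X ^ 2 := by
    rcases le_total a μ with k | k
    · rw [hX, max_eq_left k]
      nlinarith [mul_nonneg (mul_nonneg h0 (sub_nonneg.2 k)) (sq_nonneg (1 - b))]
    · rw [hX, max_eq_right k]
      have e1 : μ * (1 - μ) * (a * (1 - b) ^ 2) ≤ a * (1 - μ) * (a * (1 - b) ^ 2) := by
        gcongr
      have e2 : 0 ≤ a * (1 - b) * (a - μ) * (2 * b * (1 - a) - a * (1 - b)) :=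
        mul_nonneg (mul_nonneg (mul_nonneg ha.le (by linarith)) (by linarith)) (by nlinarith)
      nlinarith [mul_nonneg (sub_nonneg.2 (hab.trans hb.le)) (sq_nonneg (b * (a - μ)))]
  rw [le_div_iff₀ (by positivity)] at H
  have h3 : (X * (2 * h)) ^ 2 ≤ μ * (1 - μ) * (b - a) ^ 2 := by
    rw [← sq_sqrt hm, ← mul_pow]
    gcongr
  have h4 : 0 < μ * (1 - μ) := by
    refine hm.lt_of_ne fun e => ?_
    rw [← e, zero_mul] at h3
    exact h3.not_gt (by positivity)
  refine le_of_mul_le_mul_left ?_ h4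
  have h5 := mul_le_mul_of_nonneg_left h3 (sub_nonneg.2 (hab.trans hb.le))
  nlinarith [mul_le_mul_of_nonneg_left h2 (sq_nonneg (2 * h))]

theorem ode_ang {α β c h : ℝ} (h0 : 0 ≤ α) (hab : α ≤ β) (hb : β ≤ π / 2) (hc : 0 < c)
    (c1 : c ≤ sin α) (c2 : c ≤ cos β) (hh : 0 < h)
    (H : (2 * h * (sin α * cos β ^ 2)) ^ 2 ≤ (cos α * (sin β ^ 2 - sin α ^ 2)) ^ 2) :
    h ≤ (β - α) * (1 + h / c) ^ 3 := by
  obtain ⟨η, rfl⟩ : ∃ η, β = α + η := ⟨β - α, by ring⟩
  rw [add_sub_cancel_left]
  have hη : 0 ≤ η := by linarith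
  have hq : 0 ≤ h / c := by positivity
  rcases le_total h η with k | k
  · exact k.trans (le_mul_of_one_le_right hη (one_le_pow₀ (by linarith)))
  have y0 : 0 ≤ cos α := cos_nonneg_of_neg_pi_div_two_le_of_le (by linarith) (by linarith)
  have x0 : 0 < sin α := hc.trans_le c1
  have y1 : 0 < cos (α + η) := hc.trans_le c2
  have s1 : sin α ≤ sin (α + η) := sin_le_sin_of_le_of_le_pi_div_two (by linarith) hb hab
  have s2 : sin (α + η) ≤ sin α + cos α * η := by
    rw [sin_add]
    exact add_le_add (mul_le_of_le_one_right x0.le (cos_le_one η))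
      (mul_le_mul_of_nonneg_left (sin_le hη) y0)
  have q1 : η ≤ sin α * (h / c) := k.trans (by
    rw [mul_div_assoc', le_div_iff₀ hc]; nlinarith)
  have q2 : cos α ≤ cos (α + η) * (1 + h / c) := by
    have := (abs_le.1 (abs_cos_sub_cos_le α (α + η))).2
    rw [show α - (α + η) = -η by ring, abs_neg, abs_of_nonneg hη] at this
    have : η ≤ cos (α + η) * (h / c) := k.trans (by
      rw [mul_div_assoc', le_div_iff₀ hc]; nlinarith)
    linarith
  have s3 : sin (α + η) ^ 2 - sin α ^ 2 ≤ cos α * η * (2 * (sin α * (1 + h / c))) := by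
    rw [sq_sub_sq, mul_comm]
    have : cos α * η ≤ η := mul_le_of_le_one_left hη (cos_le_one α)
    exact mul_le_mul (by linarith) (by linarith) (by linarith) (by positivity)
  have H1 := (abs_le_of_sq_le_sq' H (mul_nonneg y0 (by nlinarith))).2
  have H2 : cos α * (sin (α + η) ^ 2 - sin α ^ 2) ≤
      (cos (α + η) * (1 + h / c)) ^ 2 * (η * (2 * (sin α * (1 + h / c)))) :=
    (mul_le_mul_of_nonneg_left s3 y0).trans (by
      rw [mul_assoc (cos α), ← mul_assoc, ← sq]
      gcongr)
  refine le_of_mul_le_mul_left ?_ (show 0 < 2 * (sin α * cos (α + η) ^ 2) by positivity)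
  linarith

theorem ode_cmp {m : ℝ → ℝ} (hm : Monotone m) {k s t : ℝ} (hs : k < m s) (ht : m t < k + 1)
    (H : ∀ s t : ℝ, s < t → k < m s → m s < k + 1 → ∃ μ : ℝ, 0 ≤ μ ∧ μ ≤ 1 ∧
      ∀ h : ℝ, 0 < h → h < t - s →
        max μ (m s - k) - μ * (m t - k) ≤ √(μ * (1 - μ)) * (m t - m s) / (2 * h)) :
    t - s ≤ π / 2 := by
  by_contra hst
  have hst : 0 < t - s := lt_trans (by positivity) (not_le.1 hst)
  let θ : ℝ → ℝ := fun r => arcsin √(m r - k)
  have hθ : Monotone θ := fun r r' h => arcsin_le_arcsin (sqrt_le_sqrt (by linarith [hm h]))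
  have θ0 : ∀ r, 0 ≤ θ r := fun r => arcsin_nonneg.2 (sqrt_nonneg _)
  have θ1 : ∀ r, θ r ≤ π / 2 := fun r => arcsin_le_pi_div_two _
  have hsin : ∀ r, s ≤ r → r ≤ t → sin (θ r) ^ 2 = m r - k := fun r a b => by
    rw [sin_arcsin (by linarith [sqrt_nonneg (m r - k)]) (sqrt_le_one.2 (by linarith [hm b])),
      sq_sqrt (by linarith [hm a])]
  let c := min (sin (θ s)) (cos (θ t))
  have hc : 0 < c := lt_min
    ((sin_nonneg_of_nonneg_of_le_pi (θ0 s) (by linarith [θ1 s, pi_pos])).lt_of_ne fun e => by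
      have := hsin s le_rfl (by linarith)
      rw [← e] at this
      linarith)
    ((cos_arcsin_nonneg _).lt_of_ne fun e => by
      have := hsin t (by linarith) le_rfl
      rw [sin_sq, show cos (θ t) = 0 from e.symm] at this
      linarith)
  have step : ∀ r h, s ≤ r → 0 < h → r + h ≤ t → h ≤ (θ (r + h) - θ r) * (1 + h / c) ^ 3 := by
    intro r h a b d
    have a1 : m s ≤ m r := hm a
    have a2 : m r ≤ m (r + h) := hm (by linarith)
    have a3 : m (r + h) ≤ m t := hm d
    have a4 : θ r ≤ θ (r + h) := hθ (by linarith)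
    obtain ⟨μ, b0, b1, b2⟩ := H r (r + h) (by linarith) (by linarith) (by linarith)
    refine le_of_forall_lt_imp_le_of_dense fun g hg => ?_
    rcases le_or_gt g 0 with e | e
    · exact e.trans (mul_nonneg (by linarith) (by positivity))
    refine (ode_ang (θ0 r) a4 (θ1 _) hc ((min_le_left _ _).trans
      (sin_le_sin_of_le_of_le_pi_div_two (by linarith [θ0 s, pi_pos]) (θ1 _) (hθ a)))
      ((min_le_right _ _).trans (cos_le_cos_of_nonneg_of_le_pi (θ0 _)
        (by linarith [θ1 t, pi_pos]) (hθ d))) e ?_).trans (by gcongr)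
    have := ode_sq (a := m r - k) (b := m (r + h) - k) (by linarith) (by linarith) (by linarith)
      b0 b1 e (by simpa using b2 g e (by linarith))
    simp only [mul_pow, cos_sq', hsin r a (by linarith), hsin (r + h) (by linarith) d] at this ⊢
    exact this
  have tel : ∀ h, 0 < h → ∀ n : ℕ, s + n * h ≤ t →
      n * h ≤ (θ (s + n * h) - θ s) * (1 + h / c) ^ 3 := fun h b n => by
    induction n with
    | zero => simp
    | succ n ih =>
      push_cast
      rw [add_one_mul, ← add_assoc]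
      intro d
      have := step (s + n * h) h (le_add_of_nonneg_right (by positivity)) b d
      have := ih (by linarith)
      linarith
  have lim : Tendsto (fun n : ℕ => π / 2 * (1 + (t - s) / n / c) ^ 3) atTop
      (𝓝 (π / 2 * (1 + 0 / c) ^ 3)) :=
    ((((tendsto_const_div_atTop_nhds_zero_nat _).div_const c).const_add 1).pow 3).const_mul _
  refine ‹¬ _› ((ge_of_tendsto lim ((eventually_gt_atTop 0).mono fun n hn => ?_)).trans_eq
    (by simp))
  have e : n * ((t - s) / n) = t - s := mul_div_cancel₀ _ (by positivity)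
  have := tel ((t - s) / n) (by positivity) n (by linarith)
  rw [e] at this
  exact this.trans (by gcongr; linarith [θ0 s, θ1 (s + (t - s))])

theorem odeBound : OdeBound := by
  intro m L d hm h0 hd hlt H
  have key : ∀ k : ℕ, ∀ t, π / 2 * k < t → t ≤ L → k < m t := fun k => by
    induction k with
    | zero => exact fun t a b => by simpa using h0.trans_lt (hlt 0 t le_rfl (by simpa using a) b)
    | succ k ih =>
      intro t a b
      push_cast at a ⊢
      have p : 0 ≤ π / 2 * k := by positivity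
      have := pi_pos
      refine lt_of_le_of_lt (not_lt.1 fun e => ?_)
        (hlt (t - (t - π / 2 * (k + 1)) / 3) t (by linarith) (by linarith) b)
      have := ode_cmp hm (ih (π / 2 * k + (t - π / 2 * (k + 1)) / 3) (by linarith) (by linarith))
        e (H k)
      linarith
  exact not_lt.1 fun e => (hd L).not_gt (key d L e le_rfl)

end Pool.Agent.P.MP_a3b544_ag.F2
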