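import Pool.Agent.P.MP_a3b544_ag.F2.Est
import Pool.Agent.P.MP_a3b544_ag.F2.Gauss
import Pool.Agent.P.MP_a3b544_ag.F2.Ode

/-! The abstract bound. -/

namespace Pool.Agent.P.MP_a3b544_ag.F2

theorem abstractBound : AbstractBound := abstractBound_of gaussFacts odeBound

end Pool.Agent.P.MP_a3b544_ag.F2
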