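import Pool.Agent.P.MP_a3b544_ag.F2.Ifc
import Pool.Agent.P.MP_a3b544_ag.Upper

/-! The abstract bound applied to plane sections of a smooth surface. -/

namespace Pool.Agent.P.MP_a3b544_ag.F2

open scoped ENNReal NNReal Topology ComplexConjugate ContDiff
open Set MeasureTheory Filter

variable {F : MvPolynomial (Fin 4) ℂ} {d : ℕ} {e₀ e₁ e₂ : E4}

lemma app_inner (h : Frame e₀ e₁ e₂) (x y c s : ℂ) :
    inner ℂ (e₀ + x • e₁ + y • e₂) (c • e₁ + (c * s) • e₂) = c * (conj x + s * conj y) := by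
  have i21 : inner ℂ e₂ e₁ = 0 := inner_eq_zero_symm.1 h.i12
  simp only [inner_add_left, inner_add_right, inner_smul_left, inner_smul_right, h.i01, h.i02,
    h.i12, i21, inner_self_eq_norm_sq_to_K, h.n1, h.n2]
  simp
  ring

lemma app_nsq (h : Frame e₀ e₁ e₂) (x y : ℂ) :
    ‖e₀ + x • e₁ + y • e₂‖ ^ 2 = 1 + ‖x‖ ^ 2 + ‖y‖ ^ 2 := by
  have := h.norm_sq 1 x y
  rwa [one_smul, norm_one, one_pow] at this

lemma app_ne (h : Frame e₀ e₁ e₂) (x y : ℂ) : e₀ + x • e₁ + y • e₂ ≠ 0 := by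
  intro h0
  have := app_nsq h x y
  rw [h0, norm_zero] at this
  nlinarith [sq_nonneg ‖x‖, sq_nonneg ‖y‖]

lemma app_lam (x y s : ℂ) : lam x y s =
    √((1 + ‖x‖ ^ 2 + ‖y‖ ^ 2) * (1 + ‖s‖ ^ 2) - ‖conj x + s * conj y‖ ^ 2) /
      (1 + ‖x‖ ^ 2 + ‖y‖ ^ 2) := by
  simp [lam, spd, nsq, herm]

lemma app_speed (h : Frame e₀ e₁ e₂) (x y c s : ℂ) :
    fsSpeed (e₀ + x • e₁ + y • e₂) (c • e₁ + (c * s) • e₂) = ‖c‖ * lam x y s := by
  have h2 : ‖c • e₁ + (c * s) • e₂‖ ^ 2 = ‖c‖ ^ 2 * (1 + ‖s‖ ^ 2) := by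
    have := h.norm_sq 0 c (c * s)
    rw [zero_smul, zero_add, norm_zero, norm_mul] at this
    rw [this]; ring
  rw [fsSpeed_def, app_inner h, app_nsq h, h2, app_lam, norm_mul]
  have : (1 + ‖x‖ ^ 2 + ‖y‖ ^ 2) * (‖c‖ ^ 2 * (1 + ‖s‖ ^ 2)) -
      (‖c‖ * ‖conj x + s * conj y‖) ^ 2 = ‖c‖ ^ 2 *
      ((1 + ‖x‖ ^ 2 + ‖y‖ ^ 2) * (1 + ‖s‖ ^ 2) - ‖conj x + s * conj y‖ ^ 2) := by ring
  rw [this, Real.sqrt_mul (sq_nonneg _), Real.sqrt_sq (norm_nonneg _)]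
  ring

lemma app_cont : Continuous fun u : ℂ × ℂ × ℂ => lam u.1 u.2.1 u.2.2 := by
  simp only [app_lam]
  refine Continuous.div (by fun_prop) (by fun_prop) fun u => by positivity

lemma app_seg (h : Frame e₀ e₁ e₂) {g : ℂ → ℂ} {B : Set ℂ} (hB : Convex ℝ B) {K : ℝ}
    (hg : ∀ x ∈ B, AnalyticAt ℂ g x ∧ (x, g x) ∈ sect F e₀ e₁ e₂ ∧ lam x (g x) (deriv g x) ≤ K)
    {x y : ℂ} (hx : x ∈ B) (hy : y ∈ B) :
    intrinsicDist F (e₀ + x • e₁ + g x • e₂) (e₀ + y • e₁ + g y • e₂) ≤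
      ENNReal.ofReal (‖y - x‖ * K) := by
  let l : ℝ → ℂ := fun τ => x + (τ : ℂ) * (y - x)
  have hl : ∀ τ ∈ Icc (0 : ℝ) 1, l τ ∈ B := fun τ hτ => by
    have := hB.add_smul_sub_mem hx hy hτ
    simpa [l] using this
  have hlc : ContDiff ℝ ∞ l :=
    contDiff_const.add (Complex.ofRealCLM.contDiff.mul contDiff_const)
  have hld : ∀ τ, HasDerivAt l (y - x) τ := fun τ => by
    have := ((Complex.ofRealCLM.hasDerivAt (x := τ)).mul_const (y - x)).const_add x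
    simpa [l] using this
  have k := dist_le_lintegral (F := F) (γ := fun τ => e₀ + l τ • e₁ + g (l τ) • e₂)
    (a := 0) (b := 1)
    (by
      rw [uIcc_of_le zero_le_one]
      have h2 : ContDiffOn ℝ ∞ (fun τ => g (l τ)) (Icc 0 1) := fun τ hτ => by
        have h1 : ContDiffAt ℝ ∞ g (l τ) :=
          ((hg _ (hl τ hτ)).1.contDiffAt (n := ∞)).restrict_scalars ℝ
        exact (h1.comp τ hlc.contDiffAt).contDiffWithinAt
      exact (contDiffOn_const.add (hlc.contDiffOn.smul contDiffOn_const)).add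
        (h2.smul contDiffOn_const))
    (by rw [uIcc_of_le zero_le_one]; exact fun τ hτ => ⟨app_ne h _ _, (hg _ (hl τ hτ)).2.1⟩)
  have l0 : l 0 = x := by simp [l]
  have l1 : l 1 = y := by simp [l]
  simp only [l0, l1] at k
  refine k.trans ?_
  rw [uIcc_of_le zero_le_one]
  calc _ ≤ ∫⁻ _ in Icc (0 : ℝ) 1, ENNReal.ofReal (‖y - x‖ * K) := by
        refine setLIntegral_mono' measurableSet_Icc fun τ hτ => ?_
        have dg : HasDerivAt (fun τ => g (l τ)) ((y - x) * deriv g (l τ)) τ := by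
          have := (hg _ (hl τ hτ)).1.differentiableAt.hasDerivAt.scomp τ (hld τ)
          simpa [Function.comp_def] using this
        have dγ : HasDerivAt (fun τ => e₀ + l τ • e₁ + g (l τ) • e₂)
            ((y - x) • e₁ + ((y - x) * deriv g (l τ)) • e₂) τ :=
          (((hld τ).smul_const e₁).const_add e₀).add (dg.smul_const e₂)
        rw [dγ.deriv, app_speed h]
        exact ENNReal.ofReal_le_ofReal
          (mul_le_mul_of_nonneg_left (hg _ (hl τ hτ)).2.2 (norm_nonneg _))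
    _ = _ := by simp

lemma app_near (hF : F.IsHomogeneous d) (h₂ : ev F e₂ ≠ 0) {w : ℂ × ℂ} {T : ℂ}
    (hw : ev F (pt e₀ e₁ e₂ w T) = 0) {ε : ℝ} (hε : 0 < ε) :
    ∀ᶠ w' in 𝓝 w, ∃ T', ‖T - T'‖ < ε ∧ ev F (pt e₀ e₁ e₂ w' T') = 0 := by
  have h1 : ContinuousAt (fun x : ℂ × ℂ => ‖ev F (pt e₀ e₁ e₂ x T)‖) w :=
    ((continuous_ev F).comp (by unfold pt; fun_prop)).norm.continuousAt
  have h2 : ‖ev F (pt e₀ e₁ e₂ w T)‖ < ‖ev F e₂‖ * ε ^ d := by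
    rw [hw, norm_zero]
    exact mul_pos (norm_pos_iff.2 h₂) (pow_pos hε d)
  filter_upwards [h1.eventually (gt_mem_nhds h2)] with x hx
  obtain ⟨ρ, hρ⟩ := exists_roots hF (x.1 • e₀ + x.2 • e₁) h₂
  have : ∃ i, ‖T - ρ i‖ < ε := by
    by_contra hcon
    push Not at hcon
    rw [pt, hρ, norm_mul, norm_prod] at hx
    have h3 : ε ^ d ≤ ∏ i, ‖T - ρ i‖ := by
      calc ε ^ d = ∏ _i : Fin d, ε := by simp
        _ ≤ _ := Finset.prod_le_prod (fun _ _ => hε.le) fun i _ => hcon i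
    exact absurd hx (not_lt.2 (by gcongr))
  obtain ⟨i, hi⟩ := this
  refine ⟨ρ i, hi, ?_⟩
  rw [pt, hρ, Finset.prod_eq_zero (Finset.mem_univ i) (sub_self _), mul_zero]

lemma app_generic (hF : IsSmoothSurface d F) (h₂ : ev F e₂ ≠ 0) (p : E4) {Z : Set ℂ}
    (hZ : Z.Finite) {w : ℂ × ℂ} {T : ℂ} (hw : pt e₀ e₁ e₂ w T ∈ cone F) {a b : ℝ≥0∞}
    (ha : a < intrinsicDist F p (pt e₀ e₁ e₂ w T)) (hb : intrinsicDist F p (pt e₀ e₁ e₂ w T) < b) :
    ∃ u ∈ sect F e₀ e₁ e₂, u.1 ∉ Z ∧ a < intrinsicDist F p (e₀ + u.1 • e₁ + u.2 • e₂) ∧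
      intrinsicDist F p (e₀ + u.1 • e₁ + u.2 • e₂) < b := by
  have hc : Continuous fun u : (ℂ × ℂ) × ℂ => pt e₀ e₁ e₂ u.1 u.2 := by unfold pt; fun_prop
  have h1 : ∀ᶠ z in 𝓝 (pt e₀ e₁ e₂ w T), z ∈ cone F → intrinsicDist F p z ∈ Ioo a b :=
    eventually_nhdsWithin_iff.1 ((continuousOn_dist hF p _ hw).eventually (Ioo_mem_nhds ha hb))
  have h2 : ∀ᶠ z in 𝓝 (pt e₀ e₁ e₂ w T), z ≠ 0 := eventually_ne_nhds hw.1
  have h3 := (hc.tendsto (w, T)).eventually (h1.and h2)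
  obtain ⟨U, hU, V, hV, hUV⟩ := mem_nhds_prod_iff.1 h3
  obtain ⟨ε, hε, hεV⟩ := Metric.mem_nhds_iff.1 hV
  have h4 := (app_near (e₀ := e₀) (e₁ := e₁) hF.1 h₂ hw.2 hε).and hU
  obtain ⟨U₁, hU₁, U₂, hU₂, hU'⟩ := mem_nhds_prod_iff.1 (show _ ∈ 𝓝 (w.1, w.2) from h4)
  obtain ⟨c, hc1, hc0⟩ := (infinite_of_mem_nhds _ hU₁).exists_notMem_finite (finite_singleton 0)
  obtain ⟨x, hx2, hxZ⟩ := (infinite_of_mem_nhds _ hU₂).exists_notMem_finite
    (hZ.image fun z => c * z)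
  have hc0' : c ≠ 0 := hc0
  obtain ⟨⟨T', hT', h0⟩, hxU⟩ := hU' (mk_mem_prod hc1 hx2)
  have h5 := hUV (mk_mem_prod hxU (hεV (show T' ∈ Metric.ball T ε by
    rwa [Metric.mem_ball, dist_comm, dist_eq_norm])))
  have h6 := h5.1 ⟨h5.2, h0⟩
  have hu : e₀ + (c⁻¹ * x) • e₁ + (c⁻¹ * T') • e₂ = c⁻¹ • pt e₀ e₁ e₂ (c, x) T' := by
    rw [pt, smul_add, smul_add, smul_smul, smul_smul, smul_smul, inv_mul_cancel₀ hc0', one_smul]
  refine ⟨(c⁻¹ * x, c⁻¹ * T'), ?_, fun hz => hxZ ⟨_, hz, ?_⟩, ?_⟩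
  · change ev F _ = 0
    rw [hu, ev_smul hF.1, h0, mul_zero]
  · simp [hc0']
  · rw [hu, dist_smul_right (inv_ne_zero hc0')]
    exact h6

theorem app_dist (H : AbstractBound) (hd : 1 ≤ d) (hF : IsSmoothSurface d F) {p q : E4}
    (hp : p ∈ cone F) (hq : q ∈ cone F) :
    intrinsicDist F p q ≤ ENNReal.ofReal (Real.pi / 2 * d) := by
  classical
  obtain ⟨e₀, e₁, e₂, fr, h₀, h₁, h₂, ⟨a₁, x₁, t₁, hp'⟩, ⟨a₂, x₂, t₂, hq'⟩⟩ :=
    exists_frame hd hF p q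
  obtain ⟨Z, n⟩ := exists_nice hd hF.1 e₀ h₁ h₂
  have hfin : ∀ z ∈ cone F, intrinsicDist F p z ≠ ⊤ := fun z hz =>
    ne_top_of_le_ne_top ENNReal.ofReal_ne_top (dist_upper hd hF hp hz)
  have hcone : ∀ u ∈ sect F e₀ e₁ e₂, e₀ + u.1 • e₁ + u.2 • e₂ ∈ cone F := fun u hu =>
    ⟨app_ne fr _ _, hu⟩
  rw [← ENNReal.ofReal_toReal (hfin q hq)]
  refine ENNReal.ofReal_le_ofReal (H (sect F e₀ e₁ e₂) (insert 0 Z) d
    (fun u => (intrinsicDist F p (e₀ + u.1 • e₁ + u.2 • e₂)).toReal) _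
    ⟨n.finZ.insert 0, n.closed, n.bdd, n.fib, n.opn,
      fun u hu hZ => n.chart u hu fun h => hZ (Or.inr h)⟩ (insert_nonempty _ _)
    (fun x => ?_) (fun α β => ?_) (fun g x₀ hg hC K hK => ?_) (fun s t hs hst ht => ?_))
  · obtain ⟨ρ, hρ⟩ := sect_fiber hF.1 e₀ e₁ h₂ x
    refine ⟨Finset.univ.image ρ, Finset.card_image_le.trans (by simp), fun v hv => ?_⟩
    obtain ⟨i, rfl⟩ := hρ v hv
    exact Finset.mem_image_of_mem _ (Finset.mem_univ i)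
  · obtain ⟨Q, hQ, -, hQ'⟩ := exists_linePoly hF.1 (e₀ + α • e₂) (e₁ + β • e₂)
    have hm : ∀ x, (x, α + β * x) ∈ sect F e₀ e₁ e₂ ↔ Q.eval x = 0 := fun x => by
      rw [hQ', show e₀ + α • e₂ + x • (e₁ + β • e₂) = e₀ + x • e₁ + (α + β * x) • e₂ by module]
      rfl
    by_cases hQ0 : Q = 0
    · exact Or.inl fun x => (hm x).2 (by simp [hQ0])
    · refine Or.inr ⟨Q.roots.toFinset, (Multiset.toFinset_card_le _).trans
        ((Polynomial.card_roots' Q).trans hQ), fun x hx => ?_⟩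
      rw [Multiset.mem_toFinset, Polynomial.mem_roots hQ0]
      exact (hm x).1 hx
  · have hl : ContinuousAt (fun x => lam x (g x) (deriv g x)) x₀ :=
      app_cont.continuousAt.comp (f := fun x => (x, g x, deriv g x))
        (continuousAt_id.prodMk (hg.continuousAt.prodMk hg.deriv.continuousAt))
    obtain ⟨ε, hε, hB⟩ := Metric.mem_nhds_iff.1
      (hg.eventually_analyticAt.and (hC.and (hl.eventually (gt_mem_nhds hK))))
    refine ⟨Metric.ball x₀ ε, Metric.ball_mem_nhds _ hε,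
      LipschitzOnWith.of_le_add_mul K fun x hx y hy => ?_⟩
    have k := app_seg (F := F) fr (convex_ball x₀ ε) (K := K)
      (fun x hx => ⟨(hB hx).1, (hB hx).2.1, (hB hx).2.2.le⟩) hy hx
    have k2 := (dist_triangle' p _ _).trans (add_le_add le_rfl k)
    have f1 := hfin _ (hcone _ (hB hy).2.1)
    have k3 := ENNReal.toReal_mono (ENNReal.add_ne_top.2 ⟨f1, ENNReal.ofReal_ne_top⟩) k2
    rw [ENNReal.toReal_add f1 ENNReal.ofReal_ne_top, ENNReal.toReal_ofReal (by positivity)] at k3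
    rw [dist_eq_norm, mul_comm]
    exact k3
  · obtain ⟨w, T, hw, hl⟩ := exists_level hd hF.1 (e₀ := e₀) (e₁ := e₁) h₂ (fun w T hw h0 => by
        have := fr.norm_sq w.1 w.2 T
        rw [show w.1 • e₀ + w.2 • e₁ + T • e₂ = 0 from h0, norm_zero] at this
        apply hw
        have a1 : ‖w.1‖ ^ 2 = 0 := by nlinarith [sq_nonneg ‖w.1‖, sq_nonneg ‖w.2‖, sq_nonneg ‖T‖]
        have a2 : ‖w.2‖ ^ 2 = 0 := by nlinarith [sq_nonneg ‖w.1‖, sq_nonneg ‖w.2‖, sq_nonneg ‖T‖]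
        exact Prod.ext (by simpa using a1) (by simpa using a2))
      (continuousOn_dist hF p) (fun c z hc => dist_smul_right hc)
      (s := ENNReal.ofReal ((s + t) / 2)) (w₁ := (a₁, x₁)) (T₁ := t₁) (w₂ := (a₂, x₂)) (T₂ := t₂)
      (by rw [show pt e₀ e₁ e₂ (a₁, x₁) t₁ = p from hp'.symm]; exact hp)
      (by rw [show pt e₀ e₁ e₂ (a₂, x₂) t₂ = q from hq'.symm]; exact hq)
      (by
        rw [show pt e₀ e₁ e₂ (a₁, x₁) t₁ = p from hp'.symm, dist_self' hp, ENNReal.ofReal_pos]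
        linarith)
      (by
        rw [show pt e₀ e₁ e₂ (a₂, x₂) t₂ = q from hq'.symm, ← ENNReal.ofReal_toReal (hfin q hq)]
        exact ENNReal.ofReal_le_ofReal (by linarith))
    obtain ⟨u, hu, huZ, k1, k2⟩ := app_generic hF h₂ p (n.finZ.insert 0) hw
      (a := ENNReal.ofReal s) (b := ENNReal.ofReal t)
      (by rw [hl, ENNReal.ofReal_lt_ofReal_iff (by linarith)]; linarith)
      (by rw [hl, ENNReal.ofReal_lt_ofReal_iff (by linarith)]; linarith)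
    have f1 := hfin _ (hcone u hu)
    exact ⟨u, hu, huZ, (ENNReal.ofReal_lt_iff_lt_toReal hs f1).1 k1,
      (ENNReal.lt_ofReal_iff_toReal_lt f1).1 k2⟩

theorem upper_sharp (H : AbstractBound) {d : ℕ} (hd : 1 ≤ d) :
    maxDiam d ≤ ENNReal.ofReal (Real.pi / 2 * d) :=
  iSup₂_le fun _ hF => iSup₂_le fun _ hp => iSup₂_le fun _ hq => app_dist H hd hF hp hq

end Pool.Agent.P.MP_a3b544_ag.F2
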