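import Mathlib

/-! Integration by parts and the Poincare-Lelong formula for Lipschitz test functions. -/

namespace Pool.Agent.P.MP_a3b544_ag.F2

open scoped ENNReal NNReal Topology ComplexConjugate
open Set MeasureTheory Filter Complex

/-- The gradient as a complex number. -/
noncomputable def gam (ψ : ℂ → ℝ) (x : ℂ) : ℂ :=
  (fderiv ℝ ψ x 1 : ℝ) + (fderiv ℝ ψ x I : ℝ) * I

lemma norm_gam_le (ψ : ℂ → ℝ) (x : ℂ) : ‖gam ψ x‖ ≤ ‖fderiv ℝ ψ x‖ := by
  set L := fderiv ℝ ψ x
  have h1 : L (gam ψ x) = ‖gam ψ x‖ ^ 2 := by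
    have e : gam ψ x = (L 1) • (1 : ℂ) + (L I) • I := by simp [gam, L]
    have e2 : ‖gam ψ x‖ ^ 2 = L 1 ^ 2 + L I ^ 2 := by
      rw [Complex.sq_norm, gam, Complex.normSq_add_mul_I]
    rw [e2]
    conv_lhs => rw [e]
    rw [map_add, map_smul, map_smul, smul_eq_mul, smul_eq_mul]; ring
  have h2 := L.le_opNorm (gam ψ x)
  rw [h1, Real.norm_of_nonneg (by positivity)] at h2
  rcases (norm_nonneg (gam ψ x)).eq_or_lt with h | h
  · rw [← h]; exact norm_nonneg _
  · nlinarith

lemma measurable_gam (ψ : ℂ → ℝ) : Measurable (gam ψ) := by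
  unfold gam
  have h1 := measurable_fderiv_apply_const ℝ ψ (1 : ℂ)
  have h2 := measurable_fderiv_apply_const ℝ ψ I
  fun_prop

lemma gam_of_notMem {ψ : ℂ → ℝ} {x : ℂ} (h : x ∉ tsupport ψ) : gam ψ x = 0 := by
  simp [gam, fderiv_of_notMem_tsupport ℝ h]

lemma gam_congr {ψ φ : ℂ → ℝ} {x : ℂ} (h : ψ =ᶠ[𝓝 x] φ) : gam ψ x = gam φ x := by
  simp [gam, h.fderiv_eq]

lemma gam_add {ψ φ : ℂ → ℝ} {x : ℂ} (h1 : DifferentiableAt ℝ ψ x) (h2 : DifferentiableAt ℝ φ x) :
    gam (fun y => ψ y + φ y) x = gam ψ x + gam φ x := by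
  simp only [gam, fderiv_fun_add h1 h2, add_apply]
  push_cast; ring

lemma norm_gam_le_lip {ψ : ℂ → ℝ} {K : ℝ≥0} (h : LipschitzWith K ψ) (x : ℂ) : ‖gam ψ x‖ ≤ K :=
  (norm_gam_le ψ x).trans (norm_fderiv_le_of_lipschitz ℝ h)

lemma integrable_gam_mul {ψ : ℂ → ℝ} {K : ℝ≥0} (h : LipschitzWith K ψ) {V : ℂ → ℂ}
    (hV : IntegrableOn V (tsupport ψ)) : Integrable fun x => gam ψ x * V x := by
  have h1 : IntegrableOn (fun x => gam ψ x * V x) (tsupport ψ) :=
    Integrable.bdd_mul hV (measurable_gam ψ).aestronglyMeasurable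
      (Eventually.of_forall (norm_gam_le_lip h))
  refine (integrableOn_iff_integrable_of_support_subset ?_).1 h1
  intro x hx
  by_contra hx'
  simp [gam_of_notMem hx'] at hx

lemma by_parts_real {ψ f : ℂ → ℝ} {K : ℝ≥0} (h : LipschitzWith K ψ) (hc : HasCompactSupport ψ)
    {D : Set ℂ} (hD : IsOpen D) (hs : tsupport ψ ⊆ D) (hf : ContDiffOn ℝ 1 f D) (v : ℂ) :
    ∫ x, fderiv ℝ ψ x v * f x = -∫ x, ψ x * fderiv ℝ f x v := by
  obtain ⟨K', hK', h1, h2⟩ := exists_compact_between hc hD hs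
  have hl : LocallyLipschitzOn K' f := by
    intro x hx
    obtain ⟨c, t, ht, hct⟩ := (hf.contDiffAt (hD.mem_nhds (h2 hx))).exists_lipschitzOnWith
    exact ⟨c, t, mem_nhdsWithin_of_mem_nhds ht, hct⟩
  obtain ⟨c, hc'⟩ := hl.exists_lipschitzOnWith_of_compact hK'
  obtain ⟨f', hf', he⟩ := hc'.extend_real
  have key := hf'.integral_lineDeriv_mul_eq (μ := volume) h hc v
  have e1 : ∫ x, lineDeriv ℝ f' x v * ψ x = ∫ x, ψ x * fderiv ℝ f x v := by
    refine integral_congr_ae (Eventually.of_forall fun x => ?_)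
    by_cases hx : x ∈ tsupport ψ
    · have a1 : f =ᶠ[𝓝 x] f' := he.eventuallyEq_of_mem (mem_interior_iff_mem_nhds.1 (h1 hx))
      have a2 : DifferentiableAt ℝ f x :=
        (hf.contDiffAt (hD.mem_nhds (hs hx))).differentiableAt one_ne_zero
      simp only
      rw [← a1.lineDeriv_eq, a2.lineDeriv_eq_fderiv, mul_comm]
    · simp [image_eq_zero_of_notMem_tsupport hx]
  have e2 : ∫ x, lineDeriv ℝ ψ x (-v) * f' x = -∫ x, fderiv ℝ ψ x v * f x := by
    rw [← integral_neg]
    refine integral_congr_ae ?_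
    filter_upwards [h.ae_differentiableAt (μ := volume)] with x hx
    rw [hx.lineDeriv_eq_fderiv, map_neg]
    by_cases hx' : x ∈ tsupport ψ
    · rw [he (interior_subset (h1 hx'))]; ring
    · simp [fderiv_of_notMem_tsupport ℝ hx']
  rw [e1, e2] at key
  linarith

/-- `f` is real differentiable at `x` and `f_x + i f_y = c`. -/
def HD (f : ℂ → ℂ) (c x : ℂ) : Prop :=
  DifferentiableAt ℝ f x ∧ fderiv ℝ f x 1 + I * fderiv ℝ f x I = c

lemma HD.of_hasDerivAt {f : ℂ → ℂ} {f' x : ℂ} (h : HasDerivAt f f' x) : HD f 0 x := by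
  have h1 := h.hasFDerivAt.restrictScalars ℝ
  refine ⟨h1.differentiableAt, ?_⟩
  rw [h1.fderiv]
  simp only [ContinuousLinearMap.coe_restrictScalars', ContinuousLinearMap.toSpanSingleton_apply,
    smul_eq_mul]
  linear_combination f' * I_mul_I

lemma HD.conj {f : ℂ → ℂ} {f' x : ℂ} (h : HasDerivAt f f' x) :
    HD (fun y => conj (f y)) (2 * conj f') x := by
  have h1 := conjCLE.hasFDerivAt.comp x (h.hasFDerivAt.restrictScalars ℝ)
  refine ⟨h1.differentiableAt, ?_⟩
  have e : (fun y => (starRingEnd ℂ) (f y)) = ⇑conjCLE ∘ f := rfl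
  rw [e, h1.fderiv]
  simp only [ContinuousLinearMap.coe_comp, Function.comp, ContinuousLinearEquiv.coe_coe,
    conjCLE_apply, ContinuousLinearMap.coe_restrictScalars',
    ContinuousLinearMap.toSpanSingleton_apply, smul_eq_mul, map_mul, conj_I, map_one]
  linear_combination (-(starRingEnd ℂ) f') * I_mul_I

lemma HD.add {f g : ℂ → ℂ} {c e x : ℂ} (h1 : HD f c x) (h2 : HD g e x) :
    HD (fun y => f y + g y) (c + e) x := by
  refine ⟨h1.1.add h2.1, ?_⟩
  rw [fderiv_fun_add h1.1 h2.1, ← h1.2, ← h2.2]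
  simp only [add_apply]; ring

lemma HD.mul {f g : ℂ → ℂ} {c e x : ℂ} (h1 : HD f c x) (h2 : HD g e x) :
    HD (fun y => f y * g y) (c * g x + f x * e) x := by
  refine ⟨h1.1.mul h2.1, ?_⟩
  rw [fderiv_fun_mul h1.1 h2.1, ← h1.2, ← h2.2]
  simp only [add_apply, smul_apply, smul_eq_mul]; ring

lemma HD.inv {f : ℂ → ℂ} {c x : ℂ} (h1 : HD f c x) (h0 : f x ≠ 0) :
    HD (fun y => (f y)⁻¹) (-c / f x ^ 2) x := by
  have h2 := ((hasDerivAt_inv h0).hasFDerivAt.restrictScalars ℝ).comp x h1.1.hasFDerivAt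
  have e : (fun y => (f y)⁻¹) = (fun y => y⁻¹) ∘ f := rfl
  refine ⟨h2.differentiableAt, ?_⟩
  rw [e, h2.fderiv, ← h1.2]
  simp only [ContinuousLinearMap.coe_comp, Function.comp,
    ContinuousLinearMap.coe_restrictScalars', ContinuousLinearMap.toSpanSingleton_apply,
    smul_eq_mul]
  field_simp
  ring

lemma HD.congr_val {f : ℂ → ℂ} {c e x : ℂ} (h : HD f c x) (he : c = e) : HD f e x := he ▸ h

lemma by_parts {ψ : ℂ → ℝ} {K : ℝ≥0} (h : LipschitzWith K ψ) (hc : HasCompactSupport ψ)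
    {D : Set ℂ} (hD : IsOpen D) (hs : tsupport ψ ⊆ D) {V W : ℂ → ℂ} (hV : ContDiffOn ℝ 1 V D)
    (hW : ∀ x ∈ D, HD V (W x) x) :
    ∫ x, (gam ψ x * V x).re = -∫ x, ψ x * (W x).re := by
  have r1 : ContDiffOn ℝ 1 (fun x => (V x).re) D := reCLM.contDiff.comp_contDiffOn hV
  have r2 : ContDiffOn ℝ 1 (fun x => (V x).im) D := imCLM.contDiff.comp_contDiffOn hV
  have b1 := by_parts_real h hc hD hs r1 1
  have b2 := by_parts_real h hc hD hs r2 I
  have i0 : ∀ (f : ℂ → ℝ), ContDiffOn ℝ 1 f D → ∀ v : ℂ,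
      Integrable (fun x => fderiv ℝ ψ x v * f x) ∧ Integrable (fun x => ψ x * fderiv ℝ f x v) := by
    intro f hf v
    constructor
    · have a1 : IntegrableOn (fun x => fderiv ℝ ψ x v * f x) (tsupport ψ) :=
        Integrable.bdd_mul ((hf.continuousOn.mono hs).integrableOn_compact hc)
          (measurable_fderiv_apply_const ℝ ψ v).aestronglyMeasurable
          (c := K * ‖v‖) (Eventually.of_forall fun x =>
            ((fderiv ℝ ψ x).le_opNorm v).trans
              (mul_le_mul_of_nonneg_right (norm_fderiv_le_of_lipschitz ℝ h) (norm_nonneg _)))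
      refine (integrableOn_iff_integrable_of_support_subset ?_).1 a1
      intro x hx
      by_contra hx'
      simp [fderiv_of_notMem_tsupport ℝ hx'] at hx
    · have a0 : ContinuousOn (fun x => fderiv ℝ f x v) D :=
        (hf.continuousOn_fderiv_of_isOpen hD le_rfl).clm_apply continuousOn_const
      have a1 : IntegrableOn (fun x => ψ x * fderiv ℝ f x v) (tsupport ψ) :=
        (h.continuous.continuousOn.mul (a0.mono hs)).integrableOn_compact hc
      refine (integrableOn_iff_integrable_of_support_subset ?_).1 a1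
      intro x hx
      by_contra hx'
      simp [image_eq_zero_of_notMem_tsupport hx'] at hx
  have e1 : ∀ x, (gam ψ x * V x).re =
      fderiv ℝ ψ x 1 * (V x).re - fderiv ℝ ψ x I * (V x).im := by
    intro x; simp [gam]
  have e2 : ∀ x, ψ x * (W x).re = ψ x * fderiv ℝ (fun x => (V x).re) x 1 -
      ψ x * fderiv ℝ (fun x => (V x).im) x I := by
    intro x
    by_cases hx : x ∈ tsupport ψ
    · have a := hW x (hs hx)
      have a1 := (reCLM.hasFDerivAt.comp x a.1.hasFDerivAt).fderiv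
      have a2 := (imCLM.hasFDerivAt.comp x a.1.hasFDerivAt).fderiv
      have c1 : (fun x => (V x).re) = ⇑reCLM ∘ V := rfl
      have c2 : (fun x => (V x).im) = ⇑imCLM ∘ V := rfl
      rw [c1, c2, a1, a2, ← a.2]
      simp
      ring
    · simp [image_eq_zero_of_notMem_tsupport hx]
  simp_rw [e1, e2]
  rw [integral_sub (i0 _ r1 1).1 (i0 _ r2 I).1, integral_sub (i0 _ r1 1).2 (i0 _ r2 I).2, b1, b2]
  ring

lemma integrable_kernel : Integrable fun w : ℂ => ((1 + ‖w‖ ^ 2) ^ 2)⁻¹ := by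
  have h := integrable_rpow_neg_one_add_norm_sq (E := ℂ) (μ := volume) (r := 4)
    (by simp; norm_num)
  refine h.congr (Eventually.of_forall fun w => ?_)
  simp only
  rw [show (-4 / 2 : ℝ) = -(2 : ℕ) by norm_num, Real.rpow_neg (by positivity), Real.rpow_natCast]

lemma integral_kernel : ∫ w : ℂ, ((1 + ‖w‖ ^ 2) ^ 2)⁻¹ = Real.pi := by
  have h1 : ∫ x in Ioi (0 : ℝ), x * ((1 + |x| ^ 2) ^ 2)⁻¹ = 1 / 2 := by
    have := integral_Ioi_of_hasDerivAt_of_nonneg' (a := 0) (l := 0)
      (g := fun x : ℝ => -(1 / 2) * (1 + x ^ 2)⁻¹) (g' := fun x => x * ((1 + |x| ^ 2) ^ 2)⁻¹)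
      (fun x _ => by
        have a := (((hasDerivAt_pow 2 x).const_add 1).inv (by positivity)).const_mul (-(1 / 2))
        refine a.congr_deriv ?_
        rw [sq_abs]; field_simp; norm_num)
      (fun x hx => by have : 0 < x := hx; positivity)
      (by
        have a : Tendsto (fun x : ℝ => (1 + x ^ 2)⁻¹) atTop (𝓝 0) :=
          (tendsto_atTop_add_const_left _ _ (tendsto_pow_atTop two_ne_zero)).inv_tendsto_atTop
        have b := a.const_mul (-(1 / 2))
        rwa [mul_zero] at b)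
    rw [this]; norm_num
  calc
    _ = ∫ x in Ioi (0 : ℝ) ×ˢ Ioo (-Real.pi) Real.pi, x.1 * ((1 + |x.1| ^ 2) ^ 2)⁻¹ := by
      rw [← Complex.integral_comp_polarCoord_symm, polarCoord_target]
      simp_rw [Complex.norm_polarCoord_symm, smul_eq_mul]
    _ = (∫ x in Ioi (0 : ℝ), x * ((1 + |x| ^ 2) ^ 2)⁻¹) * ∫ _ in Ioo (-Real.pi) Real.pi, 1 := by
      rw [← setIntegral_prod_mul, Measure.volume_eq_prod]
      simp_rw [mul_one]
    _ = Real.pi := by
      rw [h1]
      simp_rw [integral_const, measureReal_restrict_apply MeasurableSet.univ, Set.univ_inter,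
        Real.volume_real_Ioo_of_le (a := -Real.pi) (b := Real.pi) (by linarith [Real.pi_nonneg])]
      simp; ring

lemma integrableOn_inv_sub (x₁ : ℂ) {K : Set ℂ} (hK : IsCompact K) :
    IntegrableOn (fun x : ℂ => (x - x₁)⁻¹) K := by
  obtain ⟨r, hr⟩ := hK.isBounded.subset_ball x₁
  refine IntegrableOn.mono_set ?_ hr
  have h : IntegrableOn (fun x : ℂ => x⁻¹) (Metric.ball 0 r) :=
    integrableOn_ball_of_norm_le_rpow (C := 1) (α := 1) (by simp) (by simp)
      (Eventually.of_forall fun x => by simp [Real.rpow_neg_one])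
      measurable_inv.aestronglyMeasurable
  have h2 := (measurePreserving_sub_right (volume : Measure ℂ) x₁).integrableOn_comp_preimage
    (measurableEmbedding_subRight x₁) (f := fun x : ℂ => x⁻¹) (s := Metric.ball 0 r)
  have e : (fun x => x - x₁) ⁻¹' Metric.ball 0 r = Metric.ball x₁ r := by
    ext x; simp [dist_eq_norm]
  rw [e] at h2
  exact h2.2 h

lemma cauchy_pompeiu {ψ : ℂ → ℝ} {K : ℝ≥0} (h : LipschitzWith K ψ) (hc : HasCompactSupport ψ)
    (x₁ : ℂ) : ∫ x, (gam ψ x * (x - x₁)⁻¹).re = -(2 * Real.pi * ψ x₁) := by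
  let ε : ℕ → ℝ := fun n => 1 / ((n : ℝ) + 1)
  have hε : ∀ n, 0 < ε n := fun n => by positivity
  have hε0 : Tendsto ε atTop (𝓝 0) := tendsto_one_div_add_atTop_nhds_zero_nat
  let V : ℕ → ℂ → ℂ := fun n x => conj (x - x₁) * ((x - x₁) * conj (x - x₁) + (ε n) ^ 2)⁻¹
  have hden : ∀ n x, (x - x₁) * conj (x - x₁) + (ε n : ℂ) ^ 2 =
      ((‖x - x₁‖ ^ 2 + ε n ^ 2 : ℝ) : ℂ) := by
    intro n x; rw [mul_conj, normSq_eq_norm_sq]; push_cast; ring
  have hne : ∀ n x, (x - x₁) * conj (x - x₁) + (ε n : ℂ) ^ 2 ≠ 0 := by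
    intro n x
    rw [hden]
    have := hε n
    exact_mod_cast (by positivity : ‖x - x₁‖ ^ 2 + ε n ^ 2 ≠ 0)
  have hcj : ContDiff ℝ 1 fun x : ℂ => conj (x - x₁) :=
    conjCLE.contDiff.comp (contDiff_id.sub contDiff_const)
  have hV : ∀ n, ContDiff ℝ 1 (V n) := fun n =>
    hcj.mul ((((contDiff_id.sub contDiff_const).mul hcj).add contDiff_const).inv (hne n))
  have hHD : ∀ n x, HD (V n)
      ((2 * ε n ^ 2 * ((‖x - x₁‖ ^ 2 + ε n ^ 2) ^ 2)⁻¹ : ℝ) : ℂ) x := by
    intro n x
    have d0 : HasDerivAt (fun x : ℂ => x - x₁) 1 x := (hasDerivAt_id x).sub_const x₁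
    have d1 := HD.conj d0
    have d2 := ((HD.of_hasDerivAt d0).mul d1).add
      (HD.of_hasDerivAt (hasDerivAt_const x ((ε n : ℂ) ^ 2)))
    refine (d1.mul (d2.inv (hne n x))).congr_val ?_
    have e1 := hden n x
    have e2 := hne n x
    push_cast at e1 ⊢
    rw [← e1]
    simp only [map_one]
    field_simp
    ring
  have hb : ∀ n, ∫ x, (gam ψ x * V n x).re =
      -(2 * ∫ w : ℂ, ψ (x₁ + ε n • w) * ((1 + ‖w‖ ^ 2) ^ 2)⁻¹) := by
    intro n
    rw [by_parts h hc isOpen_univ (subset_univ _) (hV n).contDiffOn fun x _ => hHD n x]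
    simp only [ofReal_re]
    congr 1
    rw [← integral_add_left_eq_self _ x₁]
    have k := Measure.integral_comp_smul (volume : Measure ℂ)
      (fun y => ψ (x₁ + y) * (2 * ε n ^ 2 * ((‖x₁ + y - x₁‖ ^ 2 + ε n ^ 2) ^ 2)⁻¹)) (ε n)
    have p := hε n
    rw [finrank_real_complex, abs_of_pos (by positivity), smul_eq_mul,
      eq_comm, inv_mul_eq_iff_eq_mul₀ (by positivity)] at k
    rw [k, ← integral_const_mul, ← integral_const_mul]
    refine integral_congr_ae (Eventually.of_forall fun w => ?_)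
    simp only [add_sub_cancel_left, norm_smul, Real.norm_of_nonneg p.le]
    field_simp
    ring
  obtain ⟨M, hM⟩ := hc.exists_bound_of_continuous h.continuous
  have t1 : Tendsto (fun n => ∫ w : ℂ, ψ (x₁ + ε n • w) * ((1 + ‖w‖ ^ 2) ^ 2)⁻¹) atTop
      (𝓝 (∫ w : ℂ, ψ x₁ * ((1 + ‖w‖ ^ 2) ^ 2)⁻¹)) := by
    refine tendsto_integral_of_dominated_convergence (fun w => M * ((1 + ‖w‖ ^ 2) ^ 2)⁻¹)
      (fun n => ?_) (integrable_kernel.const_mul M) (fun n => Eventually.of_forall fun w => ?_)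
      (Eventually.of_forall fun w => ?_)
    · have := h.continuous
      exact AEStronglyMeasurable.mul (Continuous.aestronglyMeasurable (by fun_prop))
        integrable_kernel.aestronglyMeasurable
    · rw [norm_mul, Real.norm_of_nonneg (by positivity : (0 : ℝ) ≤ ((1 + ‖w‖ ^ 2) ^ 2)⁻¹)]
      gcongr
      exact hM _
    · refine Tendsto.mul_const _ ((h.continuous.tendsto x₁).comp ?_)
      simpa using (hε0.smul_const w).const_add x₁
  have t2 : Tendsto (fun n => ∫ x, (gam ψ x * V n x).re) atTop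
      (𝓝 (∫ x, (gam ψ x * (x - x₁)⁻¹).re)) := by
    refine tendsto_integral_of_dominated_convergence (fun x => ‖gam ψ x * (x - x₁)⁻¹‖)
      (fun n => ?_) (integrable_gam_mul h (integrableOn_inv_sub x₁ hc)).norm (fun n => ?_) ?_
    · exact (measurable_re.comp ((measurable_gam ψ).mul
        (hV n).continuous.measurable)).aestronglyMeasurable
    · refine Eventually.of_forall fun x => (abs_re_le_norm _).trans ?_
      rw [norm_mul, norm_mul (gam ψ x)]
      refine mul_le_mul_of_nonneg_left ?_ (norm_nonneg _)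
      simp only [V, hden, norm_mul, norm_inv, Complex.norm_conj, norm_real]
      rw [Real.norm_of_nonneg (by positivity)]
      rcases (norm_nonneg (x - x₁)).eq_or_lt with h0 | h0
      · rw [← h0]; simp
      · have := hε n
        rw [← div_eq_mul_inv, inv_eq_one_div, div_le_div_iff₀ (by positivity) h0]
        nlinarith [sq_nonneg (ε n)]
    · filter_upwards [Measure.ae_ne volume x₁] with x hx
      have h0 : x - x₁ ≠ 0 := sub_ne_zero.2 hx
      have h1 : conj (x - x₁) ≠ 0 := by rwa [map_ne_zero]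
      have a : Tendsto (fun n => (x - x₁) * conj (x - x₁) + (ε n : ℂ) ^ 2) atTop
          (𝓝 ((x - x₁) * conj (x - x₁) + ((0 : ℝ) : ℂ) ^ 2)) :=
        (((continuous_ofReal.tendsto 0).comp hε0).pow 2).const_add _
      have a2 := ((a.inv₀ (by
        rw [ofReal_zero, zero_pow two_ne_zero, add_zero]; exact mul_ne_zero h0 h1)).const_mul (conj (x - x₁))).const_mul
        (gam ψ x)
      have e : conj (x - x₁) * ((x - x₁) * conj (x - x₁) + ((0 : ℝ) : ℂ) ^ 2)⁻¹ = (x - x₁)⁻¹ := by
        simp only [ofReal_zero, ne_eq, OfNat.ofNat_ne_zero, not_false_eq_true, zero_pow, add_zero]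
        field_simp
      rw [e] at a2
      exact (continuous_re.tendsto _).comp a2
  simp_rw [hb] at t2
  have := tendsto_nhds_unique t2 (t1.const_mul 2).neg
  rw [this, integral_const_mul, integral_kernel]; ring

/-- Poincare-Lelong formula for simple zeros. -/
theorem poincare_lelong {ψ : ℂ → ℝ} {K : ℝ≥0} (h : LipschitzWith K ψ) (hc : HasCompactSupport ψ)
    {D : Set ℂ} (hD : IsOpen D) (hs : tsupport ψ ⊆ D) (S : Finset ℂ) :
    ∀ f : ℂ → ℂ, DifferentiableOn ℂ f D → (∀ x ∈ S, x ∈ D ∧ f x = 0 ∧ deriv f x ≠ 0) →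
      (∀ x ∈ tsupport ψ, f x = 0 → x ∈ S) →
      IntegrableOn (fun x => deriv f x / f x) (tsupport ψ) ∧
        ∫ x, (gam ψ x * (deriv f x / f x)).re = -(2 * Real.pi * ∑ x ∈ S, ψ x) := by
  classical
  induction S using Finset.induction_on with
  | empty =>
    intro f hf _ h2
    have hD' : IsOpen (D ∩ f ⁻¹' {0}ᶜ) :=
      hf.continuousOn.isOpen_inter_preimage hD isOpen_compl_singleton
    have hs' : tsupport ψ ⊆ D ∩ f ⁻¹' {0}ᶜ := fun x hx => ⟨hs hx, fun h0 => by simpa using h2 x hx h0⟩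
    have ha : ∀ x ∈ D ∩ f ⁻¹' {0}ᶜ, AnalyticAt ℂ (fun x => deriv f x / f x) x := fun x hx =>
      (hf.analyticAt (hD.mem_nhds hx.1)).deriv.div (hf.analyticAt (hD.mem_nhds hx.1)) hx.2
    refine ⟨ContinuousOn.integrableOn_compact hc fun x hx =>
      (ha x (hs' hx)).continuousAt.continuousWithinAt, ?_⟩
    rw [by_parts h hc hD' hs' (W := fun _ => 0)
      (fun x hx => ((ha x hx).contDiffAt.restrict_scalars ℝ).contDiffWithinAt)
      fun x hx => HD.of_hasDerivAt (ha x hx).differentiableAt.hasDerivAt]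
    simp
  | insert x₁ S hx₁ ih =>
    intro f hf h1 h2
    obtain ⟨m1, z1, d1⟩ := h1 x₁ (Finset.mem_insert_self _ _)
    set u := dslope f x₁ with hu
    have hud : DifferentiableOn ℂ u D := (Complex.differentiableOn_dslope (hD.mem_nhds m1)).2 hf
    have hfu : ∀ x, f x = (x - x₁) * u x := by
      intro x
      have := sub_smul_dslope f x₁ x
      rw [z1, sub_zero, smul_eq_mul] at this
      exact this.symm
    have hder : ∀ x ∈ D, deriv f x = u x + (x - x₁) * deriv u x := by
      intro x hx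
      have a := ((hasDerivAt_id x).sub_const x₁).mul
        (hud.differentiableAt (hD.mem_nhds hx)).hasDerivAt
      have e : f = (fun x => id x - x₁) * u := funext hfu
      rw [e, a.deriv]
      simp
    obtain ⟨i1, i2⟩ := ih u hud (fun x hx => by
        obtain ⟨m, z, d⟩ := h1 x (Finset.mem_insert_of_mem hx)
        have ne : x - x₁ ≠ 0 := sub_ne_zero.2 fun e => hx₁ (e ▸ hx)
        have z' : u x = 0 := by rw [hfu] at z; exact (mul_eq_zero.1 z).resolve_left ne
        refine ⟨m, z', fun d' => d ?_⟩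
        rw [hder x m, z', d']; simp)
      (fun x hx z => by
        have := h2 x hx (by rw [hfu, z, mul_zero])
        rcases Finset.mem_insert.1 this with rfl | h'
        · rw [hu, dslope_same] at z; exact absurd z d1
        · exact h')
    have hae : ∀ᵐ x : ℂ, x ∈ tsupport ψ → deriv f x / f x = (x - x₁)⁻¹ + deriv u x / u x := by
      filter_upwards [(insert x₁ S).finite_toSet.countable.ae_notMem volume] with x hx hxs
      have z : f x ≠ 0 := fun z => hx (h2 x hxs z)
      rw [hder x (hs hxs), hfu x]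
      rw [hfu x] at z
      have z1 := left_ne_zero_of_mul z
      have z2 := right_ne_zero_of_mul z
      field_simp
    have j1 := integrableOn_inv_sub x₁ hc
    constructor
    · refine (j1.add i1).congr ?_
      rw [EventuallyEq, ae_restrict_iff' (isClosed_tsupport ψ).measurableSet]
      filter_upwards [hae] with x hx hxs
      exact (hx hxs).symm
    · have e : ∫ x, (gam ψ x * (deriv f x / f x)).re =
          ∫ x, ((gam ψ x * (x - x₁)⁻¹).re + (gam ψ x * (deriv u x / u x)).re) := by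
        refine integral_congr_ae ?_
        filter_upwards [hae] with x hx
        by_cases hxs : x ∈ tsupport ψ
        · rw [hx hxs, mul_add, add_re]
        · simp [gam_of_notMem hxs]
      have k1 : Integrable fun x => (gam ψ x * (x - x₁)⁻¹).re := (integrable_gam_mul h j1).re
      have k2 : Integrable fun x => (gam ψ x * (deriv u x / u x)).re :=
        (integrable_gam_mul h i1).re
      rw [e, integral_add k1 k2,
        cauchy_pompeiu h hc, i2, Finset.sum_insert hx₁]
      ring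

end Pool.Agent.P.MP_a3b544_ag.F2
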