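import Pool.Agent.P.MP_a3b544_ag.F2.Ifc
import Pool.Agent.P.MP_a3b544_ag.F2.PL

/-! Averaging the Poincare-Lelong formula over random lines, on one graph. -/

namespace Pool.Agent.P.MP_a3b544_ag.F2

open scoped ENNReal NNReal Topology ComplexConjugate
open Set MeasureTheory Filter Complex

lemma lagrange (z v : A3) : nsq z * nsq v - ‖herm v z‖ ^ 2 =
    ‖z.1 * v.2.1 - z.2.1 * v.1‖ ^ 2 + ‖z.1 * v.2.2 - z.2.2 * v.1‖ ^ 2 +
      ‖z.2.1 * v.2.2 - z.2.2 * v.2.1‖ ^ 2 := by
  simp only [nsq, herm, Complex.sq_norm, normSq_apply, add_re, add_im, mul_re, mul_im, sub_re,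
    sub_im, conj_re, conj_im]
  ring

lemma nsq_one (x y : ℂ) : nsq (1, x, y) = 1 + ‖x‖ ^ 2 + ‖y‖ ^ 2 := by simp [nsq]

lemma one_le_nsq (x y : ℂ) : 1 ≤ nsq (1, x, y) := by
  rw [nsq_one]; nlinarith [sq_nonneg ‖x‖, sq_nonneg ‖y‖]

lemma nsq_nonneg (v : A3) : 0 ≤ nsq v := by unfold nsq; positivity

lemma spd_nonneg (z v : A3) : 0 ≤ spd z v := div_nonneg (Real.sqrt_nonneg _) (nsq_nonneg z)

lemma spd_sq (z v : A3) : spd z v ^ 2 = (nsq z * nsq v - ‖herm v z‖ ^ 2) / nsq z ^ 2 := by
  rw [spd, div_pow, Real.sq_sqrt]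
  rw [lagrange]; positivity

lemma nsq_smul (c : ℂ) (v : A3) : nsq (c • v) = ‖c‖ ^ 2 * nsq v := by
  simp only [nsq, Prod.smul_fst, Prod.smul_snd, smul_eq_mul, norm_mul]; ring

lemma herm_smul (c : ℂ) (v z : A3) : herm (c • v) z = c * herm v z := by
  simp only [herm, Prod.smul_fst, Prod.smul_snd, smul_eq_mul]; ring

lemma dot_smul (c : ℂ) (a v : A3) : dot a (c • v) = c * dot a v := by
  simp only [dot, Prod.smul_fst, Prod.smul_snd, smul_eq_mul]; ring

lemma dot_add (a v w : A3) : dot a (v + w) = dot a v + dot a w := by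
  simp only [dot, Prod.fst_add, Prod.snd_add]; ring

lemma spd_smul (z : A3) (c : ℂ) (v : A3) : spd z (c • v) = ‖c‖ * spd z v := by
  rw [spd, spd, nsq_smul, herm_smul, norm_mul, mul_pow,
    show nsq z * (‖c‖ ^ 2 * nsq v) - ‖c‖ ^ 2 * ‖herm v z‖ ^ 2 =
      ‖c‖ ^ 2 * (nsq z * nsq v - ‖herm v z‖ ^ 2) by ring,
    Real.sqrt_mul (by positivity), Real.sqrt_sq (norm_nonneg _), mul_div_assoc]

lemma lam_nonneg (x y s : ℂ) : 0 ≤ lam x y s := spd_nonneg _ _

lemma lam_pos (x y s : ℂ) : 0 < lam x y s := by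
  refine div_pos (Real.sqrt_pos.2 ?_) (lt_of_lt_of_le one_pos (one_le_nsq x y))
  rw [lagrange]
  simp only [mul_one, mul_zero, sub_zero, norm_one]
  positivity

lemma one_ne_zero3 (x y : ℂ) : ((1, x, y) : A3) ≠ 0 := fun h => one_ne_zero (congrArg Prod.fst h)

lemma sqrt_le_nsq (x y : ℂ) (v : A3) :
    √(((herm v (1, x, y)).re / nsq (1, x, y)) ^ 2 + spd (1, x, y) v ^ 2) ≤ √(nsq v) := by
  apply Real.sqrt_le_sqrt
  have h1 := one_le_nsq x y
  have h2 := nsq_nonneg v
  have h3 : (herm v (1, x, y)).re ^ 2 ≤ ‖herm v (1, x, y)‖ ^ 2 := by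
    rw [← sq_abs]; exact pow_le_pow_left₀ (abs_nonneg _) (abs_re_le_norm _) 2
  rw [spd_sq, div_pow, ← add_div, div_le_iff₀ (by positivity)]
  nlinarith [mul_nonneg h2 (sub_nonneg.2 h1)]

/-- Weighted mean of the logarithmic derivative. -/
noncomputable def bet (w : A3 → ℝ) (z v : A3) : ℝ := ∫ a, w a * (dot a v / dot a z).re ∂gauss

lemma integrable_bet (hG : GaussFacts) {w : A3 → ℝ} (hw : AEStronglyMeasurable w gauss)
    (hw1 : ∀ a, |w a| ≤ 1) {z : A3} (hz : z ≠ 0) (v : A3) :
    Integrable (fun a => w a * (dot a v / dot a z).re) gauss :=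
  (hG.integrable z v hz).bdd_mul hw (Eventually.of_forall hw1)

lemma bet_add (hG : GaussFacts) {w : A3 → ℝ} (hw : AEStronglyMeasurable w gauss)
    (hw1 : ∀ a, |w a| ≤ 1) {z : A3} (hz : z ≠ 0) (v v' : A3) :
    bet w z (v + v') = bet w z v + bet w z v' := by
  unfold bet
  rw [← integral_add (integrable_bet hG hw hw1 hz v) (integrable_bet hG hw hw1 hz v')]
  simp only [dot_add, add_div, add_re, mul_add]

lemma bet_zero (w : A3 → ℝ) (z : A3) : bet w z 0 = 0 := by simp [bet, dot]

lemma ae_gauss {p : A3 → Prop} (h : ∀ᵐ a ∂(volume : Measure A3), p a) : ∀ᵐ a ∂gauss, p a :=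
  (withDensity_absolutelyContinuous _ _).ae_le h

variable {D : Set ℂ} {g : ℂ → ℂ}

lemma hasDerivAt_dot (hD : IsOpen D) (hg : DifferentiableOn ℂ g D) (a : A3) {x : ℂ} (hx : x ∈ D) :
    HasDerivAt (fun x => dot a (1, x, g x)) (dot a (0, 1, deriv g x)) x := by
  have h1 := (hg.differentiableAt (hD.mem_nhds hx)).hasDerivAt
  have h2 := (((hasDerivAt_id x).const_mul a.2.1).const_add (a.1 * 1)).add (h1.const_mul a.2.2)
  refine h2.congr_deriv ?_
  simp [dot]

lemma ae_simple (hD : IsOpen D) (hg : DifferentiableOn ℂ g D) :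
    ∀ᵐ a ∂gauss, ∀ x ∈ D, dot a (1, x, g x) = 0 → dot a (0, 1, deriv g x) ≠ 0 := by
  apply ae_gauss
  let Θ : A3 → A3 := fun p =>
    (p.2.2 * (p.1 * deriv g p.1 - g p.1), -(p.2.2 * deriv g p.1), p.2.2)
  have hd : ∀ p ∈ {p : A3 | p.1 ∈ D}, DifferentiableAt ℝ Θ p := by
    intro p hp
    have a0 := hg.analyticAt (hD.mem_nhds hp)
    have a1 : DifferentiableAt ℝ (fun p : A3 => g p.1) p :=
      (a0.differentiableAt.restrictScalars ℝ).comp p differentiableAt_fst
    have a2 : DifferentiableAt ℝ (fun p : A3 => deriv g p.1) p :=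
      (a0.deriv.differentiableAt.restrictScalars ℝ).comp p differentiableAt_fst
    have a3 : DifferentiableAt ℝ (fun p : A3 => p.2.2) p := differentiableAt_snd.snd
    exact (a3.mul ((differentiableAt_fst.mul a2).sub a1)).prodMk ((a3.mul a2).neg.prodMk a3)
  have : (volume : Measure (ℂ × ℂ)).IsAddHaarMeasure := Measure.prod.instIsAddHaarMeasure _ _
  have : (volume : Measure A3).IsAddHaarMeasure := Measure.prod.instIsAddHaarMeasure _ _
  have h0 := addHaar_image_eq_zero_of_det_fderivWithin_eq_zero (volume : Measure A3)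
    (s := {p : A3 | p.1 ∈ D}) (f := Θ) (f' := fderiv ℝ Θ)
    (fun p hp => (hd p hp).hasFDerivAt.hasFDerivWithinAt) (fun p hp => by
      refine LinearMap.det_eq_zero_iff_ker_ne_bot.2 ((Submodule.ne_bot_iff _).2
        ⟨(0, 1, 0), ?_, by simp⟩)
      have := (hd p hp).lineDeriv_eq_fderiv (v := (0, 1, 0))
      rw [LinearMap.mem_ker, ContinuousLinearMap.coe_coe, ← this]
      simp [lineDeriv, Θ])
  refine (measure_eq_zero_iff_ae_notMem.1 h0).mono fun a ha x hx h1 h2 => ha ?_
  refine ⟨(x, 0, a.2.2), hx, ?_⟩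
  simp only [dot, mul_one, mul_zero, zero_add] at h1 h2
  refine Prod.ext ?_ (Prod.ext ?_ rfl)
  · simp only [Θ]; linear_combination x * h2 - h1
  · simp only [Θ]; linear_combination -h2

/-- Zeros of the linear form `a` on the graph. -/
def zer (D : Set ℂ) (g : ℂ → ℂ) (a : A3) : Set ℂ := {x | x ∈ D ∧ dot a (1, x, g x) = 0}

variable {ψ : ℂ → ℝ} {K : ℝ≥0}

theorem chart_fubini (hG : GaussFacts) (hD : IsOpen D) (hg : DifferentiableOn ℂ g D)
    (hgm : Measurable g) (h : LipschitzWith K ψ) (hc : HasCompactSupport ψ)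
    (hs : tsupport ψ ⊆ D) (hfin : ∀ᵐ a ∂gauss, (zer D g a).Finite)
    {w : A3 → ℝ} (hw : AEStronglyMeasurable w gauss) (hw1 : ∀ a, |w a| ≤ 1) :
    Integrable (fun a => w a * ∑ᶠ x ∈ zer D g a, ψ x) gauss ∧
      Integrable (fun x => bet w (1, x, g x) (gam ψ x • (0, 1, deriv g x))) ∧
      ∫ a, w a * ∑ᶠ x ∈ zer D g a, ψ x ∂gauss =
        -(2 * Real.pi)⁻¹ * ∫ x, bet w (1, x, g x) (gam ψ x • (0, 1, deriv g x)) := by
  have := hG.prob
  let F : A3 × ℂ → ℝ := fun p =>
    w p.1 * (dot p.1 (gam ψ p.2 • (0, 1, deriv g p.2)) / dot p.1 (1, p.2, g p.2)).re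
  have hFm : AEStronglyMeasurable F (gauss.prod volume) := by
    refine hw.comp_fst.mul (Measurable.aestronglyMeasurable ?_)
    have m1 := measurable_gam ψ
    have m2 : Measurable (deriv g) := measurable_deriv g
    simp only [dot_smul]
    simp only [dot]
    fun_prop
  obtain ⟨M, hM⟩ := hc.exists_bound_of_continuousOn (f := deriv g) fun x hx =>
    (hg.analyticAt (hD.mem_nhds (hs hx))).deriv.continuousAt.continuousWithinAt
  have hFi : Integrable F (gauss.prod volume) := by
    rw [integrable_prod_iff' hFm]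
    have i0 : ∀ x, Integrable (fun a => F (a, x)) gauss := fun x =>
      integrable_bet hG hw hw1 (one_ne_zero3 x (g x)) (gam ψ x • (0, 1, deriv g x))
    refine ⟨Eventually.of_forall i0, ?_⟩
    have i1 : Integrable ((tsupport ψ).indicator fun _ => K * √(1 + M ^ 2)) :=
      (integrable_indicator_iff (isClosed_tsupport ψ).measurableSet).2
        (integrableOn_const hc.measure_lt_top.ne)
    refine i1.mono' hFm.norm.prod_swap.integral_prod_right' (Eventually.of_forall fun x => ?_)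
    rw [Real.norm_of_nonneg (integral_nonneg fun a => norm_nonneg _)]
    by_cases hx : x ∈ tsupport ψ
    · rw [indicator_of_mem hx]
      have b1 := hG.abs_le (1, x, g x) (gam ψ x • (0, 1, deriv g x)) (one_ne_zero3 _ _)
      refine le_trans ?_ (b1.trans ((sqrt_le_nsq _ _ _).trans ?_))
      · refine integral_mono (i0 x).norm
          (hG.integrable (1, x, g x) (gam ψ x • (0, 1, deriv g x)) (one_ne_zero3 _ _)).abs
          fun a => ?_
        simp only [F, norm_mul, Real.norm_eq_abs]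
        exact mul_le_of_le_one_left (abs_nonneg _) (hw1 a)
      · rw [nsq_smul, Real.sqrt_mul (by positivity), Real.sqrt_sq (norm_nonneg _)]
        gcongr
        · exact norm_gam_le_lip h x
        · have := pow_le_pow_left₀ (norm_nonneg _) (hM x hx) 2
          simp only [nsq, norm_zero, norm_one]
          linarith
    · simp [indicator_of_notMem hx, F, gam_of_notMem hx, dot]
  have hae : ∀ᵐ a ∂gauss, w a * ∑ᶠ x ∈ zer D g a, ψ x =
      -(2 * Real.pi)⁻¹ * ∫ x, F (a, x) := by
    filter_upwards [hfin, ae_simple hD hg] with a h1 h2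
    have k := (poincare_lelong h hc hD hs h1.toFinset (fun x => dot a (1, x, g x))
      (fun x hx => (hasDerivAt_dot hD hg a hx).differentiableAt.differentiableWithinAt)
      (fun x hx => by
        have hx' := h1.mem_toFinset.1 hx
        exact ⟨hx'.1, hx'.2, by rw [(hasDerivAt_dot hD hg a hx'.1).deriv]; exact h2 x hx'.1 hx'.2⟩)
      (fun x hx h0 => h1.mem_toFinset.2 ⟨hs hx, h0⟩)).2
    have e : ∫ x, F (a, x) = w a * ∫ x,
        (gam ψ x * (deriv (fun x => dot a (1, x, g x)) x / dot a (1, x, g x))).re := by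
      rw [← integral_const_mul]
      refine integral_congr_ae (Eventually.of_forall fun x => ?_)
      by_cases hx : x ∈ tsupport ψ
      · simp only [F, (hasDerivAt_dot hD hg a (hs hx)).deriv, dot_smul, mul_div_assoc]
      · simp [F, gam_of_notMem hx, dot]
    rw [e, k, finsum_mem_eq_finite_toFinset_sum _ h1]
    have := Real.pi_pos
    field_simp
  refine ⟨(hFi.integral_prod_left.const_mul _).congr (hae.mono fun a ha => ha.symm),
    hFi.integral_prod_right, ?_⟩
  rw [integral_congr_ae hae, integral_const_mul,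
    integral_integral_swap (f := fun a x => F (a, x)) hFi]
  rfl

lemma continuousAt_lam {x : ℂ} (hg : AnalyticAt ℂ g x) :
    ContinuousAt (fun x => lam x (g x) (deriv g x)) x := by
  have a1 := hg.continuousAt
  have a2 := hg.deriv.continuousAt
  refine ContinuousAt.div ?_ ?_ (lt_of_lt_of_le one_pos (one_le_nsq _ _)).ne'
  · simp only [nsq, herm]; fun_prop
  · simp only [nsq]; fun_prop

theorem chart_crofton (hG : GaussFacts) (hD : IsOpen D) (hg : DifferentiableOn ℂ g D)
    (hgm : Measurable g) (h : LipschitzWith K ψ) (hc : HasCompactSupport ψ)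
    (hs : tsupport ψ ⊆ D) (hfin : ∀ᵐ a ∂gauss, (zer D g a).Finite) :
    Integrable (fun x => ψ x * lam x (g x) (deriv g x) ^ 2) ∧
      ∫ a, ∑ᶠ x ∈ zer D g a, ψ x ∂gauss =
        Real.pi⁻¹ * ∫ x, ψ x * lam x (g x) (deriv g x) ^ 2 := by
  have han : ∀ x ∈ D, AnalyticAt ℂ g x := fun x hx => hg.analyticAt (hD.mem_nhds hx)
  constructor
  · have a1 : IntegrableOn (fun x => ψ x * lam x (g x) (deriv g x) ^ 2) (tsupport ψ) :=
      ContinuousOn.integrableOn_compact hc fun x hx =>
        (h.continuous.continuousAt.mul ((continuousAt_lam (han x (hs hx))).pow 2)).continuousWithinAt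
    refine (integrableOn_iff_integrable_of_support_subset ?_).1 a1
    intro x hx
    by_contra hx'
    simp [image_eq_zero_of_notMem_tsupport hx'] at hx
  have k := (chart_fubini hG hD hg hgm h hc hs hfin (w := fun _ => 1) aestronglyMeasurable_const
    (fun _ => by simp)).2.2
  simp only [one_mul] at k
  let V : ℂ → ℂ := fun x =>
    (conj x + deriv g x * conj (g x)) * (1 + x * conj x + g x * conj (g x))⁻¹
  have hN : ∀ x, 1 + x * conj x + g x * conj (g x) = (nsq (1, x, g x) : ℝ) := by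
    intro x
    rw [nsq_one, mul_conj, mul_conj, normSq_eq_norm_sq, normSq_eq_norm_sq]; push_cast; ring
  have hN0 : ∀ x, 1 + x * conj x + g x * conj (g x) ≠ 0 := by
    intro x
    rw [hN]
    exact_mod_cast (lt_of_lt_of_le one_pos (one_le_nsq _ _)).ne'
  have e1 : ∀ x, bet (fun _ => 1) (1, x, g x) (gam ψ x • (0, 1, deriv g x)) =
      (gam ψ x * V x).re := by
    intro x
    simp only [bet, one_mul]
    rw [hG.mean _ _ (one_ne_zero3 _ _), herm_smul, ← div_ofReal_re]
    simp only [V, hN, herm, zero_mul, one_mul, zero_add, div_eq_mul_inv, mul_assoc]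
  have hV : ContDiffOn ℝ 1 V D := by
    intro x hx
    have a1 : ContDiffAt ℝ 1 g x := (han x hx).contDiffAt.restrict_scalars ℝ
    have a2 : ContDiffAt ℝ 1 (deriv g) x := (han x hx).deriv.contDiffAt.restrict_scalars ℝ
    have a3 : ContDiffAt ℝ 1 (fun x : ℂ => conj x) x := conjCLE.contDiff.contDiffAt
    have a4 : ContDiffAt ℝ 1 (fun x : ℂ => conj (g x)) x := conjCLE.contDiff.contDiffAt.comp x a1
    exact ((a3.add (a2.mul a4)).mul (((contDiffAt_const.add (contDiffAt_id.mul a3)).add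
      (a1.mul a4)).inv (hN0 x))).contDiffWithinAt
  have hW : ∀ x ∈ D, HD V ((2 * lam x (g x) (deriv g x) ^ 2 : ℝ) : ℂ) x := by
    intro x hx
    have d0 := hasDerivAt_id' x
    have d1 := (han x hx).differentiableAt.hasDerivAt
    have d2 := (han x hx).deriv.differentiableAt.hasDerivAt
    have c0 := HD.conj d0
    have c1 := HD.conj d1
    have n1 := c0.add ((HD.of_hasDerivAt d2).mul c1)
    have n2 := ((HD.of_hasDerivAt (hasDerivAt_const x (1 : ℂ))).add
      ((HD.of_hasDerivAt d0).mul c0)).add ((HD.of_hasDerivAt d1).mul c1)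
    refine (n1.mul (n2.inv (hN0 x))).congr_val ?_
    have e2 : ((nsq (0, 1, deriv g x) : ℝ) : ℂ) = 1 + deriv g x * conj (deriv g x) := by
      rw [mul_conj, normSq_eq_norm_sq]; simp [nsq]
    have e3 : ((‖herm (0, 1, deriv g x) (1, x, g x)‖ : ℝ) : ℂ) ^ 2 =
        (conj x + deriv g x * conj (g x)) * (x + conj (deriv g x) * g x) := by
      rw [← ofReal_pow, ← normSq_eq_norm_sq, ← mul_conj]
      simp [herm]
    rw [lam, spd_sq]
    push_cast
    rw [e2, e3, ← hN]
    have := hN0 x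
    simp only [map_one]
    field_simp
    ring
  simp_rw [e1] at k
  rw [k, by_parts h hc hD hs hV hW]
  simp only [ofReal_re]
  have e4 : ∫ x, ψ x * (2 * lam x (g x) (deriv g x) ^ 2) =
      2 * ∫ x, ψ x * lam x (g x) (deriv g x) ^ 2 := by
    rw [← integral_const_mul]
    exact integral_congr_ae (Eventually.of_forall fun x => by ring)
  rw [e4]
  have := Real.pi_pos
  field_simp

end Pool.Agent.P.MP_a3b544_ag.F2
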