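import Pool.Agent.P.MP_a3b544_ag.F2.Glob

/-! Cutoff functions. -/

namespace Pool.Agent.P.MP_a3b544_ag.F2

open scoped ENNReal NNReal Topology
open Set MeasureTheory Filter Metric

/-- Projection to the unit interval. -/
noncomputable def clamp (r : ℝ) : ℝ := max 0 (min 1 r)

lemma clamp_nonneg (r : ℝ) : 0 ≤ clamp r := le_max_left _ _

lemma clamp_le (r : ℝ) : clamp r ≤ 1 := max_le zero_le_one (min_le_left _ _)

lemma clamp_one {r : ℝ} (h : 1 ≤ r) : clamp r = 1 := by simp [clamp, h]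

lemma clamp_zero {r : ℝ} (h : r ≤ 0) : clamp r = 0 := max_eq_left ((min_le_right _ _).trans h)

lemma clamp_sub (r s : ℝ) : |clamp r - clamp s| ≤ |r - s| := by
  have h1 := abs_max_sub_max_le_abs (min 1 r) (min 1 s) 0
  have h2 := abs_min_sub_min_le_max 1 r 1 s
  simp only [sub_self, abs_zero] at h2
  rw [max_eq_right (abs_nonneg _)] at h2
  rw [clamp, clamp, max_comm 0, max_comm 0]
  exact h1.trans h2

lemma clamp_lip : LipschitzWith 1 clamp := LipschitzWith.of_dist_le_mul fun r s => by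
  simpa [Real.dist_eq] using clamp_sub r s

/-- Equal to one up to `s` and to zero from `t` on. -/
noncomputable def ramp (s t r : ℝ) : ℝ := clamp ((t - r) / (t - s))

lemma ramp_one {s t r : ℝ} (h : s < t) (hr : r ≤ s) : ramp s t r = 1 :=
  clamp_one (by rw [le_div_iff₀ (by linarith)]; linarith)

lemma ramp_zero {s t r : ℝ} (h : s < t) (hr : t ≤ r) : ramp s t r = 0 :=
  clamp_zero (div_nonpos_of_nonpos_of_nonneg (by linarith) (by linarith))

lemma ramp_sub {s t : ℝ} (h : s < t) (r r' : ℝ) :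
    |ramp s t r - ramp s t r'| ≤ (t - s)⁻¹ * |r - r'| := by
  refine (clamp_sub _ _).trans (le_of_eq ?_)
  rw [← sub_div, abs_div, abs_of_pos (sub_pos.2 h), div_eq_inv_mul, abs_sub_comm r r']
  congr 2; ring

lemma lipAt_ramp (s t r : ℝ) : LipAt (ramp s t) r := by
  have h : ContDiffAt ℝ 1 (fun r : ℝ => (t - r) / (t - s)) r := by fun_prop
  exact LipAt.comp (g := clamp) (f := fun r : ℝ => (t - r) / (t - s))
    (LipAt.of_lip clamp_lip _) h.exists_lipschitzOnWith

lemma LipAt.one_sub {X : Type*} [PseudoMetricSpace X] {f : X → ℝ} {x : X} (hf : LipAt f x) :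
    LipAt (fun y => 1 - f y) x := by
  have h : ContDiffAt ℝ 1 (fun r : ℝ => 1 - r) (f x) := by fun_prop
  exact LipAt.comp (g := fun r : ℝ => 1 - r) h.exists_lipschitzOnWith hf

/-- Pointwise Lipschitz bound. -/
def PLip (f : ℂ → ℝ) (x : ℂ) (l : ℝ) : Prop := ∀ᶠ y in 𝓝 x, |f y - f x| ≤ l * ‖y - x‖

lemma PLip.mul {f g : ℂ → ℝ} {x : ℂ} {l l' : ℝ} (hf : PLip f x l) (hg : PLip g x l')
    (f0 : 0 ≤ f x) (f1 : f x ≤ 1) (g0 : ∀ y, 0 ≤ g y) (g1 : ∀ y, g y ≤ 1) :
    PLip (fun y => f y * g y) x (l + l') := by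
  filter_upwards [hf, hg] with y h1 h2
  have e : f y * g y - f x * g x = (f y - f x) * g y + f x * (g y - g x) := by ring
  rw [e]
  refine (abs_add_le _ _).trans ?_
  rw [abs_mul, abs_mul, abs_of_nonneg f0, abs_of_nonneg (g0 y), add_mul]
  exact add_le_add ((mul_le_of_le_one_right (abs_nonneg _) (g1 y)).trans h1)
    ((mul_le_of_le_one_left (abs_nonneg _) f1).trans h2)

lemma PLip.of_const {f : ℂ → ℝ} {x : ℂ} {c l : ℝ} (h : ∀ᶠ y in 𝓝 x, f y = c) (hl : 0 ≤ l) :
    PLip f x l := by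
  filter_upwards [h] with y hy
  rw [hy, h.self_of_nhds, sub_self, abs_zero]; positivity

lemma PLip.gam_le {f : ℂ → ℝ} {x : ℂ} {l : ℝ} (h : PLip f x l) (hl : 0 ≤ l) : ‖gam f x‖ ≤ l :=
  (norm_gam_le f x).trans (norm_fderiv_le_of_lip' ℝ hl h)

/-- Cutoff near `Z` and near infinity. -/
noncomputable def cut (Z : Set ℂ) (ε : ℝ) (x : ℂ) : ℝ :=
  clamp (infDist x Z / ε - 1) * clamp (2 - ε * ‖x‖)

/-- A compact set containing the support of the cutoff. -/
def core (Z : Set ℂ) (ε : ℝ) : Set ℂ := {x | ε ≤ infDist x Z ∧ ε * ‖x‖ ≤ 2}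

variable {Z : Set ℂ} {ε : ℝ}

lemma cut_nonneg (Z : Set ℂ) (ε : ℝ) (x : ℂ) : 0 ≤ cut Z ε x :=
  mul_nonneg (clamp_nonneg _) (clamp_nonneg _)

lemma cut_le (Z : Set ℂ) (ε : ℝ) (x : ℂ) : cut Z ε x ≤ 1 :=
  mul_le_one₀ (clamp_le _) (clamp_nonneg _) (clamp_le _)

lemma cut_one (hε : 0 < ε) {x : ℂ} (h1 : 2 * ε ≤ infDist x Z) (h2 : ε * ‖x‖ ≤ 1) :
    cut Z ε x = 1 := by
  rw [cut, clamp_one, clamp_one (by linarith), mul_one]
  rw [le_sub_iff_add_le, le_div_iff₀ hε]; linarith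

lemma cut_zero (hε : 0 < ε) {x : ℂ} (h : infDist x Z ≤ ε ∨ 2 ≤ ε * ‖x‖) : cut Z ε x = 0 := by
  rcases h with h | h
  · rw [cut, clamp_zero, zero_mul]
    rw [sub_nonpos, div_le_one hε]; exact h
  · rw [cut, clamp_zero (r := 2 - _) (by linarith), mul_zero]

lemma cut_of_notMem (hε : 0 < ε) {x : ℂ} (h : x ∉ core Z ε) : cut Z ε x = 0 := by
  refine cut_zero hε ?_
  rcases not_and_or.1 h with h | h
  · exact Or.inl (not_le.1 h).le
  · exact Or.inr (not_le.1 h).le

lemma isCompact_core (hε : 0 < ε) : IsCompact (core Z ε) := by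
  refine (isCompact_closedBall (0 : ℂ) (2 / ε)).of_isClosed_subset ?_ fun x hx => ?_
  · exact (isClosed_le continuous_const (continuous_infDist_pt Z)).inter
      (isClosed_le (f := fun x : ℂ => ε * ‖x‖) (by fun_prop) continuous_const)
  · rw [mem_closedBall_zero_iff, le_div_iff₀ hε, mul_comm]; exact hx.2

lemma core_notMem (hε : 0 < ε) : ∀ x ∈ core Z ε, x ∉ Z := fun x hx h => by
  have := hx.1
  rw [infDist_zero_of_mem h] at this
  linarith

lemma lipAt_cut (Z : Set ℂ) (ε : ℝ) (x : ℂ) : LipAt (cut Z ε) x := by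
  have h1 : ContDiffAt ℝ 1 (fun r : ℝ => r / ε - 1) (infDist x Z) := by fun_prop
  have h2 : ContDiffAt ℝ 1 (fun r : ℝ => 2 - ε * r) ‖x‖ := by fun_prop
  exact (LipAt.comp (LipAt.of_lip clamp_lip _) (LipAt.comp (g := fun r : ℝ => r / ε - 1)
    (f := fun y => infDist y Z) h1.exists_lipschitzOnWith
    (LipAt.of_lip (lipschitz_infDist_pt Z) x))).mul
    (LipAt.comp (LipAt.of_lip clamp_lip _) (LipAt.comp (g := fun r : ℝ => 2 - ε * r)
      (f := fun y : ℂ => ‖y‖) h2.exists_lipschitzOnWith (LipAt.of_lip lipschitzWith_one_norm x)))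

lemma eventually_cut (hZ : Z.Finite) (hne : Z.Nonempty) {x : ℂ} (hx : x ∉ Z) :
    ∀ᶠ ε in 𝓝[>] (0 : ℝ), cut Z ε x = 1 ∧ cut Z (2 * ε) x = 1 := by
  have h0 : 0 < infDist x Z := (hZ.isClosed.notMem_iff_infDist_pos hne).1 hx
  have h1 : ∀ᶠ ε in 𝓝 (0 : ℝ), 4 * ε < infDist x Z :=
    (Continuous.continuousAt (by fun_prop)).eventually_lt continuousAt_const (by simpa using h0)
  have h2 : ∀ᶠ ε in 𝓝 (0 : ℝ), 2 * ε * ‖x‖ < 1 :=
    (Continuous.continuousAt (by fun_prop)).eventually_lt continuousAt_const (by simp)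
  filter_upwards [nhdsWithin_le_nhds h1, nhdsWithin_le_nhds h2, self_mem_nhdsWithin]
    with ε a1 a2 a3
  have a4 : 0 < ε := a3
  have a5 := mul_nonneg a4.le (norm_nonneg x)
  exact ⟨cut_one a4 (by linarith) (by linarith), cut_one (by linarith) (by linarith) a2.le⟩

/-- Majorant of the squared gradient of the cutoff. -/
noncomputable def maj (S : Finset ℂ) (ε : ℝ) (x : ℂ) : ℝ :=
  ∑ ζ ∈ S, (closedBall ζ (2 * ε)).indicator (fun _ => 2 * ε⁻¹ ^ 2) x +
    (closedBall 0 (2 / ε)).indicator (fun _ => 2 * ε ^ 2) x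

lemma maj_nonneg (S : Finset ℂ) (ε : ℝ) (x : ℂ) : 0 ≤ maj S ε x :=
  add_nonneg (Finset.sum_nonneg fun _ _ => indicator_nonneg (fun _ _ => by positivity) _)
    (indicator_nonneg (fun _ _ => by positivity) _)

lemma integral_ball (c : ℂ) {r : ℝ} (hr : 0 ≤ r) (e : ℝ) :
    Integrable ((closedBall c r).indicator fun _ => e) ∧
      ∫ x, (closedBall c r).indicator (fun _ => e) x = Real.pi * r ^ 2 * e := by
  refine ⟨(integrable_indicator_iff measurableSet_closedBall).2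
    (integrableOn_const measure_closedBall_lt_top.ne), ?_⟩
  rw [integral_indicator_const _ measurableSet_closedBall, Measure.real, Complex.volume_closedBall]
  simp [ENNReal.toReal_ofReal hr, mul_comm]

lemma integral_maj (S : Finset ℂ) (hε : 0 < ε) :
    Integrable (maj S ε) ∧ ∫ x, maj S ε x = 8 * Real.pi * (S.card + 1) := by
  have i1 := fun ζ : ℂ => integral_ball ζ (r := 2 * ε) (by positivity) (2 * ε⁻¹ ^ 2)
  have i2 := integral_ball 0 (r := 2 / ε) (by positivity) (2 * ε ^ 2)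
  have i3 := integrable_finsetSum S fun ζ _ => (i1 ζ).1
  refine ⟨i3.add i2.1, ?_⟩
  unfold maj
  rw [integral_add i3 i2.1, integral_finsetSum S fun ζ _ => (i1 ζ).1, i2.2]
  simp only [fun ζ => (i1 ζ).2, Finset.sum_const, nsmul_eq_mul]
  field_simp
  ring

lemma cut_plip (hZ : Z.Finite) (hne : Z.Nonempty) (hε : 0 < ε) {x : ℂ} (hx : x ∈ core Z ε) :
    ∃ l : ℝ, 0 ≤ l ∧ PLip (cut Z ε) x l ∧ l ^ 2 ≤ maj hZ.toFinset ε x ∧
      (l ≠ 0 → cut Z (2 * ε) x = 0) := by
  obtain ⟨l₁, a0, a1, a2, a3⟩ : ∃ l : ℝ, 0 ≤ l ∧ PLip (fun y => clamp (infDist y Z / ε - 1)) x l ∧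
      2 * l ^ 2 ≤ ∑ ζ ∈ hZ.toFinset, (closedBall ζ (2 * ε)).indicator (fun _ => 2 * ε⁻¹ ^ 2) x ∧
      (l ≠ 0 → cut Z (2 * ε) x = 0) := by
    by_cases h : infDist x Z ≤ 2 * ε
    · refine ⟨ε⁻¹, by positivity, Eventually.of_forall fun y => ?_, ?_,
        fun _ => cut_zero (by positivity) (Or.inl h)⟩
      · refine (clamp_sub _ _).trans ?_
        have := (lipschitz_infDist_pt Z).dist_le_mul y x
        rw [Real.dist_eq, dist_eq_norm, NNReal.coe_one, one_mul] at this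
        rw [sub_sub_sub_cancel_right, ← sub_div, abs_div, abs_of_pos hε, div_eq_inv_mul]
        gcongr
      · obtain ⟨ζ, hζ, e⟩ := hZ.isCompact.exists_infDist_eq_dist hne x
        refine le_trans (le_of_eq ?_) (Finset.single_le_sum
          (f := fun ζ => (closedBall ζ (2 * ε)).indicator (fun _ => 2 * ε⁻¹ ^ 2) x)
          (fun _ _ => indicator_nonneg (fun _ _ => by positivity) _) (hZ.mem_toFinset.2 hζ))
        rw [indicator_of_mem (by rwa [mem_closedBall, ← e])]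
    · refine ⟨0, le_rfl, PLip.of_const (c := 1) ?_ le_rfl, ?_, fun h => absurd rfl h⟩
      · filter_upwards [continuousAt_const.eventually_lt (continuous_infDist_pt Z).continuousAt
          (not_le.1 h)] with y hy
        apply clamp_one
        rw [le_sub_iff_add_le, le_div_iff₀ hε]; linarith
      · simpa using Finset.sum_nonneg fun _ _ => indicator_nonneg (fun _ _ => by positivity) _
  obtain ⟨l₂, b0, b1, b2, b3⟩ : ∃ l : ℝ, 0 ≤ l ∧ PLip (fun y => clamp (2 - ε * ‖y‖)) x l ∧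
      l ≤ ε ∧ (l ≠ 0 → cut Z (2 * ε) x = 0) := by
    by_cases h : 1 ≤ ε * ‖x‖
    · refine ⟨ε, hε.le, Eventually.of_forall fun y => ?_, le_rfl,
        fun _ => cut_zero (by positivity) (Or.inr (by linarith))⟩
      refine (clamp_sub _ _).trans ?_
      rw [sub_sub_sub_cancel_left, ← mul_sub, abs_mul, abs_of_pos hε, abs_sub_comm]
      gcongr
      exact abs_norm_sub_norm_le y x
    · refine ⟨0, le_rfl, PLip.of_const (c := 1) ?_ le_rfl, hε.le, fun h => absurd rfl h⟩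
      have hc : ContinuousAt (fun y : ℂ => ε * ‖y‖) x := Continuous.continuousAt (by fun_prop)
      filter_upwards [hc.eventually_lt continuousAt_const (not_le.1 h)] with y hy
      exact clamp_one (by linarith)
  refine ⟨l₁ + l₂, by positivity, a1.mul b1 (clamp_nonneg _) (clamp_le _)
    (fun _ => clamp_nonneg _) (fun _ => clamp_le _), ?_, fun h => ?_⟩
  · rw [maj, indicator_of_mem (by rw [mem_closedBall_zero_iff, le_div_iff₀ hε, mul_comm]; exact hx.2)]
    nlinarith [sq_nonneg (l₁ - l₂), pow_le_pow_left₀ b0 b2 2]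
  · by_cases h1 : l₁ = 0
    · exact b3 fun h2 => h (by rw [h1, h2, add_zero])
    · exact a3 h1

end Pool.Agent.P.MP_a3b544_ag.F2
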