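import Pool.Agent.P.MP_a3b544_ag.F2.Cut

/-! The isoperimetric inequality modulo one and the abstract bound. -/

namespace Pool.Agent.P.MP_a3b544_ag.F2

open scoped ENNReal NNReal Topology
open Set MeasureTheory Filter Metric

variable {C : Set (ℂ × ℂ)} {Z : Set ℂ} {d : ℕ} {ρ : ℂ × ℂ → ℝ}

lemma fs_eq (hC : Nice C Z) (F : ℂ × ℂ → ℝ) (x : ℂ) :
    fs C Z F x = ∑ v ∈ (fb_finite hC x).toFinset, F (x, v) :=
  finsum_mem_eq_finite_toFinset_sum _ _

lemma cn_eq {a : A3} (h : (tz C Z a).Finite) (φ : ℂ × ℂ → ℝ) :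
    cn C Z φ a = ∑ u ∈ h.toFinset, φ u := finsum_mem_eq_finite_toFinset_sum _ _

lemma cn_bound {a : A3} (h : (tz C Z a).Finite ∧ (tz C Z a).ncard ≤ d) {φ : ℂ × ℂ → ℝ}
    (h0 : ∀ u, 0 ≤ φ u) (h1 : ∀ u, φ u ≤ 1) : 0 ≤ cn C Z φ a ∧ cn C Z φ a ≤ d := by
  rw [cn_eq h.1]
  refine ⟨Finset.sum_nonneg fun u _ => h0 u, (Finset.sum_le_sum fun u _ => h1 u).trans ?_⟩
  rw [Finset.sum_const, nsmul_eq_mul, mul_one, ← ncard_eq_toFinset_card _ h.1]
  exact_mod_cast h.2

lemma LL.comp {φ : ℂ × ℂ → ℝ} (h : LL C Z φ) {f : ℝ → ℝ} (hf : ∀ r, LipAt f r) :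
    LL C Z fun u => f (φ u) := fun u hu hZ =>
  LipAt.comp (g := f) (f := fun y => φ (y, br C u y)) (hf _) (h u hu hZ)

lemma LL.mul {φ φ' : ℂ × ℂ → ℝ} (h : LL C Z φ) (h' : LL C Z φ') : LL C Z fun u => φ u * φ' u :=
  fun u hu hZ => (h u hu hZ).mul (h' u hu hZ)

lemma LL.fst {χ : ℂ → ℝ} (h : ∀ x, LipAt χ x) : LL C Z fun u => χ u.1 := fun _ _ _ => h _

/-- The standing hypotheses. -/
structure Ctx (C : Set (ℂ × ℂ)) (Z : Set ℂ) (d : ℕ) (ρ : ℂ × ℂ → ℝ) : Prop where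
  gf : GaussFacts
  nice : Nice C Z
  ne : Z.Nonempty
  fib : ∀ x, ∃ S : Finset ℂ, S.card ≤ d ∧ ∀ v, (x, v) ∈ C → v ∈ S
  fin : ∀ᵐ a ∂gauss, (tz C Z a).Finite ∧ (tz C Z a).ncard ≤ d
  lip : ∀ u ∈ C, u.1 ∉ Z → ∀ K : ℝ≥0, lm C u < K →
    ∃ t ∈ 𝓝 u.1, LipschitzOnWith K (fun x => ρ (x, br C u x)) t

lemma Ctx.ll (H : Ctx C Z d ρ) : LL C Z ρ := fun u hu hZ =>
  ⟨_, H.lip u hu hZ ⟨lm C u + 1, add_nonneg (lam_nonneg _ _ _) zero_le_one⟩ (lt_add_one _)⟩

lemma Ctx.good (H : Ctx C Z d ρ) {φ : ℂ × ℂ → ℝ} (hφ : LL C Z φ) {ε : ℝ} (hε : 0 < ε) :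
    Good C Z fun u => φ u * cut Z ε u.1 :=
  (hφ.mul (LL.fst (lipAt_cut Z ε))).good H.gf H.nice (H.fin.mono fun _ h => h.1)
    (isCompact_core hε) (core_notMem hε) fun u _ hu => by rw [cut_of_notMem hε hu, mul_zero]

lemma Ctx.ev (H : Ctx C Z d ρ) {a : A3} (h : (tz C Z a).Finite) :
    ∀ᶠ ε in 𝓝[>] (0 : ℝ), ∀ u ∈ tz C Z a, cut Z ε u.1 = 1 ∧ cut Z (2 * ε) u.1 = 1 :=
  (eventually_all_finite h).2 fun _ hu => eventually_cut H.nice.finZ H.ne hu.2.1

lemma Ctx.ev_cn (H : Ctx C Z d ρ) (φ : ℂ × ℂ → ℝ) {a : A3} (h : (tz C Z a).Finite) :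
    ∀ᶠ ε in 𝓝[>] (0 : ℝ), cn C Z φ a = cn C Z (fun u => φ u * cut Z ε u.1) a :=
  (H.ev h).mono fun _ hε => finsum_mem_congr rfl fun u hu => by rw [(hε u hu).1, mul_one]

lemma Ctx.aem (H : Ctx C Z d ρ) {φ : ℂ × ℂ → ℝ} (hφ : LL C Z φ) :
    AEStronglyMeasurable (cn C Z φ) gauss := by
  have t : Tendsto (fun n : ℕ => 1 / ((n : ℝ) + 1)) atTop (𝓝[>] 0) :=
    tendsto_nhdsWithin_iff.2 ⟨tendsto_one_div_add_atTop_nhds_zero_nat,
      Eventually.of_forall fun n => show (0 : ℝ) < _ by positivity⟩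
  refine aestronglyMeasurable_of_tendsto_ae atTop
    (f := fun n : ℕ => cn C Z fun u => φ u * cut Z (1 / ((n : ℝ) + 1)) u.1)
    (fun n => (H.good hφ (by positivity)).int.aestronglyMeasurable) ?_
  filter_upwards [H.fin] with a ha
  exact tendsto_const_nhds.congr' (t.eventually (H.ev_cn φ ha.1))

lemma Ctx.int (H : Ctx C Z d ρ) {φ : ℂ × ℂ → ℝ} (hφ : AEStronglyMeasurable (cn C Z φ) gauss)
    (h0 : ∀ u, 0 ≤ φ u) (h1 : ∀ u, φ u ≤ 1) : Integrable (cn C Z φ) gauss := by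
  have := H.gf.prob
  refine (integrable_const (d : ℝ)).mono' hφ (H.fin.mono fun a ha => ?_)
  rw [Real.norm_of_nonneg (cn_bound ha h0 h1).1]
  exact (cn_bound ha h0 h1).2

/-- Indicator of a ball. -/
noncomputable def ind (ρ : ℂ × ℂ → ℝ) (t : ℝ) (u : ℂ × ℂ) : ℝ := if ρ u < t then 1 else 0

lemma ind_nonneg (t : ℝ) (u : ℂ × ℂ) : 0 ≤ ind ρ t u := by unfold ind; split_ifs <;> norm_num

lemma ind_le (t : ℝ) (u : ℂ × ℂ) : ind ρ t u ≤ 1 := by unfold ind; split_ifs <;> norm_num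

lemma Ctx.int_ind (H : Ctx C Z d ρ) (t : ℝ) : Integrable (cn C Z (ind ρ t)) gauss := by
  refine H.int ?_ (ind_nonneg t) (ind_le t)
  refine aestronglyMeasurable_of_tendsto_ae atTop
    (f := fun n : ℕ => cn C Z fun u => ramp (t - 1 / ((n : ℝ) + 1)) t (ρ u))
    (fun n => H.aem (H.ll.comp (lipAt_ramp _ _))) ?_
  filter_upwards [H.fin] with a ha
  refine tendsto_const_nhds.congr' ?_
  have : ∀ᶠ n : ℕ in atTop, ∀ u ∈ tz C Z a, ind ρ t u = ramp (t - 1 / ((n : ℝ) + 1)) t (ρ u) := by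
    refine (eventually_all_finite ha.1).2 fun u _ => ?_
    have p : ∀ n : ℕ, t - 1 / ((n : ℝ) + 1) < t := fun n => sub_lt_self _ (by positivity)
    by_cases h : ρ u < t
    · filter_upwards [tendsto_one_div_add_atTop_nhds_zero_nat.eventually
        (gt_mem_nhds (sub_pos.2 h))] with n hn
      rw [ind, if_pos h, ramp_one (p n) (by linarith)]
    · exact Eventually.of_forall fun n => by rw [ind, if_neg h, ramp_zero (p n) (not_lt.1 h)]
  exact this.mono fun n hn => finsum_mem_congr rfl hn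

/-- Mean number of intersection points in a ball. -/
noncomputable def mm (C : Set (ℂ × ℂ)) (Z : Set ℂ) (ρ : ℂ × ℂ → ℝ) (t : ℝ) : ℝ :=
  ∫ a, cn C Z (ind ρ t) a ∂gauss

/-- A bump equal to one on `[s, t]` and supported in `[s', t']`. -/
noncomputable def bump (s' s t t' r : ℝ) : ℝ := (1 - ramp s' s r) * ramp t t' r

lemma bump_nonneg (s' s t t' r : ℝ) : 0 ≤ bump s' s t t' r :=
  mul_nonneg (sub_nonneg.2 (clamp_le _)) (clamp_nonneg _)

lemma lipAt_bump (s' s t t' r : ℝ) : LipAt (bump s' s t t') r :=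
  (lipAt_ramp s' s r).one_sub.mul (lipAt_ramp t t' r)

lemma bump_one {s' s t t' r : ℝ} (h1 : s' < s) (h2 : t < t') (a : s ≤ r) (b : r ≤ t) :
    bump s' s t t' r = 1 := by rw [bump, ramp_zero h1 a, ramp_one h2 b]; norm_num

lemma Ctx.bump_le (H : Ctx C Z d ρ) {s' s t t' ε : ℝ} (h1 : s' < s) (h2 : t < t') (h3 : s' ≤ t')
    (hε : 0 < ε) :
    ∫ a, cn C Z (fun u => bump s' s t t' (ρ u) * cut Z ε u.1) a ∂gauss ≤
      mm C Z ρ t' - mm C Z ρ s' := by
  rw [mm, mm, ← integral_sub (H.int_ind t') (H.int_ind s')]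
  refine integral_mono_ae (H.good (H.ll.comp (lipAt_bump _ _ _ _)) hε).int
    ((H.int_ind t').sub (H.int_ind s')) (H.fin.mono fun a ha => ?_)
  simp only [cn_eq ha.1, ← Finset.sum_sub_distrib]
  refine Finset.sum_le_sum fun u _ =>
    (mul_le_of_le_one_right (bump_nonneg _ _ _ _ _) (cut_le _ _ _)).trans ?_
  by_cases a1 : ρ u < s'
  · rw [bump, ramp_one h1 a1.le, ind, ind, if_pos a1, if_pos (a1.trans_le h3)]; norm_num
  · by_cases a2 : ρ u < t'
    · rw [ind, ind, if_pos a2, if_neg a1, sub_zero]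
      exact mul_le_one₀ (sub_le_self _ (clamp_nonneg _)) (clamp_nonneg _) (clamp_le _)
    · rw [bump, ramp_zero h2 (not_lt.1 a2), ind, ind, if_neg a1, if_neg a2]; norm_num

lemma Ctx.gm_le (H : Ctx C Z d ρ) {s' s t t' ε κ : ℝ} (h1 : s' < s) (h : s < t) (h2 : t < t')
    (hε : 0 < ε) (hκ : 0 < κ) {u : ℂ × ℂ} (hu : u ∈ C) (hZ : u.1 ∉ Z) :
    ‖gm C (fun u => ramp s t (ρ u) * cut Z ε u.1) u‖ * lm C u ≤
      (t - s)⁻¹ * (bump s' s t t' (ρ u) * cut Z (ε / 2) u.1 * lm C u ^ 2) +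
        κ / 2 * maj H.nice.finZ.toFinset ε u.1 +
        (2 * κ)⁻¹ * ((1 - cut Z (2 * ε) u.1) * cut Z (ε / 2) u.1 * lm C u ^ 2) := by
  have p0 : 0 < t - s := sub_pos.2 h
  have p1 := bump_nonneg s' s t t' (ρ u)
  have p2 := cut_nonneg Z (ε / 2) u.1
  have p3 := maj_nonneg H.nice.finZ.toFinset ε u.1
  have p4 := sub_nonneg.2 (cut_le Z (2 * ε) u.1)
  have p5 : 0 ≤ lm C u := lam_nonneg _ _ _
  by_cases hx : u.1 ∈ core Z ε
  swap
  · have e : (fun y => ramp s t (ρ (y, br C u y)) * cut Z ε y) =ᶠ[𝓝 u.1] fun _ => 0 := by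
      filter_upwards [(isCompact_core hε).isClosed.isOpen_compl.mem_nhds hx] with y hy
      rw [cut_of_notMem hε hy, mul_zero]
    have e2 : gm C (fun u => ramp s t (ρ u) * cut Z ε u.1) u = 0 := by
      rw [gm, gam_congr e]; simp [gam]
    rw [e2, norm_zero, zero_mul]
    positivity
  have c1 : cut Z (ε / 2) u.1 = 1 := cut_one (by positivity) (by linarith [hx.1]) (by linarith [hx.2])
  obtain ⟨l, l0, l1, l2, l3⟩ := cut_plip H.nice.finZ H.ne hε hx
  have hb := br_self H.nice hu hZ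
  have key : ‖gm C (fun u => ramp s t (ρ u) * cut Z ε u.1) u‖ ≤
      (t - s)⁻¹ * bump s' s t t' (ρ u) * lm C u + l := by
    have k : ∀ K : ℝ, lm C u < K → ‖gm C (fun u => ramp s t (ρ u) * cut Z ε u.1) u‖ ≤
        (t - s)⁻¹ * bump s' s t t' (ρ u) * K + l := by
      intro K hK
      have K0 : 0 ≤ K := p5.trans hK.le
      have a : PLip (fun y => ramp s t (ρ (y, br C u y))) u.1
          ((t - s)⁻¹ * bump s' s t t' (ρ u) * K) := by
        have hc := (H.ll u hu hZ).continuousAt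
        by_cases b1 : ρ u < s
        · refine PLip.of_const (c := 1) ?_ (by positivity)
          filter_upwards [hc.eventually_lt continuousAt_const (by simpa [hb] using b1)] with y hy
          exact ramp_one h hy.le
        by_cases b2 : t < ρ u
        · refine PLip.of_const (c := 0) ?_ (by positivity)
          filter_upwards [continuousAt_const.eventually_lt hc (by simpa [hb] using b2)] with y hy
          exact ramp_zero h hy.le
        obtain ⟨T, hT, hl⟩ := H.lip u hu hZ ⟨K, K0⟩ hK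
        filter_upwards [hT] with y hy
        refine (ramp_sub h _ _).trans ?_
        have := hl.dist_le_mul y hy u.1 (mem_of_mem_nhds hT)
        rw [Real.dist_eq, dist_eq_norm] at this
        rw [bump_one h1 h2 (not_lt.1 b1) (not_lt.1 b2), mul_one, mul_assoc]
        gcongr
        exact this
      exact (a.mul l1 (clamp_nonneg _) (clamp_le _) (cut_nonneg _ _) (cut_le _ _)).gam_le
        (by positivity)
    have t1 : Tendsto (fun K : ℝ => (t - s)⁻¹ * bump s' s t t' (ρ u) * K + l) (𝓝[>] (lm C u))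
        (𝓝 ((t - s)⁻¹ * bump s' s t t' (ρ u) * lm C u + l)) :=
      (Continuous.tendsto (by fun_prop) _).mono_left nhdsWithin_le_nhds
    exact ge_of_tendsto t1 (eventually_nhdsWithin_of_forall k)
  have am : l * lm C u ≤ κ / 2 * maj H.nice.finZ.toFinset ε u.1 +
      (2 * κ)⁻¹ * ((1 - cut Z (2 * ε) u.1) * 1 * lm C u ^ 2) := by
    by_cases hl : l = 0
    · rw [hl, zero_mul]; positivity
    · rw [l3 hl]
      have e : κ / 2 * l ^ 2 + (2 * κ)⁻¹ * lm C u ^ 2 - l * lm C u =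
          (2 * κ)⁻¹ * (κ * l - lm C u) ^ 2 := by field_simp; ring
      have e2 : 0 ≤ (2 * κ)⁻¹ * (κ * l - lm C u) ^ 2 := by positivity
      have e3 := mul_le_mul_of_nonneg_left l2 (by positivity : 0 ≤ κ / 2)
      simp only [sub_zero, one_mul]
      linarith
  rw [c1]
  have := mul_le_mul_of_nonneg_right key p5
  nlinarith

lemma Ctx.cov_cut (H : Ctx C Z d ρ) {s' s t t' ε κ : ℝ} (h1 : s' < s) (h : s < t) (h2 : t < t')
    (hε : 0 < ε) (hκ : 0 < κ) {w : A3 → ℝ} (hw : AEStronglyMeasurable w gauss)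
    (hw1 : ∀ a, |w a| ≤ 1) {σ : ℝ} (hσ : 0 ≤ σ)
    (hcov : ∀ z v : A3, z ≠ 0 → |bet w z v| ≤ σ * spd z v) :
    ∫ a, w a * cn C Z (fun u => ramp s t (ρ u) * cut Z ε u.1) a ∂gauss ≤
      σ * ((mm C Z ρ t' - mm C Z ρ s') / (2 * (t - s)) +
        κ * (2 * d * (H.nice.finZ.toFinset.card + 1)) + (4 * κ)⁻¹ *
        ∫ a, cn C Z (fun u => (1 - cut Z (2 * ε) u.1) * cut Z (ε / 2) u.1) a ∂gauss) := by
  have p0 : 0 < t - s := sub_pos.2 h
  have pp := Real.pi_pos
  obtain ⟨-, g2, g3⟩ := (H.good (H.ll.comp (lipAt_ramp s t)) hε).fub w hw hw1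
  obtain ⟨b1, b2⟩ := (H.good (H.ll.comp (lipAt_bump s' s t t')) (half_pos hε)).crof
  obtain ⟨c1, c2⟩ := (H.good (LL.fst fun x => (lipAt_cut Z (2 * ε) x).one_sub) (half_pos hε)).crof
  obtain ⟨m1, m2⟩ := integral_maj H.nice.finZ.toFinset hε
  have b3 := H.bump_le h1 h2 (by linarith) (half_pos hε)
  set B := fs C Z fun u => bump s' s t t' (ρ u) * cut Z (ε / 2) u.1 * lm C u ^ 2 with hB
  set X := fs C Z fun u => (1 - cut Z (2 * ε) u.1) * cut Z (ε / 2) u.1 * lm C u ^ 2 with hX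
  have pt : ∀ x, -fs C Z (dens C w fun u => ramp s t (ρ u) * cut Z ε u.1) x ≤
      σ * ((t - s)⁻¹ * B x + d * (κ / 2) * maj H.nice.finZ.toFinset ε x + (2 * κ)⁻¹ * X x) := by
    intro x
    have hc : ((fb_finite H.nice x).toFinset.card : ℝ) ≤ d := by
      obtain ⟨S, hS, hS'⟩ := H.fib x
      exact_mod_cast (Finset.card_le_card fun v hv =>
        hS' v ((fb_finite H.nice x).mem_toFinset.1 hv).1).trans hS
    simp only [hB, hX, fs_eq H.nice]
    rw [← Finset.sum_neg_distrib]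
    refine (Finset.sum_le_sum fun v hv => ?_).trans (?_ : ∑ v ∈ (fb_finite H.nice x).toFinset, σ *
      ((t - s)⁻¹ * (bump s' s t t' (ρ (x, v)) * cut Z (ε / 2) x * lm C (x, v) ^ 2) +
        κ / 2 * maj H.nice.finZ.toFinset ε x +
        (2 * κ)⁻¹ * ((1 - cut Z (2 * ε) x) * cut Z (ε / 2) x * lm C (x, v) ^ 2)) ≤ _)
    · have hv' := (fb_finite H.nice x).mem_toFinset.1 hv
      refine (neg_le_abs _).trans ((hcov _ _ (one_ne_zero3 _ _)).trans ?_)
      rw [spd_smul]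
      exact mul_le_mul_of_nonneg_left (H.gm_le h1 h h2 hε hκ (u := (x, v)) hv'.1 hv'.2) hσ
    · rw [← Finset.mul_sum, Finset.sum_add_distrib, Finset.sum_add_distrib, ← Finset.mul_sum,
        ← Finset.mul_sum _ _ (2 * κ)⁻¹, Finset.sum_const, nsmul_eq_mul, mul_assoc (d : ℝ)]
      have := maj_nonneg H.nice.finZ.toFinset ε x
      gcongr
  have i1 : Integrable fun x => (t - s)⁻¹ * B x + d * (κ / 2) * maj H.nice.finZ.toFinset ε x :=
    (b1.const_mul (t - s)⁻¹).add (m1.const_mul (d * (κ / 2)))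
  have k := integral_mono g2.neg ((i1.add (c1.const_mul (2 * κ)⁻¹)).const_mul σ) pt
  simp only [Pi.neg_apply, Pi.add_apply] at k
  rw [integral_neg, integral_const_mul, integral_add i1 (c1.const_mul _),
    integral_add (b1.const_mul _) (m1.const_mul _), integral_const_mul, integral_const_mul,
    integral_const_mul, m2] at k
  rw [g3, c2]
  rw [b2] at b3
  have b4 : ∫ x, B x ≤ Real.pi * (mm C Z ρ t' - mm C Z ρ s') := by
    rwa [inv_mul_le_iff₀ pp] at b3
  calc _ = (2 * Real.pi)⁻¹ * -∫ x, fs C Z (dens C w fun u => ramp s t (ρ u) * cut Z ε u.1) x := by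
        ring
    _ ≤ (2 * Real.pi)⁻¹ * (σ * ((t - s)⁻¹ * (Real.pi * (mm C Z ρ t' - mm C Z ρ s')) +
          d * (κ / 2) * (8 * Real.pi * (H.nice.finZ.toFinset.card + 1)) +
          (2 * κ)⁻¹ * ∫ x, X x)) := by
        refine mul_le_mul_of_nonneg_left (k.trans ?_) (by positivity)
        gcongr
    _ = _ := by field_simp; ring

lemma Ctx.cov (H : Ctx C Z d ρ) {s' s t t' : ℝ} (h1 : s' < s) (h : s < t) (h2 : t < t')
    {w : A3 → ℝ} (hw : AEStronglyMeasurable w gauss)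
    (hw1 : ∀ a, |w a| ≤ 1) {σ : ℝ} (hσ : 0 ≤ σ)
    (hcov : ∀ z v : A3, z ≠ 0 → |bet w z v| ≤ σ * spd z v) :
    ∫ a, w a * cn C Z (fun u => ramp s t (ρ u)) a ∂gauss ≤
      σ * ((mm C Z ρ t' - mm C Z ρ s') / (2 * (t - s))) := by
  have := H.gf.prob
  have t1 : Tendsto (fun ε => ∫ a, w a * cn C Z (fun u => ramp s t (ρ u) * cut Z ε u.1) a ∂gauss)
      (𝓝[>] 0) (𝓝 (∫ a, w a * cn C Z (fun u => ramp s t (ρ u)) a ∂gauss)) := by
    refine tendsto_integral_filter_of_dominated_convergence (fun _ => (d : ℝ)) ?_ ?_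
      (integrable_const _) ?_
    · filter_upwards [self_mem_nhdsWithin] with ε hε
      exact hw.mul (H.good (H.ll.comp (lipAt_ramp s t)) hε).int.aestronglyMeasurable
    · refine Eventually.of_forall fun ε => H.fin.mono fun a ha => ?_
      have b := cn_bound ha (φ := fun u => ramp s t (ρ u) * cut Z ε u.1)
        (fun u => mul_nonneg (clamp_nonneg _) (cut_nonneg _ _ _))
        fun u => mul_le_one₀ (clamp_le _) (cut_nonneg _ _ _) (cut_le _ _ _)
      rw [norm_mul, Real.norm_of_nonneg b.1]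
      exact (mul_le_of_le_one_left b.1 (hw1 a)).trans b.2
    · filter_upwards [H.fin] with a ha
      exact (tendsto_const_nhds.congr' (H.ev_cn _ ha.1)).const_mul _
  have t2 : Tendsto (fun ε =>
      ∫ a, cn C Z (fun u => (1 - cut Z (2 * ε) u.1) * cut Z (ε / 2) u.1) a ∂gauss)
      (𝓝[>] 0) (𝓝 (∫ _a, (0 : ℝ) ∂gauss)) := by
    refine tendsto_integral_filter_of_dominated_convergence (fun _ => (d : ℝ)) ?_ ?_
      (integrable_const _) ?_
    · filter_upwards [self_mem_nhdsWithin] with ε hε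
      exact (H.good (LL.fst fun x => (lipAt_cut Z (2 * ε) x).one_sub)
        (half_pos hε)).int.aestronglyMeasurable
    · refine Eventually.of_forall fun ε => H.fin.mono fun a ha => ?_
      have b := cn_bound ha (φ := fun u => (1 - cut Z (2 * ε) u.1) * cut Z (ε / 2) u.1)
        (fun u => mul_nonneg (sub_nonneg.2 (cut_le _ _ _)) (cut_nonneg _ _ _))
        fun u => mul_le_one₀ (sub_le_self _ (cut_nonneg _ _ _)) (cut_nonneg _ _ _) (cut_le _ _ _)
      rw [Real.norm_of_nonneg b.1]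
      exact b.2
    · filter_upwards [H.fin] with a ha
      refine tendsto_const_nhds.congr' ((H.ev ha.1).mono fun ε hε => ?_)
      exact (finsum_mem_of_eqOn_zero fun u hu => by simp [(hε u hu).2]).symm
  rw [integral_zero] at t2
  have k : ∀ κ : ℝ, 0 < κ → ∫ a, w a * cn C Z (fun u => ramp s t (ρ u)) a ∂gauss ≤
      σ * ((mm C Z ρ t' - mm C Z ρ s') / (2 * (t - s)) +
        κ * (2 * d * (H.nice.finZ.toFinset.card + 1)) + (4 * κ)⁻¹ * 0) := fun κ hκ =>
    le_of_tendsto_of_tendsto t1 (((t2.const_mul _).const_add _).const_mul σ)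
      (eventually_nhdsWithin_of_forall fun ε hε => H.cov_cut h1 h h2 hε hκ hw hw1 hσ hcov)
  simp only [mul_zero, add_zero] at k
  have t3 : Tendsto (fun κ : ℝ => σ * ((mm C Z ρ t' - mm C Z ρ s') / (2 * (t - s)) +
        κ * (2 * d * (H.nice.finZ.toFinset.card + 1)))) (𝓝[>] 0)
      (𝓝 (σ * ((mm C Z ρ t' - mm C Z ρ s') / (2 * (t - s)) +
        0 * (2 * d * (H.nice.finZ.toFinset.card + 1))))) :=
    (Continuous.tendsto (by fun_prop) _).mono_left nhdsWithin_le_nhds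
  rw [zero_mul, add_zero] at t3
  exact ge_of_tendsto t3 (eventually_nhdsWithin_of_forall k)

lemma Ctx.mono (H : Ctx C Z d ρ) : Monotone (mm C Z ρ) := fun s t hst =>
  integral_mono_ae (H.int_ind s) (H.int_ind t) (H.fin.mono fun a ha => by
    simp only [cn_eq ha.1]
    refine Finset.sum_le_sum fun u _ => ?_
    by_cases h : ρ u < s
    · rw [ind, ind, if_pos h, if_pos (h.trans_le hst)]
    · rw [ind, if_neg h]; exact ind_nonneg _ _)

lemma Ctx.strict (H : Ctx C Z d ρ) {s t : ℝ} {u : ℂ × ℂ} (hu : u ∈ C) (hZ : u.1 ∉ Z)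
    (h1 : s < ρ u) (h2 : ρ u < t) : mm C Z ρ s < mm C Z ρ t := by
  obtain ⟨ε, hε1, hε⟩ :=
    ((eventually_cut H.nice.finZ H.ne hZ).and self_mem_nhdsWithin).exists
  have hl := (H.ll.comp (lipAt_bump s (ρ u) (ρ u) t)).mul (LL.fst (lipAt_cut Z ε))
  obtain ⟨c1, c2⟩ := (H.good (H.ll.comp (lipAt_bump s (ρ u) (ρ u) t)) hε).crof
  have b := H.bump_le h1 h2 (h1.trans h2).le hε
  have nn : ∀ w : ℂ × ℂ, 0 ≤ bump s (ρ u) (ρ u) t (ρ w) * cut Z ε w.1 * lm C w ^ 2 := fun w =>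
    mul_nonneg (mul_nonneg (bump_nonneg _ _ _ _ _) (cut_nonneg _ _ _)) (sq_nonneg _)
  have pos : 0 < ∫ x, fs C Z (fun w => bump s (ρ u) (ρ u) t (ρ w) * cut Z ε w.1 * lm C w ^ 2) x := by
    rw [integral_pos_iff_support_of_nonneg (fun x => by
      rw [fs_eq H.nice]; exact Finset.sum_nonneg fun v _ => nn _) c1]
    refine Measure.measure_pos_of_mem_nhds (x := u.1) volume ?_
    have e : (0 : ℝ) < bump s (ρ u) (ρ u) t (ρ (u.1, br C u u.1)) * cut Z ε u.1 := by
      rw [br_self H.nice hu hZ, bump_one h1 h2 le_rfl le_rfl, hε1.1]; norm_num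
    filter_upwards [continuousAt_const.eventually_lt (hl u hu hZ).continuousAt e,
      br_mem H.nice hu hZ, H.nice.finZ.isClosed.isOpen_compl.mem_nhds hZ] with y a1 a2 a3
    refine ne_of_gt ?_
    rw [fs_eq H.nice]
    exact Finset.sum_pos' (fun v _ => nn _) ⟨br C u y, (fb_finite H.nice y).mem_toFinset.2 ⟨a2, a3⟩,
      mul_pos a1 (pow_pos (lam_pos _ _ _) 2)⟩
  have := mul_pos (inv_pos.2 Real.pi_pos) pos
  linarith

lemma Ctx.iso (H : Ctx C Z d ρ) (k : ℕ) {s t : ℝ} : ∃ μ : ℝ, 0 ≤ μ ∧ μ ≤ 1 ∧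
    ∀ h : ℝ, 0 < h → h < t - s → max μ (mm C Z ρ s - k) - μ * (mm C Z ρ t - k) ≤
      √(μ * (1 - μ)) * (mm C Z ρ t - mm C Z ρ s) / (2 * h) := by
  classical
  have := H.gf.prob
  set U : Set A3 := {a | (k : ℝ) + 1 ≤ cn C Z (ind ρ s) a} with hU
  have hUm : NullMeasurableSet U gauss :=
    nullMeasurableSet_le aemeasurable_const (H.int_ind s).aestronglyMeasurable.aemeasurable
  have μ0 : 0 ≤ gauss.real U := measureReal_nonneg
  have μ1 : gauss.real U ≤ 1 := measureReal_le_one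
  refine ⟨gauss.real U, μ0, μ1, fun h h0 h1 => ?_⟩
  set η := (t - s - h) / 2 with hη
  have η0 : 0 < η := by rw [hη]; linarith
  have i1 : Integrable (U.indicator (1 : A3 → ℝ)) gauss := (integrable_const 1).indicator₀ hUm
  have e1 : ∫ a, U.indicator (1 : A3 → ℝ) a ∂gauss = gauss.real U := by
    rw [integral_indicator₀ hUm]; simp
  have u0 : ∀ a, U.indicator (1 : A3 → ℝ) a = 1 ∨ U.indicator (1 : A3 → ℝ) a = 0 := fun a => by
    by_cases ha : a ∈ U <;> simp [ha]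
  have k1 := H.cov (s' := s) (s := s + η) (t := t - η) (t' := t) (by linarith) (by linarith)
    (by linarith) (w := fun a => U.indicator 1 a - gauss.real U)
    (i1.aestronglyMeasurable.sub aestronglyMeasurable_const)
    (fun a => by rcases u0 a with e | e <;> rw [e, abs_le] <;> constructor <;> linarith)
    (Real.sqrt_nonneg _) fun z v hz => H.gf.cov z v hz U hUm
  rw [show t - η - (s + η) = h by rw [hη]; ring, ← mul_div_assoc] at k1
  refine le_trans ?_ k1
  set X := cn C Z fun u => ramp (s + η) (t - η) (ρ u) with hX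
  have iX : Integrable X gauss := H.int (H.aem (H.ll.comp (lipAt_ramp _ _)))
    (fun _ => clamp_nonneg _) fun _ => clamp_le _
  have st : s + η < t - η := by linarith
  have hae : ∀ᵐ a ∂gauss, cn C Z (ind ρ s) a ≤ X a ∧ X a ≤ cn C Z (ind ρ t) a ∧
      (a ∉ U → cn C Z (ind ρ s) a ≤ k) := by
    filter_upwards [H.fin] with a ha
    simp only [hX, hU, mem_ofPred_eq, cn_eq ha.1]
    refine ⟨Finset.sum_le_sum fun u _ => ?_, Finset.sum_le_sum fun u _ => ?_, fun hn => ?_⟩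
    · by_cases b : ρ u < s
      · rw [ind, if_pos b, ramp_one st (by linarith)]
      · rw [ind, if_neg b]; exact clamp_nonneg _
    · by_cases b : ρ u < t
      · rw [ind, if_pos b]; exact clamp_le _
      · rw [ind, if_neg b, ramp_zero st (by linarith)]
    · simp only [ind, Finset.sum_boole] at hn ⊢
      norm_cast at hn ⊢
      omega
  have iU : Integrable (fun a => U.indicator (1 : A3 → ℝ) a * (X a - k)) gauss :=
    (iX.sub (integrable_const _)).bdd_mul i1.aestronglyMeasurable (c := 1)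
      (Eventually.of_forall fun a => by rcases u0 a with e | e <;> simp [e])
  have e2 : ∫ a, (U.indicator 1 a - gauss.real U) * X a ∂gauss =
      ∫ a, U.indicator (1 : A3 → ℝ) a * (X a - k) ∂gauss - gauss.real U * (∫ a, X a ∂gauss - k) := by
    have e : ∀ a, (U.indicator 1 a - gauss.real U) * X a =
        U.indicator (1 : A3 → ℝ) a * (X a - k) + k * U.indicator (1 : A3 → ℝ) a -
          gauss.real U * X a := fun a => by ring
    simp_rw [e]
    have i2 : Integrable (fun a => U.indicator (1 : A3 → ℝ) a * (X a - k) +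
        k * U.indicator (1 : A3 → ℝ) a) gauss := iU.add (i1.const_mul _)
    rw [integral_sub i2 (iX.const_mul _), integral_add iU (i1.const_mul _),
      integral_const_mul, integral_const_mul, e1]
    ring
  have b1 : gauss.real U ≤ ∫ a, U.indicator (1 : A3 → ℝ) a * (X a - k) ∂gauss := by
    rw [← e1]
    refine integral_mono_ae i1 iU (hae.mono fun a ha => ?_)
    by_cases hu : a ∈ U
    · have : (k : ℝ) + 1 ≤ cn C Z (ind ρ s) a := hu
      simp only [indicator_of_mem hu, Pi.one_apply]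
      linarith [ha.1]
    · simp [hu]
  have b2 : mm C Z ρ s - k ≤ ∫ a, U.indicator (1 : A3 → ℝ) a * (X a - k) ∂gauss := by
    have e : mm C Z ρ s - k = ∫ a, (cn C Z (ind ρ s) a - k) ∂gauss := by
      rw [integral_sub (H.int_ind s) (integrable_const _), mm]; simp
    rw [e]
    refine integral_mono_ae ((H.int_ind s).sub (integrable_const _)) iU (hae.mono fun a ha => ?_)
    by_cases hu : a ∈ U
    · simp only [indicator_of_mem hu, Pi.one_apply]
      linarith [ha.1]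
    · simp only [indicator_of_notMem hu]
      linarith [ha.2.2 hu]
  have b3 : ∫ a, X a ∂gauss ≤ mm C Z ρ t :=
    integral_mono_ae iX (H.int_ind t) (hae.mono fun a ha => ha.2.1)
  rw [e2]
  exact sub_le_sub (max_le b1 b2) (mul_le_mul_of_nonneg_left (by linarith) μ0)

theorem abstractBound_of (hG : GaussFacts) (hO : OdeBound) : AbstractBound := by
  intro C Z d ρ L hC hne hfib hline hlip hlev
  have H : Ctx C Z d ρ := ⟨hG, hC, hne, hfib, ae_tz hC hline, fun u hu hZ K hK =>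
    hlip (br C u) u.1 (br_spec hC hu hZ).1 (br_mem hC hu hZ) K (by rwa [br_self hC hu hZ])⟩
  have := hG.prob
  refine hO (mm C Z ρ) L d H.mono ?_ (fun t => ?_) (fun s t h0 h1 h2 => ?_)
    fun k s t _ _ _ => H.iso k
  · exact integral_nonneg_of_ae (H.fin.mono fun a ha => (cn_bound ha (ind_nonneg 0) (ind_le 0)).1)
  · have := integral_mono_ae (H.int_ind t) (integrable_const (d : ℝ))
      (H.fin.mono fun a ha => (cn_bound ha (ind_nonneg t) (ind_le t)).2)
    simpa [mm] using this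
  · obtain ⟨u, hu, hZ, a1, a2⟩ := hlev s t h0 h1 h2
    exact H.strict hu hZ a1 a2

end Pool.Agent.P.MP_a3b544_ag.F2
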