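import Pool.Agent.P.MP_a3b544_ag.F2.Chart

/-! The averaged Poincare-Lelong formula and the Crofton formula on the whole curve. -/

namespace Pool.Agent.P.MP_a3b544_ag.F2

open scoped ENNReal NNReal Topology ComplexConjugate Manifold
open Set MeasureTheory Filter Complex

/-- Lipschitz near a point. -/
def LipAt {X Y : Type*} [PseudoMetricSpace X] [PseudoMetricSpace Y] (f : X → Y) (x : X) : Prop :=
  ∃ K : ℝ≥0, ∃ t ∈ 𝓝 x, LipschitzOnWith K f t

section
variable {X Y T : Type*} [PseudoMetricSpace X] [PseudoMetricSpace Y] [PseudoMetricSpace T]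

lemma LipAt.continuousAt {f : X → Y} {x : X} (h : LipAt f x) : ContinuousAt f x := by
  obtain ⟨K, t, ht, h⟩ := h
  exact h.continuousOn.continuousAt ht

lemma LipAt.comp {f : X → Y} {g : Y → T} {x : X} (hg : LipAt g (f x)) (hf : LipAt f x) :
    LipAt (fun y => g (f y)) x := by
  have hc := hf.continuousAt
  obtain ⟨K, t, ht, h⟩ := hf
  obtain ⟨K', t', ht', h'⟩ := hg
  exact ⟨K' * K, t ∩ f ⁻¹' t', inter_mem ht (hc ht'),
    h'.comp (h.mono inter_subset_left) fun y hy => hy.2⟩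

lemma LipAt.prodMk {f : X → Y} {g : X → T} {x : X} (hf : LipAt f x) (hg : LipAt g x) :
    LipAt (fun y => (f y, g y)) x := by
  obtain ⟨K, t, ht, h⟩ := hf
  obtain ⟨K', t', ht', h'⟩ := hg
  exact ⟨_, t ∩ t', inter_mem ht ht',
    (h.mono inter_subset_left).prodMk (h'.mono inter_subset_right)⟩

lemma LipAt.congr {f g : X → Y} {x : X} (hf : LipAt f x) (h : f =ᶠ[𝓝 x] g) : LipAt g x := by
  obtain ⟨K, t, ht, hf⟩ := hf
  refine ⟨K, t ∩ {y | f y = g y}, inter_mem ht h, fun y hy z hz => ?_⟩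
  rw [← hy.2, ← hz.2]; exact hf hy.1 hz.1

lemma LipAt.of_lip {f : X → Y} {K : ℝ≥0} (h : LipschitzWith K f) (x : X) : LipAt f x :=
  ⟨K, univ, univ_mem, h.lipschitzOnWith⟩

lemma LipAt.mul {f g : X → ℝ} {x : X} (hf : LipAt f x) (hg : LipAt g x) :
    LipAt (fun y => f y * g y) x := by
  have h : ContDiffAt ℝ 1 (fun p : ℝ × ℝ => p.1 * p.2) (f x, g x) := by fun_prop
  exact LipAt.comp (g := fun p : ℝ × ℝ => p.1 * p.2) (f := fun y => (f y, g y))
    h.exists_lipschitzOnWith (hf.prodMk hg)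

end

lemma exists_lip {ψ : ℂ → ℝ} (hc : HasCompactSupport ψ) (h : ∀ x, LipAt ψ x) :
    ∃ K, LipschitzWith K ψ := by
  obtain ⟨R, hR⟩ := hc.isBounded.subset_closedBall 0
  have hl : LocallyLipschitzOn (Metric.closedBall 0 (R + 1)) ψ := by
    intro x _
    obtain ⟨c, t, ht, hct⟩ := h x
    exact ⟨c, t, mem_nhdsWithin_of_mem_nhds ht, hct⟩
  obtain ⟨K, hK⟩ := hl.exists_lipschitzOnWith_of_compact (isCompact_closedBall _ _)
  obtain ⟨M, hM⟩ := hc.exists_bound_of_continuous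
    (continuous_iff_continuousAt.2 fun x => (h x).continuousAt)
  have M0 : 0 ≤ M := (norm_nonneg _).trans (hM 0)
  have h0 : ∀ y, y ∉ Metric.closedBall (0 : ℂ) R → ψ y = 0 := fun y hy =>
    image_eq_zero_of_notMem_tsupport fun h' => hy (hR h')
  have aux : ∀ x y, y ∉ Metric.closedBall (0 : ℂ) (R + 1) →
      dist (ψ x) (ψ y) ≤ (K + M) * dist x y := by
    intro x y hy
    rw [h0 y fun h' => hy (Metric.closedBall_subset_closedBall (by linarith) h')]
    by_cases hx : x ∈ Metric.closedBall (0 : ℂ) R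
    · rw [Metric.mem_closedBall] at hx hy
      have a := dist_triangle_left y 0 x
      have b : 1 ≤ dist x y := by linarith
      rw [dist_zero_right]
      nlinarith [hM x, K.coe_nonneg]
    · rw [h0 x hx, dist_self]; positivity
  refine ⟨_, LipschitzWith.of_dist_le' (K := K + M) fun x y => ?_⟩
  by_cases hy : y ∈ Metric.closedBall (0 : ℂ) (R + 1)
  · by_cases hx : x ∈ Metric.closedBall (0 : ℂ) (R + 1)
    · refine (hK.dist_le_mul x hx y hy).trans ?_
      gcongr; linarith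
    · rw [dist_comm, dist_comm x]; exact aux y x hx
  · exact aux x y hy

/-- The branch through a point. -/
noncomputable def br (C : Set (ℂ × ℂ)) (u : ℂ × ℂ) : ℂ → ℂ :=
  Classical.epsilon fun g => AnalyticAt ℂ g u.1 ∧ ∀ᶠ w in 𝓝 u, w ∈ C ↔ g w.1 = w.2

/-- The slope at a point. -/
noncomputable def sl (C : Set (ℂ × ℂ)) (u : ℂ × ℂ) : ℂ := deriv (br C u) u.1

/-- The gradient along the branch. -/
noncomputable def gm (C : Set (ℂ × ℂ)) (φ : ℂ × ℂ → ℝ) (u : ℂ × ℂ) : ℂ :=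
  gam (fun y => φ (y, br C u y)) u.1

/-- The speed along the branch. -/
noncomputable def lm (C : Set (ℂ × ℂ)) (u : ℂ × ℂ) : ℝ := lam u.1 u.2 (sl C u)

/-- Fibres. -/
def fb (C : Set (ℂ × ℂ)) (Z : Set ℂ) (x : ℂ) : Set ℂ := {v | (x, v) ∈ C ∧ x ∉ Z}

/-- Sum over a fibre. -/
noncomputable def fs (C : Set (ℂ × ℂ)) (Z : Set ℂ) (F : ℂ × ℂ → ℝ) (x : ℂ) : ℝ :=
  ∑ᶠ v ∈ fb C Z x, F (x, v)

/-- Intersection with a line. -/
def tz (C : Set (ℂ × ℂ)) (Z : Set ℂ) (a : A3) : Set (ℂ × ℂ) :=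
  {u | u ∈ C ∧ u.1 ∉ Z ∧ dot a (1, u.1, u.2) = 0}

/-- Sum over the intersection with a line. -/
noncomputable def cn (C : Set (ℂ × ℂ)) (Z : Set ℂ) (φ : ℂ × ℂ → ℝ) (a : A3) : ℝ :=
  ∑ᶠ u ∈ tz C Z a, φ u

/-- The density in the averaged formula. -/
noncomputable def dens (C : Set (ℂ × ℂ)) (w : A3 → ℝ) (φ : ℂ × ℂ → ℝ) (u : ℂ × ℂ) : ℝ :=
  bet w (1, u.1, u.2) (gm C φ u • (0, 1, sl C u))

variable {C : Set (ℂ × ℂ)} {Z : Set ℂ}

lemma br_spec (hC : Nice C Z) {u : ℂ × ℂ} (hu : u ∈ C) (hZ : u.1 ∉ Z) :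
    AnalyticAt ℂ (br C u) u.1 ∧ ∀ᶠ w in 𝓝 u, w ∈ C ↔ br C u w.1 = w.2 := by
  obtain ⟨g, h1, h2, -⟩ := hC.chart u hu hZ
  exact Classical.epsilon_spec
    (p := fun g => AnalyticAt ℂ g u.1 ∧ ∀ᶠ w in 𝓝 u, w ∈ C ↔ g w.1 = w.2) ⟨g, h1, h2⟩

lemma br_self (hC : Nice C Z) {u : ℂ × ℂ} (hu : u ∈ C) (hZ : u.1 ∉ Z) : br C u u.1 = u.2 :=
  (br_spec hC hu hZ).2.self_of_nhds.1 hu

lemma tendsto_br (hC : Nice C Z) {u : ℂ × ℂ} (hu : u ∈ C) (hZ : u.1 ∉ Z) :
    Tendsto (fun y => (y, br C u y)) (𝓝 u.1) (𝓝 u) := by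
  have := (continuousAt_id.prodMk (br_spec hC hu hZ).1.continuousAt).tendsto
  simpa [br_self hC hu hZ] using this

lemma br_mem (hC : Nice C Z) {u : ℂ × ℂ} (hu : u ∈ C) (hZ : u.1 ∉ Z) :
    ∀ᶠ y in 𝓝 u.1, (y, br C u y) ∈ C :=
  ((tendsto_br hC hu hZ).eventually (br_spec hC hu hZ).2).mono fun _ h => h.2 rfl

lemma br_eq (hC : Nice C Z) {g : ℂ → ℂ} {x : ℂ} (hg : ContinuousAt g x)
    (hm : ∀ᶠ y in 𝓝 x, (y, g y) ∈ C) (hZ : x ∉ Z) : br C (x, g x) =ᶠ[𝓝 x] g := by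
  have t : Tendsto (fun y => (y, g y)) (𝓝 x) (𝓝 (x, g x)) := continuousAt_id.prodMk hg
  filter_upwards [hm, t.eventually (br_spec hC (u := (x, g x)) hm.self_of_nhds hZ).2] with y h1 h2
  exact h2.1 h1

lemma fb_finite (hC : Nice C Z) (x : ℂ) : (fb C Z x).Finite := (hC.fib x).subset fun _ h => h.1

lemma fs_add (hC : Nice C Z) (F G : ℂ × ℂ → ℝ) (x : ℂ) :
    fs C Z (fun u => F u + G u) x = fs C Z F x + fs C Z G x :=
  finsum_mem_add_distrib (fb_finite hC x)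

lemma fs_congr {F G : ℂ × ℂ → ℝ} {x : ℂ} (h : ∀ v ∈ fb C Z x, F (x, v) = G (x, v)) :
    fs C Z F x = fs C Z G x := finsum_mem_congr rfl h

lemma ae_tz (hC : Nice C Z) {d : ℕ} (hline : ∀ α β : ℂ, (∀ x, (x, α + β * x) ∈ C) ∨
      ∃ S : Finset ℂ, S.card ≤ d ∧ ∀ x, (x, α + β * x) ∈ C → x ∈ S) :
    ∀ᵐ a ∂gauss, (tz C Z a).Finite ∧ (tz C Z a).ncard ≤ d := by
  classical
  obtain ⟨D, P, g, hP⟩ := hC.exists_pieces
  have h1 : ∀ᵐ a ∂gauss, ∀ n, ∀ x ∈ D n,
      dot a (1, x, g n x) = 0 → dot a (0, 1, deriv (g n) x) ≠ 0 :=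
    ae_all_iff.2 fun n => ae_simple (hP.isOpen n) fun x hx =>
      (hP.an n x hx).differentiableAt.differentiableWithinAt
  have h2 : ∀ᵐ a ∂gauss, a.2.2 ≠ 0 := by
    apply ae_gauss
    exact (Measure.quasiMeasurePreserving_snd.comp Measure.quasiMeasurePreserving_snd).ae
      (Measure.ae_ne volume (0 : ℂ))
  filter_upwards [h1, h2] with a h1 h2
  have key : ∀ x y, dot a (1, x, y) = 0 ↔ y = -a.1 / a.2.2 + -a.2.1 / a.2.2 * x := by
    intro x y
    simp only [dot]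
    constructor
    · intro h; field_simp; linear_combination h
    · intro h; rw [h]; field_simp; ring
  rcases hline (-a.1 / a.2.2) (-a.2.1 / a.2.2) with h | ⟨S, hS, h⟩
  · exfalso
    obtain ⟨x, hx⟩ := hC.finZ.exists_notMem
    obtain ⟨n, hn, hgn⟩ := hP.cover _ (h x) hx
    have hD := hP.sub n hn
    simp only at hgn hD
    have t : Tendsto (fun y => (y, -a.1 / a.2.2 + -a.2.1 / a.2.2 * y)) (𝓝 x) (𝓝 (x, g n x)) := by
      rw [hgn]
      exact Continuous.tendsto (by fun_prop) x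
    have e : g n =ᶠ[𝓝 x] fun y => -a.1 / a.2.2 + -a.2.1 / a.2.2 * y :=
      (t.eventually (hP.loc n x hD)).mono fun y hy => hy.1 (h y)
    refine h1 n x hD ((key _ _).2 hgn) ?_
    have e2 : deriv (fun y => -a.1 / a.2.2 + -a.2.1 / a.2.2 * y) x = -a.2.1 / a.2.2 := by
      simp
    rw [e.deriv_eq, e2]
    simp only [dot]
    field_simp
    ring
  · have hs : tz C Z a ⊆ (S.image fun x => (x, -a.1 / a.2.2 + -a.2.1 / a.2.2 * x) :
        Finset (ℂ × ℂ)) := by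
      intro u hu
      have e := (key _ _).1 hu.2.2
      rw [Finset.coe_image]
      exact ⟨u.1, h _ (by rw [← e]; exact hu.1), by simp only [← e]⟩
    refine ⟨(Finset.finite_toSet _).subset hs, (ncard_le_ncard hs).trans ?_⟩
    rw [ncard_coe_finset]
    exact Finset.card_image_le.trans hS

/-- The two integral formulas hold for `φ`. -/
structure Good (C : Set (ℂ × ℂ)) (Z : Set ℂ) (φ : ℂ × ℂ → ℝ) : Prop where
  diff : ∀ᵐ x : ℂ, ∀ v ∈ fb C Z x, DifferentiableAt ℝ (fun y => φ (y, br C (x, v) y)) x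
  fub : ∀ w : A3 → ℝ, AEStronglyMeasurable w gauss → (∀ a, |w a| ≤ 1) →
    Integrable (fun a => w a * cn C Z φ a) gauss ∧ Integrable (fs C Z (dens C w φ)) ∧
      ∫ a, w a * cn C Z φ a ∂gauss = -(2 * Real.pi)⁻¹ * ∫ x, fs C Z (dens C w φ) x
  crof : Integrable (fs C Z fun u => φ u * lm C u ^ 2) ∧
    ∫ a, cn C Z φ a ∂gauss = Real.pi⁻¹ * ∫ x, fs C Z (fun u => φ u * lm C u ^ 2) x

lemma Good.int {φ : ℂ × ℂ → ℝ} (h : Good C Z φ) : Integrable (cn C Z φ) gauss := by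
  simpa using (h.fub (fun _ => 1) aestronglyMeasurable_const fun _ => by simp).1

lemma Good.zero : Good C Z fun _ => 0 := by
  have e1 : ∀ w, fs C Z (dens C w fun _ => 0) = fun _ => 0 := by
    intro w; ext x; simp [fs, dens, gm, gam, bet_zero]
  have e2 : cn C Z (fun _ => 0) = fun _ => 0 := by ext a; simp [cn]
  have e3 : (fs C Z fun u => 0 * lm C u ^ 2) = fun _ => 0 := by ext a; simp [fs]
  refine ⟨Eventually.of_forall fun x v _ => differentiableAt_const _, fun w _ _ => ?_, ?_⟩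
  · simp [e1, e2]
  · rw [e2, e3]; simp

lemma Good.add (hG : GaussFacts) (hC : Nice C Z) (hfin : ∀ᵐ a ∂gauss, (tz C Z a).Finite)
    {φ φ' : ℂ × ℂ → ℝ} (h : Good C Z φ) (h' : Good C Z φ') : Good C Z fun u => φ u + φ' u := by
  have e : ∀ᵐ a ∂gauss, cn C Z (fun u => φ u + φ' u) a = cn C Z φ a + cn C Z φ' a :=
    hfin.mono fun a ha => finsum_mem_add_distrib ha
  refine ⟨?_, fun w hw hw1 => ?_, ?_⟩
  · filter_upwards [h.diff, h'.diff] with x h1 h2 v hv using (h1 v hv).add (h2 v hv)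
  · obtain ⟨a1, a2, a3⟩ := h.fub w hw hw1
    obtain ⟨b1, b2, b3⟩ := h'.fub w hw hw1
    have e1 : (fun a => w a * cn C Z φ a + w a * cn C Z φ' a) =ᵐ[gauss]
        fun a => w a * cn C Z (fun u => φ u + φ' u) a := e.mono fun a ha => by
      simp only [ha, mul_add]
    have e2 : (fun x => fs C Z (dens C w φ) x + fs C Z (dens C w φ') x) =ᵐ[volume]
        fs C Z (dens C w fun u => φ u + φ' u) := by
      filter_upwards [h.diff, h'.diff] with x h1 h2
      rw [← fs_add hC]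
      refine fs_congr fun v hv => ?_
      simp only [dens, gm]
      rw [gam_add (h1 v hv) (h2 v hv), add_smul, bet_add hG hw hw1 (one_ne_zero3 _ _)]
    refine ⟨(a1.add b1).congr e1, (a2.add b2).congr e2, ?_⟩
    rw [← integral_congr_ae e1, ← integral_congr_ae e2, integral_add a1 b1, integral_add a2 b2,
      a3, b3, mul_add]
  · have e2 : (fs C Z fun u => (φ u + φ' u) * lm C u ^ 2) = fun x =>
        fs C Z (fun u => φ u * lm C u ^ 2) x + fs C Z (fun u => φ' u * lm C u ^ 2) x := by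
      ext x
      rw [← fs_add hC]
      simp only [add_mul]
    rw [e2]
    refine ⟨h.crof.1.add h'.crof.1, ?_⟩
    rw [integral_congr_ae e, integral_add h.int h'.int, integral_add h.crof.1 h'.crof.1,
      h.crof.2, h'.crof.2, mul_add]

lemma Good.congr (hC : Nice C Z) {φ φ' : ℂ × ℂ → ℝ} (h : Good C Z φ) (e : ∀ u ∈ C, φ u = φ' u) :
    Good C Z φ' := by
  have e0 : ∀ x, ∀ v ∈ fb C Z x, (fun y => φ (y, br C (x, v) y)) =ᶠ[𝓝 x]
      fun y => φ' (y, br C (x, v) y) := fun x v hv =>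
    (br_mem hC (u := (x, v)) hv.1 hv.2).mono fun y hy => e _ hy
  have e1 : cn C Z φ' = cn C Z φ := funext fun a =>
    finsum_mem_congr rfl fun u hu => (e u hu.1).symm
  have e2 : ∀ w, fs C Z (dens C w φ') = fs C Z (dens C w φ) := fun w => funext fun x =>
    fs_congr fun v hv => by simp only [dens, gm, gam_congr (e0 x v hv)]
  have e3 : (fs C Z fun u => φ' u * lm C u ^ 2) = fs C Z fun u => φ u * lm C u ^ 2 :=
    funext fun x => fs_congr fun v hv => by simp only [e _ hv.1]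
  refine ⟨h.diff.mono fun x hx v hv => (hx v hv).congr_of_eventuallyEq (e0 x v hv).symm,
    fun w hw hw1 => ?_, ?_⟩
  · rw [e1, e2]; exact h.fub w hw hw1
  · rw [e1, e3]; exact h.crof

/-- A neighbourhood in which the curve is a graph. -/
structure Box (C : Set (ℂ × ℂ)) (Z : Set ℂ) (W : Set (ℂ × ℂ)) (D : Set ℂ) (g : ℂ → ℂ) :
    Prop where
  oW : IsOpen W
  oD : IsOpen D
  dif : DifferentiableOn ℂ g D
  meas : Measurable g
  mem : ∀ x ∈ D, x ∉ Z ∧ (x, g x) ∈ C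
  graph : ∀ u ∈ W, u ∈ C → u.1 ∈ D ∧ g u.1 = u.2

lemma exists_box (hC : Nice C Z) {u : ℂ × ℂ} (hu : u ∈ C) (hZ : u.1 ∉ Z) :
    ∃ W D g, Box C Z W D g ∧ u ∈ W := by
  classical
  obtain ⟨h1, h2⟩ := br_spec hC hu hZ
  obtain ⟨W, hW, oW, uW⟩ := mem_nhds_iff.1 h2
  obtain ⟨D, hD, oD, uD⟩ := mem_nhds_iff.1 ((br_mem hC hu hZ).and (h1.eventually_analyticAt.and
    (show ∀ᶠ x in 𝓝 u.1, x ∉ Z from hC.finZ.isClosed.isOpen_compl.mem_nhds hZ)))
  have hd : DifferentiableOn ℂ (br C u) D := fun x hx =>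
    (hD hx).2.1.differentiableAt.differentiableWithinAt
  refine ⟨W ∩ Prod.fst ⁻¹' D, D, D.piecewise (br C u) 0,
    ⟨oW.inter (oD.preimage continuous_fst), oD, hd.congr fun x hx => piecewise_eq_of_mem _ _ _ hx,
      hd.continuousOn.measurable_piecewise continuousOn_const oD.measurableSet,
      fun x hx => ⟨(hD hx).2.2, ?_⟩, fun w hw hwC => ⟨hw.2, ?_⟩⟩, uW, uD⟩
  · rw [piecewise_eq_of_mem _ _ _ hx]; exact (hD hx).1
  · rw [piecewise_eq_of_mem _ _ _ (show w.1 ∈ D from hw.2)]; exact (hW hw.1).1 hwC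

/-- Lipschitz along the branches. -/
def LL (C : Set (ℂ × ℂ)) (Z : Set ℂ) (φ : ℂ × ℂ → ℝ) : Prop :=
  ∀ u ∈ C, u.1 ∉ Z → LipAt (fun y => φ (y, br C u y)) u.1

lemma Box.good (hG : GaussFacts) (hC : Nice C Z) (hfin : ∀ᵐ a ∂gauss, (tz C Z a).Finite)
    {W : Set (ℂ × ℂ)} {D : Set ℂ} {g : ℂ → ℂ} (hB : Box C Z W D g) {φ : ℂ × ℂ → ℝ}
    (hφ : LL C Z φ) {K : Set (ℂ × ℂ)} (hK : IsCompact K) (hKW : K ⊆ W)
    (h0 : ∀ u ∈ C, u ∉ K → φ u = 0) : Good C Z φ := by
  classical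
  let ψ : ℂ → ℝ := D.indicator fun x => φ (x, g x)
  have hK' : IsCompact (Prod.fst '' (K ∩ C)) := (hK.inter_right hC.closed).image continuous_fst
  have hKD : Prod.fst '' (K ∩ C) ⊆ D := by
    rintro _ ⟨u, hu, rfl⟩; exact (hB.graph u (hKW hu.1) hu.2).1
  have hsup : Function.support ψ ⊆ Prod.fst '' (K ∩ C) := by
    intro x hx
    have hxD : x ∈ D := support_indicator_subset hx
    by_contra h
    refine hx ?_
    simp only [ψ, indicator_of_mem hxD]
    exact h0 _ (hB.mem x hxD).2 fun h' => h ⟨_, ⟨h', (hB.mem x hxD).2⟩, rfl⟩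
  have hts : tsupport ψ ⊆ Prod.fst '' (K ∩ C) := closure_minimal hsup hK'.isClosed
  have hc : HasCompactSupport ψ := hK'.of_isClosed_subset (isClosed_tsupport ψ) hts
  have hbr : ∀ x ∈ D, br C (x, g x) =ᶠ[𝓝 x] g := fun x hx =>
    br_eq hC (hB.dif.differentiableAt (hB.oD.mem_nhds hx)).continuousAt
      (Filter.mem_of_superset (hB.oD.mem_nhds hx) fun y hy => (hB.mem y hy).2) (hB.mem x hx).1
  have hin : ∀ x ∈ D, (fun y => φ (y, br C (x, g x) y)) =ᶠ[𝓝 x] ψ := by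
    intro x hx
    filter_upwards [hbr x hx, hB.oD.mem_nhds hx] with y h1 h2
    simp only [ψ, indicator_of_mem h2, h1]
  have hout : ∀ u ∈ C, u.1 ∉ Z → u ∉ K → (fun y => φ (y, br C u y)) =ᶠ[𝓝 u.1] fun _ => 0 := by
    intro u hu hZ huK
    filter_upwards [br_mem hC hu hZ,
      (tendsto_br hC hu hZ).eventually (hK.isClosed.isOpen_compl.mem_nhds huK)] with y h1 h2
    exact h0 _ h1 h2
  obtain ⟨L, hL⟩ := exists_lip hc fun x => by
    by_cases hx : x ∈ D
    · exact (hφ (x, g x) (hB.mem x hx).2 (hB.mem x hx).1).congr (hin x hx)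
    · exact (LipAt.of_lip (LipschitzWith.const (0 : ℝ)) x).congr
        (notMem_tsupport_iff_eventuallyEq.1 fun h => hx (hKD (hts h))).symm
  have hfs : ∀ F : ℂ × ℂ → ℝ, (∀ u ∈ C, u.1 ∉ Z → u ∉ K → F u = 0) → ∀ x,
      fs C Z F x = D.indicator (fun x => F (x, g x)) x := by
    intro F hF x
    by_cases hx : x ∈ D
    · rw [indicator_of_mem hx, ← finsum_mem_singleton (a := g x) (f := fun v => F (x, v))]
      refine finsum_mem_inter_support_eq' _ _ _ fun v hv => ⟨fun h => ?_, ?_⟩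
      · by_contra h'
        exact hv (hF _ h.1 h.2 fun hk => h' (hB.graph _ (hKW hk) h.1).2.symm)
      · rintro rfl
        exact ⟨(hB.mem x hx).2, (hB.mem x hx).1⟩
    · rw [indicator_of_notMem hx]
      exact finsum_mem_of_eqOn_zero fun v hv =>
        hF _ hv.1 hv.2 fun hk => hx (hB.graph _ (hKW hk) hv.1).1
  have hbij : ∀ a, BijOn (fun x => (x, g x)) (zer D g a) (tz C Z a ∩ {u | u.1 ∈ D ∧ g u.1 = u.2}) := by
    intro a
    refine ⟨fun x hx => ⟨⟨(hB.mem x hx.1).2, (hB.mem x hx.1).1, hx.2⟩, hx.1, rfl⟩,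
      fun x _ y _ h => congrArg Prod.fst h, fun u hu => ⟨u.1, ⟨hu.2.1, ?_⟩, ?_⟩⟩
    · rw [hu.2.2]; exact hu.1.2.2
    · simp only [hu.2.2]
  have hcn : cn C Z φ = fun a => ∑ᶠ x ∈ zer D g a, ψ x := by
    ext a
    rw [finsum_mem_eq_of_bijOn _ (hbij a) (g := φ) fun x hx => indicator_of_mem hx.1 _]
    refine finsum_mem_inter_support_eq' _ _ _ fun u hu => ⟨fun h => ⟨h, ?_⟩, fun h => h.1⟩
    by_contra h'
    exact hu (h0 u h.1 fun hk => h' (hB.graph u (hKW hk) h.1))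
  have hfin' : ∀ᵐ a ∂gauss, (zer D g a).Finite := hfin.mono fun a ha =>
    (hbij a).finite_iff_finite.2 (ha.subset inter_subset_left)
  have hs := hts.trans hKD
  refine ⟨?_, fun w hw hw1 => ?_, ?_⟩
  · filter_upwards [hL.ae_differentiableAt (μ := volume)] with x hx v hv
    by_cases hk : (x, v) ∈ K
    · obtain ⟨h1, h2⟩ := hB.graph _ (hKW hk) hv.1
      simp only at h1 h2
      subst h2
      exact hx.congr_of_eventuallyEq (hin x h1)
    · exact (differentiableAt_const _).congr_of_eventuallyEq (hout (x, v) hv.1 hv.2 hk)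
  · have e : fs C Z (dens C w φ) =
        fun x => bet w (1, x, g x) (gam ψ x • (0, 1, deriv g x)) := by
      ext x
      rw [hfs _ fun u hu hZ hk => by
        simp only [dens, gm, gam_congr (hout u hu hZ hk)]
        simp [gam, bet_zero]]
      by_cases hx : x ∈ D
      · simp only [indicator_of_mem hx, dens, gm, sl, gam_congr (hin x hx), (hbr x hx).deriv_eq]
      · rw [indicator_of_notMem hx, gam_of_notMem fun h => hx (hs h), zero_smul, bet_zero]
    rw [e, hcn]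
    exact chart_fubini hG hB.oD hB.dif hB.meas hL hc hs hfin' hw hw1
  · have e : (fs C Z fun u => φ u * lm C u ^ 2) =
        fun x => ψ x * lam x (g x) (deriv g x) ^ 2 := by
      ext x
      rw [hfs _ fun u hu _ hk => by rw [h0 u hu hk, zero_mul]]
      by_cases hx : x ∈ D
      · simp only [ψ, indicator_of_mem hx, lm, sl, (hbr x hx).deriv_eq]
      · simp only [ψ, indicator_of_notMem hx, zero_mul]
    rw [e, hcn]
    exact chart_crofton hG hB.oD hB.dif hB.meas hL hc hs hfin'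

theorem LL.good (hG : GaussFacts) (hC : Nice C Z) (hfin : ∀ᵐ a ∂gauss, (tz C Z a).Finite)
    {φ : ℂ × ℂ → ℝ} (hφ : LL C Z φ) {K : Set ℂ} (hK : IsCompact K) (hKZ : ∀ x ∈ K, x ∉ Z)
    (h0 : ∀ u ∈ C, u.1 ∉ K → φ u = 0) : Good C Z φ := by
  classical
  have hs : IsCompact (C ∩ Prod.fst ⁻¹' K) := by
    obtain ⟨M, hM⟩ := hC.bdd
    obtain ⟨R, hR⟩ := hK.isBounded.exists_norm_le
    refine (hK.prod (isCompact_closedBall (0 : ℂ) (|M| * (1 + R)))).of_isClosed_subset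
      (hC.closed.inter (hK.isClosed.preimage continuous_fst)) fun u hu => ⟨hu.2, ?_⟩
    rw [mem_closedBall_zero_iff]
    refine (hM u hu.1).trans ?_
    have := hR _ hu.2
    gcongr
    exact le_abs_self M
  have key : ∀ u : (C ∩ Prod.fst ⁻¹' K : Set (ℂ × ℂ)), ∃ W D g, Box C Z W D g ∧ u.1 ∈ W :=
    fun u => exists_box hC u.2.1 (hKZ _ u.2.2)
  choose W D g hB hW using key
  obtain ⟨t, ht⟩ := hs.elim_finite_subcover W (fun u => (hB u).oW)
    fun u hu => mem_iUnion.2 ⟨⟨u, hu⟩, hW _⟩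
  obtain ⟨f, hf⟩ := SmoothPartitionOfUnity.exists_isSubordinate (ι := t) 𝓘(ℝ, ℂ × ℂ) hs.isClosed
    (fun i => W i) (fun i => (hB i).oW) fun u hu => by
      obtain ⟨i, hi, h⟩ := mem_iUnion₂.1 (ht hu)
      exact mem_iUnion.2 ⟨⟨i, hi⟩, h⟩
  have h1 : ∀ i, Good C Z fun u => φ u * f i u := by
    intro i
    refine (hB i).good hG hC hfin (fun u hu hZ => (hφ u hu hZ).mul ?_)
      (hs.inter_right (isClosed_tsupport (f i))) (fun u hu => hf i hu.2) fun u hu hk => ?_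
    · have a1 : ContDiffAt ℝ 1 (br C u) u.1 := (br_spec hC hu hZ).1.contDiffAt.restrict_scalars ℝ
      have a2 : ContDiff ℝ 1 (f i) := (f i).contMDiff.contDiff.of_le (by simp)
      exact (a2.contDiffAt.comp u.1 (contDiffAt_id.prodMk a1)).exists_lipschitzOnWith
    · by_cases h : u.1 ∈ K
      · rw [image_eq_zero_of_notMem_tsupport fun h' => hk ⟨⟨hu, h⟩, h'⟩, mul_zero]
      · rw [h0 u hu h, zero_mul]
  have h2 : ∀ s : Finset t, Good C Z fun u => ∑ i ∈ s, φ u * f i u := by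
    intro s
    induction s using Finset.induction_on with
    | empty => simpa using Good.zero
    | insert i s hi ih =>
      simp only [Finset.sum_insert hi]
      exact (h1 i).add hG hC hfin ih
  refine (h2 Finset.univ).congr hC fun u hu => ?_
  by_cases h : u.1 ∈ K
  · rw [← Finset.mul_sum, ← finsum_eq_sum_of_fintype, f.sum_eq_one ⟨hu, h⟩, mul_one]
  · simp [h0 u hu h]

end Pool.Agent.P.MP_a3b544_ag.F2
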