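import Pool.Agent.P.MP_a3b544_ag.Area

/-! Interface for the sharp upper bound: random lines in the plane. -/

namespace Pool.Agent.P.MP_a3b544_ag.F2

open scoped ENNReal NNReal Topology ComplexConjugate
open Set MeasureTheory Filter

/-- Triples of complex numbers. -/
abbrev A3 := ℂ × ℂ × ℂ

/-- Bilinear pairing. -/
def dot (a v : A3) : ℂ := a.1 * v.1 + a.2.1 * v.2.1 + a.2.2 * v.2.2

/-- Squared Euclidean norm. -/
noncomputable def nsq (a : A3) : ℝ := ‖a.1‖ ^ 2 + ‖a.2.1‖ ^ 2 + ‖a.2.2‖ ^ 2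

/-- Hermitian product. -/
def herm (v z : A3) : ℂ := v.1 * conj z.1 + v.2.1 * conj z.2.1 + v.2.2 * conj z.2.2

/-- Fubini-Study norm of `v` at `[z]`. -/
noncomputable def spd (z v : A3) : ℝ := √(nsq z * nsq v - ‖herm v z‖ ^ 2) / nsq z

/-- Standard complex Gaussian measure. -/
noncomputable def gauss : Measure A3 :=
  volume.withDensity fun a => ENNReal.ofReal (Real.exp (-nsq a) / Real.pi ^ 3)

/-- Fubini-Study speed of a graph with slope `s` at `(x, y)`. -/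
noncomputable def lam (x y s : ℂ) : ℝ := spd (1, x, y) (0, 1, s)

/-- Facts about the Gaussian measure. -/
structure GaussFacts : Prop where
  prob : IsProbabilityMeasure gauss
  integrable : ∀ z v : A3, z ≠ 0 → Integrable (fun a => (dot a v / dot a z).re) gauss
  mean : ∀ z v : A3, z ≠ 0 → ∫ a, (dot a v / dot a z).re ∂gauss = (herm v z).re / nsq z
  abs_le : ∀ z v : A3, z ≠ 0 →
    ∫ a, |(dot a v / dot a z).re| ∂gauss ≤ √(((herm v z).re / nsq z) ^ 2 + spd z v ^ 2)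
  cov : ∀ z v : A3, z ≠ 0 → ∀ U : Set A3, NullMeasurableSet U gauss →
    |∫ a, (U.indicator 1 a - gauss.real U) * (dot a v / dot a z).re ∂gauss| ≤
      √(gauss.real U * (1 - gauss.real U)) * spd z v

/-- The real-variable comparison. -/
def OdeBound : Prop :=
  ∀ (m : ℝ → ℝ) (L : ℝ) (d : ℕ), Monotone m → 0 ≤ m 0 → (∀ t, m t ≤ d) →
    (∀ s t, 0 ≤ s → s < t → t ≤ L → m s < m t) →
    (∀ (k : ℕ) (s t : ℝ), s < t → k < m s → m s < k + 1 → ∃ μ : ℝ, 0 ≤ μ ∧ μ ≤ 1 ∧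
      ∀ h : ℝ, 0 < h → h < t - s →
        max μ (m s - k) - μ * (m t - k) ≤ √(μ * (1 - μ)) * (m t - m s) / (2 * h)) →
    L ≤ Real.pi / 2 * d

/-- The abstract bound on a plane curve of degree at most `d`. -/
def AbstractBound : Prop :=
  ∀ (C : Set (ℂ × ℂ)) (Z : Set ℂ) (d : ℕ) (ρ : ℂ × ℂ → ℝ) (L : ℝ), Nice C Z → Z.Nonempty →
    (∀ x, ∃ S : Finset ℂ, S.card ≤ d ∧ ∀ v, (x, v) ∈ C → v ∈ S) →
    (∀ α β : ℂ, (∀ x, (x, α + β * x) ∈ C) ∨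
      ∃ S : Finset ℂ, S.card ≤ d ∧ ∀ x, (x, α + β * x) ∈ C → x ∈ S) →
    (∀ (g : ℂ → ℂ) (x₀ : ℂ), AnalyticAt ℂ g x₀ → (∀ᶠ x in 𝓝 x₀, (x, g x) ∈ C) →
      ∀ K : ℝ≥0, lam x₀ (g x₀) (deriv g x₀) < K →
        ∃ t ∈ 𝓝 x₀, LipschitzOnWith K (fun x => ρ (x, g x)) t) →
    (∀ s t, 0 ≤ s → s < t → t ≤ L → ∃ u ∈ C, u.1 ∉ Z ∧ s < ρ u ∧ ρ u < t) →
    L ≤ Real.pi / 2 * d

end Pool.Agent.P.MP_a3b544_ag.F2
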